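import Pool.Agent.Lib.MP_ae38e0_lc.BoundedOT

set_option autoImplicit false

/-!
# The numbers in the round lower bound
-/

namespace Pool.Agent.LinOT

theorem query_count (c k r n : ℕ) (hk : 12 ≤ k) (hn : n ≤ k ^ c)
    (hr : 32 * (c + 6) * r * Nat.log 2 k ≤ k) :
    2 * r * (n * (n * ((8 * r + 4) * k) ^ 2) ^ (2 * r)) ≤ 2 ^ (k / 4) := by
  rcases Nat.eq_zero_or_pos r with rfl | hr0
  · simp
  have hlog : 1 ≤ Nat.log 2 k := Nat.log_pos (by norm_num) (by omega)
  have hrk : r ≤ k := by
    calc r = 1 * 1 * r * 1 := by ring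
      _ ≤ 32 * (c + 6) * r * Nat.log 2 k := by
        gcongr
        · omega
        · omega
      _ ≤ k := hr
  have h1 : (8 * r + 4) * k ≤ 12 * k ^ 2 := by nlinarith
  have h2 : n * ((8 * r + 4) * k) ^ 2 ≤ k ^ (c + 6) := by
    calc n * ((8 * r + 4) * k) ^ 2 ≤ k ^ c * (12 * k ^ 2) ^ 2 := by gcongr
      _ = k ^ c * (12 ^ 2 * k ^ 4) := by ring
      _ ≤ k ^ c * (k ^ 2 * k ^ 4) := by gcongr
      _ = k ^ (c + 6) := by ring
  have hk1 : 1 ≤ k := by omega
  have hk2 : 2 ≤ k := by omega
  have h3 : 2 * r * (n * (n * ((8 * r + 4) * k) ^ 2) ^ (2 * r)) ≤ k ^ (3 * (c + 6) * r) := by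
    calc 2 * r * (n * (n * ((8 * r + 4) * k) ^ 2) ^ (2 * r))
        ≤ k * k * (k ^ c * (k ^ (c + 6)) ^ (2 * r)) := by gcongr
      _ = k ^ (c + 2 + (c + 6) * (2 * r)) := by
        rw [← pow_mul]; ring
      _ ≤ k ^ (3 * (c + 6) * r) := by
        apply Nat.pow_le_pow_right hk1
        nlinarith
  have h4 : k < 2 ^ (Nat.log 2 k + 1) := Nat.lt_pow_succ_log_self (by norm_num) k
  have h5 : k ^ (3 * (c + 6) * r) ≤ 2 ^ (6 * (c + 6) * r * Nat.log 2 k) := by
    calc k ^ (3 * (c + 6) * r) ≤ (2 ^ (Nat.log 2 k + 1)) ^ (3 * (c + 6) * r) := by gcongr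
      _ ≤ (2 ^ (2 * Nat.log 2 k)) ^ (3 * (c + 6) * r) := by
        gcongr
        · norm_num
        · omega
      _ = 2 ^ (6 * (c + 6) * r * Nat.log 2 k) := by
        rw [← pow_mul]; ring_nf
  refine h3.trans (h5.trans (Nat.pow_le_pow_right (by norm_num) ?_))
  have h6 : 32 * (c + 6) * r * Nat.log 2 k = 32 * ((c + 6) * r * Nat.log 2 k) := by ring
  have h7 : 6 * (c + 6) * r * Nat.log 2 k = 6 * ((c + 6) * r * Nat.log 2 k) := by ring
  rw [h6] at hr
  rw [h7]
  omega

/-- One-wayness against `2 ^ (k / 2)` queries. -/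
theorem oneway_half {K : Type} [Field K] [Fintype K] (k : ℕ)
    (I : (Fin (3 * k) → K) → Comp (Fin (2 ^ k) × Fin (3 * k) → K) K (Fin (2 ^ k)))
    (hq : ∀ y O, ((I y).asked O).length ≤ 2 ^ (k / 2)) :
    prob (fun p : (Fin (2 ^ k) → Fin (3 * k) → K) × Fin (2 ^ k) =>
      p.1 ((I (p.1 p.2)).run (lin p.1)) = p.1 p.2) ≤ 3 / 2 ^ (k / 2) := by
  have : Nonempty (Fin (2 ^ k)) := ⟨⟨0, by positivity⟩⟩
  refine (oneway_prob _ I hq).trans ?_
  have hK : (2 : ℝ) ≤ Fintype.card K := by exact_mod_cast Fintype.one_lt_card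
  have h1 : (2 : ℝ) ^ (k / 2) * 2 ^ (k / 2) ≤ 2 ^ k := by
    rw [← pow_add]
    exact pow_le_pow_right₀ (by norm_num) (by omega)
  have hp : (1 : ℝ) ≤ 2 ^ (k / 2) := one_le_pow₀ (by norm_num)
  have h2 : (((2 ^ (k / 2) : ℕ) : ℝ) + 1) / Fintype.card (Fin (2 ^ k)) ≤ 2 / 2 ^ (k / 2) := by
    rw [Fintype.card_fin]
    push_cast
    rw [div_le_div_iff₀ (by positivity) (by positivity)]
    nlinarith
  have h3 : (Fintype.card (Fin (2 ^ k)) : ℝ) / (Fintype.card K : ℝ) ^ (3 * k) ≤ 1 / 2 ^ (k / 2) := by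
    rw [Fintype.card_fin]
    push_cast
    rw [div_le_div_iff₀ (by positivity) (by positivity)]
    calc (2 : ℝ) ^ k * 2 ^ (k / 2) ≤ 2 ^ k * 2 ^ k := by
          gcongr
          · norm_num
          · omega
      _ = 2 ^ (2 * k) := by rw [← pow_add]; congr 1; ring
      _ ≤ 2 ^ (3 * k) := pow_le_pow_right₀ (by norm_num) (by omega)
      _ ≤ (Fintype.card K : ℝ) ^ (3 * k) := by gcongr
      _ = 1 * (Fintype.card K : ℝ) ^ (3 * k) := by ring
  calc _ ≤ 2 / 2 ^ (k / 2) + 1 / (2 : ℝ) ^ (k / 2) := add_le_add h2 h3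
    _ = 3 / 2 ^ (k / 2) := by ring


/-- The pair of oracles consisting of `O` and of the adversary `E` (which itself uses `O`). -/
def withAdv {K Q T : Type} (O : Q → K) (E : T → Comp Q K Bool) : Q ⊕ T → K ⊕ Bool :=
  Sum.elim (fun q => Sum.inl (O q)) (fun t => Sum.inr ((E t).run O))

/-- A computation which calls the adversary, as a computation with oracle `O` alone. -/
def Comp.sim {K Q T α : Type} (E : T → Comp Q K Bool) : Comp (Q ⊕ T) (K ⊕ Bool) α → Comp Q K α
  | ret a => ret a
  | ask x next =>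
    match x with
    | .inl q => .ask q (fun k => sim E (next (.inl k)))
    | .inr t => (E t).bind (fun b => sim E (next (.inr b)))

theorem Comp.run_sim {K Q T α : Type} (E : T → Comp Q K Bool) (O : Q → K)
    (c : Comp (Q ⊕ T) (K ⊕ Bool) α) : (c.sim E).run O = c.run (withAdv O E) := by
  induction c with
  | ret a => rfl
  | ask x next ih =>
    rcases x with q | t
    · simp [Comp.sim, withAdv, ih]
    · simp [Comp.sim, withAdv, ih]

theorem Comp.asked_sim {K Q T α : Type} (E : T → Comp Q K Bool) (O : Q → K) (B : ℕ) (hB : 1 ≤ B)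
    (hE : ∀ t, ((E t).asked O).length ≤ B) (c : Comp (Q ⊕ T) (K ⊕ Bool) α) :
    ((c.sim E).asked O).length ≤ B * (c.asked (withAdv O E)).length := by
  induction c with
  | ret a => simp [Comp.sim]
  | ask x next ih =>
    rcases x with q | t
    · have := ih (.inl (O q))
      simp only [Comp.sim, Comp.asked_ask, List.length_cons]
      rw [Nat.mul_add]
      have e : withAdv O E (.inl q) = .inl (O q) := rfl
      rw [e]
      omega
    · have h1 := ih (.inr ((E t).run O))
      have h2 := hE t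
      simp only [Comp.sim, Comp.asked_bind, Comp.asked_ask, List.length_cons, List.length_append]
      rw [Nat.mul_add]
      have e : withAdv O E (.inr t) = .inr ((E t).run O) := rfl
      rw [e]
      omega

section

variable {K Q M : Type} [Field K]

/-- The sum of the three distinguishing advantages of `E`, applied to the transcript: for the
sender with `b0 = false` and with `b0 = true` between the choice bits of the receiver, and for the
receiver with choice bit `true` between the values of `b0`. -/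
noncomputable def advSum (L : Submodule K (Q → K)) (R : Party Q K M Bool)
    (S : Party Q K M (Bool × Bool)) (r : ℕ) (m0 : M) (E : List (M × M) → Comp Q K Bool)
    (b1 : Bool) : ℝ :=
  |acc L R S r m0 E true false b1 - acc L R S r m0 E false false b1| +
    |acc L R S r m0 E true true b1 - acc L R S r m0 E false true b1| +
    |acc L R S r m0 E true true b1 - acc L R S r m0 E true false b1|

/-- The party with input `x` asks at most `n` queries in `r` rounds. -/
def limited {X : Type} (L : Submodule K (Q → K)) (P : Party Q K M X) (x : X) (r n : ℕ) : Prop :=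
  ∀ O ∈ L, ∀ τ l, l.length = r → (P.asked O (P.init x τ) l).length ≤ n

theorem transcript_length (R : Party Q K M Bool) (S : Party Q K M (Bool × Bool)) (n : ℕ) (m0 : M)
    (O : Q → K) (c b0 b1 : Bool) (τ : R.Tape × S.Tape) :
    (transcript R S n m0 O c b0 b1 τ).length = n :=
  (exec_spec R S O n _ _ m0).1

theorem acc_congr (L : Submodule K (Q → K)) (R : Party Q K M Bool)
    (S : Party Q K M (Bool × Bool)) (r : ℕ) (m0 : M) (E E' : List (M × M) → Comp Q K Bool)
    (h : ∀ t, t.length = r → E t = E' t) (c b0 b1 : Bool) :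
    acc L R S r m0 E c b0 b1 = acc L R S r m0 E' c b0 b1 := by
  unfold acc
  congr 1
  funext w
  rw [h _ (transcript_length R S r m0 _ c b0 b1 w.2)]

end

theorem round_barrier (K M : Type) [Field K] [Fintype K] (k c r n : ℕ)
    (L : Submodule K ((Fin (2 ^ k) × Fin (3 * k) → K) → K))
    (R : Party (Fin (2 ^ k) × Fin (3 * k) → K) K M Bool)
    (S : Party (Fin (2 ^ k) × Fin (3 * k) → K) K M (Bool × Bool)) [Fintype R.Tape]
    [Fintype S.Tape] [Nonempty R.Tape] [Nonempty S.Tape] (out : R.St → Option Bool) (m0 : M)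
    (hk : 12 ≤ k) (hn : n ≤ k ^ c) (hr : 32 * (c + 6) * r * Nat.log 2 k ≤ k)
    (hR : limited L R false r n) (hS : ∀ b, limited L S b r n) (δ : ℝ) (b1 : Bool)
    (hδ : ∀ b0, err L R S out r m0 false b0 b1 ≤ δ) :
    ∃ E : List (M × M) → Comp (Fin (2 ^ k) × Fin (3 * k) → K) K Bool,
      (∀ t O, ((E t).asked O).length ≤ 2 ^ (k / 4)) ∧
      1 - 2 * δ - 1 / k ≤ advSum L R S r m0 E b1 ∧
      ∀ I : (Fin (3 * k) → K) → Comp ((Fin (2 ^ k) × Fin (3 * k) → K) ⊕ List (M × M)) (K ⊕ Bool)
          (Fin (2 ^ k)),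
        (∀ y O, ((I y).asked (withAdv O E)).length ≤ 2 ^ (k / 4)) →
        prob (fun p : (Fin (2 ^ k) → Fin (3 * k) → K) × Fin (2 ^ k) =>
          p.1 ((I (p.1 p.2)).run (withAdv (lin p.1) E)) = p.1 p.2) ≤ 3 / 2 ^ (k / 2) := by
  have hkpos : 1 ≤ k := by omega
  have hn' : max n 1 ≤ k ^ c := max_le hn (Nat.one_le_pow _ _ hkpos)
  have hh : 0 < (8 * r + 4) * k := by positivity
  have : Finite L := inferInstance
  obtain ⟨E, hE1, hE2⟩ := ot_bounded L R S out m0 r (max n 1) ((8 * r + 4) * k)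
    (by omega) hh
    (fun O hO τ l hl => (hR O hO τ l hl).trans (le_max_left _ _))
    (fun O hO b τ l hl => (hS b O hO τ l hl).trans (le_max_left _ _)) δ b1 hδ
  have hq := query_count c k r (max n 1) hk hn' hr
  classical
  set E' : List (M × M) → Comp (Fin (2 ^ k) × Fin (3 * k) → K) K Bool :=
    fun t => if t.length = r then E t else Comp.ret false with hE'
  have hEE : ∀ t, t.length = r → E t = E' t := by
    intro t ht
    simp [hE', ht]
  have hb : ∀ t O, ((E' t).asked O).length ≤ 2 ^ (k / 4) := by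
    intro t O
    by_cases ht : t.length = r
    · rw [← hEE t ht]
      exact (hE1 t O ht).trans hq
    · simp [hE', ht]
  refine ⟨E', hb, ?_, ?_⟩
  · unfold advSum
    rw [← acc_congr L R S r m0 E E' hEE, ← acc_congr L R S r m0 E E' hEE,
      ← acc_congr L R S r m0 E E' hEE, ← acc_congr L R S r m0 E E' hEE]
    refine le_trans (le_of_eq ?_) hE2
    have hk0 : (k : ℝ) ≠ 0 := by exact_mod_cast (by omega : k ≠ 0)
    have hr0 : (8 * (r : ℝ) + 4) ≠ 0 := by positivity
    push_cast
    field_simp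
    ring
  · intro I hI
    have h := oneway_half (K := K) k (fun y => (I y).sim E') (by
      intro y O
      refine (Comp.asked_sim E' O (2 ^ (k / 4)) (Nat.one_le_two_pow) (fun t => hb t O) (I y)).trans ?_
      calc 2 ^ (k / 4) * ((I y).asked (withAdv O E')).length ≤ 2 ^ (k / 4) * 2 ^ (k / 4) := by
            gcongr
            exact hI y O
        _ = 2 ^ (k / 4 + k / 4) := by rw [pow_add]
        _ ≤ 2 ^ (k / 2) := Nat.pow_le_pow_right (by norm_num) (by omega))
    simp only [Comp.run_sim] at h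
    exact h

end Pool.Agent.LinOT
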