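import Pool.Agent.Lib.MP_ae38e0_lc.Window
import Pool.Agent.Lib.MP_ae38e0_lc.RoundNum

set_option autoImplicit false

/-!
# Key agreement and oblivious transfer with all queries in a window of rounds
-/

namespace Pool.Agent.LinOT

open Classical

variable {K : Type} [Field K] {Q M X Y RA RB σ : Type}

variable (L : Submodule K (Q → K)) [Fintype L] [Fintype RA] [Fintype RB]

/-- **Key agreement** with queries in a window of rounds. -/
theorem window_attack [Nonempty σ] [Nonempty RA] [Nonempty RB] (A : Party Q K M X)
    (B : Party Q K M Y) (iA : RA → A.St) (iB : RB → B.St) (outA : RA → A.St → Option σ)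
    (outB : RB → B.St → σ) (m0 : M) (n h s r u : ℕ) (hn : 0 < n) (hh : 0 < h)
    (hA : ∀ O ∈ L, ∀ (ra : RA) (l : List (M × M)), l.length = s + (r + u) →
      (A.asked O (iA ra) l).length ≤ n)
    (hB : ∀ O ∈ L, ∀ (rb : RB) (l : List (M × M)), l.length = s + (r + u) →
      (B.asked O (iB rb) l).length ≤ n)
    (qA : ∀ O ∈ L, ∀ (ra : RA) (l : List (M × M)) (m : M),
      (s + r ≤ l.length ∧ l.length < s + (r + u)) → (A.step (A.after O (iA ra) l) m).asked O = [])
    (qB : ∀ O ∈ L, ∀ (rb : RB) (l : List (M × M)) (m : M),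
      (s + r ≤ l.length ∧ l.length < s + (r + u)) → (B.step (B.after O (iB rb) l) m).asked O = [])
    (hside : (∀ O ∈ L, ∀ (ra : RA) (l : List (M × M)) (m : M), l.length < s →
        (A.step (A.after O (iA ra) l) m).asked O = []) ∨
      (∀ O ∈ L, ∀ (rb : RB) (l : List (M × M)) (m : M), l.length < s →
        (B.step (B.after O (iB rb) l) m).asked O = [])) :
    ∃ E : List (M × M) → Comp Q K σ,
      (∀ t O, ((E t).asked O).length ≤ (2 * r + 1) * (n * (n * h ^ 2) ^ (2 * r + 1))) ∧
      prob (fun w : RA × RB × L =>
        outA w.1 (exec A B w.2.2 (s + (r + u)) (iA w.1) (iB w.2.1) m0).2.1 =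
        some (outB w.2.1 (exec A B w.2.2 (s + (r + u)) (iA w.1) (iB w.2.1) m0).2.2)) -
          (4 * r + 4) / h ≤
      prob (fun w : RA × RB × L =>
        (E (exec A B w.2.2 (s + (r + u)) (iA w.1) (iB w.2.1) m0).1).run w.2.2 =
        outB w.2.1 (exec A B w.2.2 (s + (r + u)) (iA w.1) (iB w.2.1) m0).2.2) := by
  have hh' : (0 : ℝ) < h := by exact_mod_cast hh
  rcases Nat.lt_or_ge h 2 with h1 | h2
  · have h1' : h = 1 := by omega
    subst h1'
    refine ⟨fun _ => .ret (Classical.arbitrary σ), fun t O => by simp, ?_⟩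
    have a1 : ∀ p : RA × RB × L → Prop, prob p ≤ 1 := by
      intro p
      rw [prob_eq]
      apply div_le_one_of_le₀ _ (Nat.cast_nonneg _)
      exact_mod_cast Finset.card_le_univ _
    have a2 : ∀ p : RA × RB × L → Prop, 0 ≤ prob p := by
      intro p
      rw [prob_eq]
      positivity
    have b1 := a1 (fun w : RA × RB × L =>
      outA w.1 (exec A B w.2.2 (s + (r + u)) (iA w.1) (iB w.2.1) m0).2.1 =
        some (outB w.2.1 (exec A B w.2.2 (s + (r + u)) (iA w.1) (iB w.2.1) m0).2.2))
    refine le_trans ?_ (a2 _)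
    have : (0 : ℝ) ≤ 4 * (r : ℝ) := by positivity
    push_cast
    rw [div_one]
    linarith
  · refine ⟨fun t => eveW L A B outB n h r u t (Side.start iA) (Side.start iB) [] m0, ?_, ?_⟩
    · intro t O
      exact eveW_asked L A B outB n h r u hn hh O t (Side.start iA) (Side.start iB) [] m0
    · have hat := attack_pre L A B outA outB n h r u hn h2 s (Side.start iA) (Side.start iB) [] m0
        (start_loc iA) (start_loc iB)
        (fun ra O l hl => by
          simpa [Side.start] using asked_short A (O : Q → K) (iA ra) (s + (r + u)) n m0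
            (fun l hl => hA O O.2 ra l hl) l hl)
        (fun rb O l hl => by
          simpa [Side.start] using asked_short B (O : Q → K) (iB rb) (s + (r + u)) n m0
            (fun l hl => hB O O.2 rb l hl) l hl)
        (fun ra O l m hl => qA O O.2 ra l m hl)
        (fun rb O l m hl => qB O O.2 rb l m hl)
        (by
          rcases hside with h1 | h1
          · left
            exact ⟨fun _ _ => rfl, fun ra O l m hl => h1 O O.2 ra l m hl⟩
          · right
            exact ⟨fun _ _ => rfl, fun rb O l m hl => h1 O O.2 rb l m hl⟩)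
        (fun _ => closed_start L iB h _ [])
      have hcs : cs L orc (real L (Side.start iA) (Side.start iB)) [] = Finset.univ := by
        ext w
        simp [mem_cs, real, Side.start, Cons]
      rw [hcs, supp_start, supp_start, List.map_nil, kc_nil, Finset.card_univ] at hat
      unfold payW at hat
      rw [Finset.sum_sub_distrib] at hat
      simp only [Finset.sum_ite, Finset.sum_const_zero, add_zero, Finset.sum_const, nsmul_eq_mul,
        mul_one] at hat
      rw [prob_eq, prob_eq]
      have hLpos : (0 : ℝ) < Fintype.card L := by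
        have : Nonempty L := ⟨0⟩
        exact_mod_cast Fintype.card_pos
      have hN : (0 : ℝ) < Fintype.card (RA × RB × L) := by
        have : Nonempty L := ⟨0⟩
        exact_mod_cast Fintype.card_pos
      have eN : ((Fintype.card RA * Fintype.card L : ℕ) : ℝ) *
          ((Fintype.card RB * Fintype.card L : ℕ) : ℝ) / (Fintype.card L : ℝ) =
          Fintype.card (RA × RB × L) := by
        rw [Fintype.card_prod, Fintype.card_prod]
        push_cast
        field_simp
      rw [eN] at hat
      have hlam : 1 - (4 * (r : ℝ) + 4) / h ≤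
          (1 - 2 / (h : ℝ)) * (1 - 1 / (h : ℝ)) ^ (4 * r + 2) := by
        have hh2 : (2 : ℝ) ≤ h := by exact_mod_cast h2
        have hx1 : 1 / (h : ℝ) ≤ 1 := by rw [div_le_one hh']; linarith
        have hx0 : 0 ≤ 1 / (h : ℝ) := by positivity
        have hb := one_add_mul_le_pow (a := -(1 / (h : ℝ))) (by linarith) (4 * r + 2)
        have hp1 : (1 - 1 / (h : ℝ)) ^ (4 * r + 2) ≤ 1 :=
          pow_le_one₀ (by linarith) (by linarith)
        have e1 : (1 + -(1 / (h : ℝ))) = 1 - 1 / (h : ℝ) := by ring
        rw [e1] at hb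
        push_cast at hb
        have e2 : (2 : ℝ) / h = 2 * (1 / h) := by ring
        have e3 : (4 * (r : ℝ) + 4) / h = (4 * r + 2) * (1 / h) + 2 * (1 / h) := by ring
        rw [e2, e3]
        nlinarith
      set win := ((Finset.univ.filter fun w : RA × RB × L =>
        (eveW L A B outB n h r u (exec A B w.2.2 (s + (r + u)) (iA w.1) (iB w.2.1) m0).1
          (Side.start iA) (Side.start iB) [] m0).run (w.2.2 : Q → K) =
        outB w.2.1 (exec A B w.2.2 (s + (r + u)) (iA w.1) (iB w.2.1) m0).2.2).card : ℝ) with hwin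
      set agr := ((Finset.univ.filter fun w : RA × RB × L =>
        outA w.1 (exec A B w.2.2 (s + (r + u)) (iA w.1) (iB w.2.1) m0).2.1 =
        some (outB w.2.1 (exec A B w.2.2 (s + (r + u)) (iA w.1) (iB w.2.1) m0).2.2)).card : ℝ)
          with hagr
      have hat' : (1 - 2 / (h : ℝ)) * (1 - 1 / (h : ℝ)) ^ (4 * r + 2) *
          (Fintype.card (RA × RB × L) : ℝ) - (Fintype.card (RA × RB × L) : ℝ) ≤ win - agr := hat
      have h3 := mul_le_mul_of_nonneg_right hlam hN.le
      rw [sub_le_iff_le_add, div_add' _ _ _ hN.ne', div_le_div_iff_of_pos_right hN]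
      linarith

omit [Fintype L] [Fintype RA] [Fintype RB] in
/-- The party with input `x` asks no query in the rounds `i` (`i = 0, 1, ...`) with `I i`. -/
def idle {X : Type} (L : Submodule K (Q → K)) (P : Party Q K M X) (x : X) (I : ℕ → Prop) : Prop :=
  ∀ O ∈ L, ∀ τ (l : List (M × M)) (m : M), I l.length →
    (P.step (P.after O (P.init x τ) l) m).asked O = []

/-- **Oblivious transfer** with queries in a window of rounds. -/
theorem ot_window (L : Submodule K (Q → K)) [Finite L] (R : Party Q K M Bool)
    (S : Party Q K M (Bool × Bool)) [Fintype R.Tape] [Fintype S.Tape] [Nonempty R.Tape]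
    [Nonempty S.Tape] (out : R.St → Option Bool) (m0 : M) (N s r n h : ℕ) (hsr : s + r ≤ N)
    (hn : 0 < n) (hh : 0 < h)
    (hR : limited L R false N n) (hS : ∀ b, limited L S b N n)
    (qR : idle L R false (fun i => s + r ≤ i ∧ i < N))
    (qS : ∀ b, idle L S b (fun i => s + r ≤ i ∧ i < N))
    (hside : idle L R false (fun i => i < s) ∨ ∀ b, idle L S b (fun i => i < s))
    (δ : ℝ) (b1 : Bool) (hδ : ∀ b0, err L R S out N m0 false b0 b1 ≤ δ) :
    ∃ E : List (M × M) → Comp Q K Bool,
      (∀ t O, ((E t).asked O).length ≤ (2 * r + 1) * (n * (n * h ^ 2) ^ (2 * r + 1))) ∧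
      1 - 2 * (δ + (4 * r + 4) / h) ≤ advSum L R S N m0 E b1 := by
  obtain ⟨u, rfl⟩ : ∃ u, N = s + (r + u) := ⟨N - (s + r), by omega⟩
  set N := s + (r + u) with hN
  have : Fintype L := Fintype.ofFinite L
  have : Nonempty L := ⟨0⟩
  obtain ⟨E, hE1, hE2⟩ := window_attack L (RA := R.Tape) (RB := Bool × S.Tape) (σ := Bool) R S
    (fun τ => R.init false τ) (fun p => S.init (p.1, b1) p.2) (fun _ s => out s)
    (fun p _ => p.1) m0 n h s r u hn hh (fun O hO ra l hl => hR O hO ra l hl)
    (fun O hO rb l hl => hS _ O hO rb.2 l hl)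
    (fun O hO ra l m hl => qR O hO ra l m hl)
    (fun O hO rb l m hl => qS _ O hO rb.2 l m hl)
    (by
      rcases hside with h1 | h1
      · left
        exact fun O hO ra l m hl => h1 O hO ra l m hl
      · right
        exact fun O hO rb l m hl => h1 _ O hO rb.2 l m hl)
  refine ⟨E, hE1, ?_⟩
  have q1 := prob_bool (T := R.Tape) (U := S.Tape) (V := L) (fun b O τ τ' =>
    out (exec R S O N (R.init false τ) (S.init (b, b1) τ') m0).2.1 = some b)
  have q2 := prob_bool (T := R.Tape) (U := S.Tape) (V := L) (fun b O τ τ' =>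
    (E (exec R S O N (R.init false τ) (S.init (b, b1) τ') m0).1).run (O : Q → K) = b)
  rw [← hN, q1, q2] at hE2
  have e1 : ∀ b0, 1 - δ ≤ prob (fun w : L × R.Tape × S.Tape =>
      out (exec R S w.1 N (R.init false w.2.1) (S.init (b0, b1) w.2.2) m0).2.1 = some b0) := by
    intro b0
    have := hδ b0
    unfold err at this
    rw [prob_not] at this
    unfold output at this
    simp only [Bool.false_eq_true, if_false] at this
    linarith
  have e2 : prob (fun w : L × R.Tape × S.Tape =>
      (E (exec R S w.1 N (R.init false w.2.1) (S.init (false, b1) w.2.2) m0).1).run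
        (w.1 : Q → K) = false) = 1 - acc L R S N m0 E false false b1 := by
    unfold acc
    rw [← prob_not]
    congr 1
    funext w
    simp [transcript]
  have e3 : prob (fun w : L × R.Tape × S.Tape =>
      (E (exec R S w.1 N (R.init false w.2.1) (S.init (true, b1) w.2.2) m0).1).run
        (w.1 : Q → K) = true) = acc L R S N m0 E false true b1 := rfl
  have f0 := e1 false
  have f1 := e1 true
  rw [e2, e3] at hE2
  have a1 := le_abs_self (acc L R S N m0 E true false b1 - acc L R S N m0 E false false b1)
  have a2 := neg_abs_le (acc L R S N m0 E true true b1 - acc L R S N m0 E false true b1)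
  have a3 := neg_abs_le (acc L R S N m0 E true true b1 - acc L R S N m0 E true false b1)
  have a4 := le_abs_self (acc L R S N m0 E true true b1 - acc L R S N m0 E true false b1)
  unfold advSum
  linarith

end Pool.Agent.LinOT
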