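import Mathlib

set_option autoImplicit false

/-!
# The skew Bollobas bound for subspaces and the correlation bound
-/

namespace Pool.Agent.LinOT

/-! ### Determinants and alternating maps -/

section Det

variable {R : Type} [CommRing R] {a b : ℕ}

/-- The determinant of a block of `a` vectors and a block of `b` vectors. -/
noncomputable def detB (x : Fin a → (Fin a ⊕ Fin b → R)) (v : Fin b → (Fin a ⊕ Fin b → R)) : R :=
  Matrix.det (Matrix.of (Sum.elim x v))

theorem detB_update (x : Fin a → (Fin a ⊕ Fin b → R)) (v : Fin b → (Fin a ⊕ Fin b → R))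
    (i : Fin a) (c : Fin a ⊕ Fin b → R) :
    detB (Function.update x i c) v =
      Matrix.det ((Matrix.of (Sum.elim x v)).updateRow (Sum.inl i) c) := by
  unfold detB
  congr 1
  rw [Matrix.updateRow, ← Sum.update_elim_inl]
  rfl

/-- The determinant of a block of `a` variable vectors and a block of `b` fixed vectors, as an
alternating map of the variable vectors. -/
noncomputable def detAlt (v : Fin b → (Fin a ⊕ Fin b → R)) :
    (Fin a ⊕ Fin b → R) [⋀^Fin a]→ₗ[R] R where
  toFun x := detB x v
  map_update_add' := by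
    intro D x i p q
    obtain rfl : D = instDecidableEqFin a := Subsingleton.elim _ _
    rw [detB_update, detB_update, detB_update, Matrix.det_updateRow_add]
  map_update_smul' := by
    intro D x i c p
    obtain rfl : D = instDecidableEqFin a := Subsingleton.elim _ _
    rw [detB_update, detB_update, Matrix.det_updateRow_smul, smul_eq_mul]
  map_eq_zero_of_eq' := by
    intro x i j hx hij
    refine Matrix.det_zero_of_row_eq (i := Sum.inl i) (j := Sum.inl j) (by simpa using hij) ?_
    show x i = x j
    exact hx

theorem detAlt_apply (v : Fin b → (Fin a ⊕ Fin b → R)) (x : Fin a → (Fin a ⊕ Fin b → R)) :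
    detAlt v x = detB x v := rfl

/-- **The skew Bollobas bound in coordinates.** -/
theorem skew_det [IsDomain R] (m : ℕ) (u : Fin m → Fin a → (Fin a ⊕ Fin b → R))
    (v : Fin m → Fin b → (Fin a ⊕ Fin b → R))
    (h1 : ∀ i, detB (u i) (v i) ≠ 0)
    (h2 : ∀ i j, i < j → detB (u i) (v j) = 0) :
    m ≤ (a + b).choose a := by
  have hli : LinearIndependent R (fun j => exteriorPower.alternatingMapLinearEquiv (R := R)
      (n := a) (M := (Fin a ⊕ Fin b → R)) (N := R) (detAlt (v j))) := by
    rw [Fintype.linearIndependent_iff]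
    intro g hg i
    induction i using Fin.strong_induction_on with
    | _ i ih =>
      have h3 := congrArg (fun D : ⋀[R]^a (Fin a ⊕ Fin b → R) →ₗ[R] R =>
        D (exteriorPower.ιMulti R a (u i))) hg
      simp only [LinearMap.sum_apply, LinearMap.smul_apply,
        exteriorPower.alternatingMapLinearEquiv_apply_ιMulti, detAlt_apply, smul_eq_mul,
        LinearMap.zero_apply] at h3
      rw [Finset.sum_eq_single i] at h3
      · exact (mul_eq_zero.mp h3).resolve_right (h1 i)
      · intro j _ hj
        rcases lt_or_gt_of_ne hj with h | h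
        · rw [ih j h, zero_mul]
        · rw [h2 i j h, mul_zero]
      · intro h; exact absurd (Finset.mem_univ i) h
  have hfin : Module.finrank R (⋀[R]^a (Fin a ⊕ Fin b → R) →ₗ[R] R) = (a + b).choose a := by
    rw [Module.finrank_linearMap_self, exteriorPower.finrank_eq]
    simp
  have := hli.fintype_card_le_finrank
  rw [hfin] at this
  simpa using this

end Det

/-! ### The generic projection -/

section Generic

variable {K : Type} [Field K] {a b D : ℕ}

/-- The generic projection to a space of dimension `a + b`. -/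
noncomputable def gproj (w : Fin D → K) :
    Fin a ⊕ Fin b → MvPolynomial ((Fin a ⊕ Fin b) × Fin D) K :=
  fun r => ∑ c, MvPolynomial.C (w c) * MvPolynomial.X (r, c)

theorem detB_gproj (x : Fin a → Fin D → K) (v : Fin b → Fin D → K) :
    detB (fun k => gproj (a := a) (b := b) (x k)) (fun k => gproj (v k)) =
      Matrix.det (Matrix.of fun k => gproj (a := a) (b := b) (Sum.elim x v k)) := by
  unfold detB
  congr 2
  funext k
  rcases k with k | k <;> rfl

theorem gproj_dep (x : Fin a → Fin D → K) (v : Fin b → Fin D → K) (h : ¬ LinearIndependent K (Sum.elim x v)) :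
    detB (fun k => gproj (a := a) (b := b) (x k)) (fun k => gproj (v k)) = 0 := by
  rw [detB_gproj]
  rw [Fintype.not_linearIndependent_iff] at h
  obtain ⟨g, hg, i, hi⟩ := h
  rw [← Matrix.exists_vecMul_eq_zero_iff]
  refine ⟨fun k => MvPolynomial.C (g k), ?_, ?_⟩
  · intro h0
    apply hi
    have := congrFun h0 i
    simpa using this
  · funext r
    simp only [Matrix.vecMul, dotProduct, Matrix.of_apply, gproj, Pi.zero_apply]
    simp only [Finset.mul_sum]
    rw [Finset.sum_comm]
    have h1 : ∀ c : Fin D, ∑ k, g k * Sum.elim x v k c = 0 := by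
      intro c
      have := congrFun hg c
      simpa [Finset.sum_apply] using this
    refine Finset.sum_eq_zero fun c _ => ?_
    have h2 : ∀ k : Fin a ⊕ Fin b, (MvPolynomial.C (g k) * (MvPolynomial.C (Sum.elim x v k c) *
        MvPolynomial.X (r, c)) : MvPolynomial ((Fin a ⊕ Fin b) × Fin D) K) =
        MvPolynomial.C (g k * Sum.elim x v k c) * MvPolynomial.X (r, c) := by
      intro k; rw [MvPolynomial.C_mul, mul_assoc]
    rw [Finset.sum_congr rfl fun k _ => h2 k, ← Finset.sum_mul, ← map_sum, h1, map_zero, zero_mul]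

theorem gproj_indep (x : Fin a → Fin D → K) (v : Fin b → Fin D → K) (h : LinearIndependent K (Sum.elim x v)) :
    detB (fun k => gproj (a := a) (b := b) (x k)) (fun k => gproj (v k)) ≠ 0 := by
  rw [detB_gproj]
  -- a left inverse
  obtain ⟨g, hg⟩ := LinearMap.exists_leftInverse_of_injective
    (Fintype.linearCombination K (Sum.elim x v)) (by
      rw [LinearMap.ker_eq_bot]
      exact linearIndependent_iff_injective_fintypeLinearCombination.mp h)
  have hgk : ∀ k, g (Sum.elim x v k) = Pi.single k 1 := by
    intro k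
    have := LinearMap.congr_fun hg (Pi.single k 1)
    simpa [Fintype.linearCombination_apply_single] using this
  intro h0
  set φ : MvPolynomial ((Fin a ⊕ Fin b) × Fin D) K →+* K :=
    MvPolynomial.eval (fun p => g (Pi.single p.2 1) p.1) with hφ
  have h1 := congrArg φ h0
  rw [map_zero, RingHom.map_det] at h1
  have h2 : φ.mapMatrix (Matrix.of fun k => gproj (a := a) (b := b) (Sum.elim x v k)) = 1 := by
    ext k r
    simp only [RingHom.mapMatrix_apply, Matrix.map_apply, Matrix.of_apply, gproj, map_sum, map_mul,
      hφ, MvPolynomial.eval_C, MvPolynomial.eval_X]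
    have h3 : g (Sum.elim x v k) r = ∑ c, Sum.elim x v k c * g (Pi.single c 1) r := by
      conv_lhs => rw [pi_eq_sum_univ' (Sum.elim x v k)]
      rw [map_sum, Finset.sum_apply]
      refine Finset.sum_congr rfl fun c _ => ?_
      rw [map_smul]
      simp only [Pi.smul_apply, smul_eq_mul]

    rw [← h3, hgk, Matrix.one_apply, Pi.single_apply]
    simp only [eq_comm]
  rw [h2, Matrix.det_one] at h1
  exact one_ne_zero h1

end Generic

/-! ### The skew Bollobas bound for subspaces -/

section Sub

variable {K : Type} [Field K] {a b n : ℕ}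

/-- The bound for families of vectors. -/
theorem skew_vec {D m : ℕ} (x : Fin m → Fin a → Fin D → K) (y : Fin m → Fin b → Fin D → K)
    (h1 : ∀ i, LinearIndependent K (Sum.elim (x i) (y i)))
    (h2 : ∀ i j, i < j → ¬ LinearIndependent K (Sum.elim (x i) (y j))) :
    m ≤ (a + b).choose a :=
  skew_det m (fun i k => gproj (x i k)) (fun i k => gproj (y i k))
    (fun i => gproj_indep _ _ (h1 i)) (fun i j hij => gproj_dep _ _ (h2 i j hij))

variable {E : Type} [AddCommGroup E] [Module K E] [FiniteDimensional K E]

theorem exists_pad (U : Submodule K E) (h : Module.finrank K U ≤ n) :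
    ∃ w : Fin n → E × (Fin n → K), LinearIndependent K w ∧
      (∀ z ∈ Submodule.span K (Set.range w), z.1 ∈ U) ∧
      (∀ a ∈ U, (a, (0 : Fin n → K)) ∈ Submodule.span K (Set.range w)) := by
  set d := Module.finrank K U with hd
  let b : Module.Basis (Fin d) K U := Module.finBasis K U
  let w : Fin n → E × (Fin n → K) := fun k =>
    if hk : (k : ℕ) < d then ((b ⟨k, hk⟩ : E), 0) else (0, Pi.single k 1)
  refine ⟨w, ?_, ?_, ?_⟩
  · rw [Fintype.linearIndependent_iff]
    intro g hg
    have hg1 := congrArg Prod.fst hg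
    have hg2 := congrArg Prod.snd hg
    rw [Prod.fst_sum] at hg1
    rw [Prod.snd_sum] at hg2
    have h2 : ∀ i : Fin n, ¬ ((i : ℕ) < d) → g i = 0 := by
      intro i hi
      have := congrFun hg2 i
      rw [Finset.sum_apply, Finset.sum_eq_single i] at this
      · simpa [w, hi] using this
      · intro j _ hj
        by_cases hjd : (j : ℕ) < d
        · simp [w, hjd]
        · simp [w, hjd, hj.symm]
      · intro h; exact absurd (Finset.mem_univ i) h
    have h3 : ∑ j : Fin d, g (Fin.castLE h j) • (b j : E) = 0 := by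
      have e : ∀ j : Fin d, g (Fin.castLE h j) • (b j : E) =
          (g (Fin.castLE h j) • w (Fin.castLE h j)).1 := by
        intro j
        simp [w]
      rw [Finset.sum_congr rfl fun j _ => e j]
      have e2 := Finset.sum_map (Finset.univ : Finset (Fin d)) (Fin.castLEEmb h)
        (fun k => (g k • w k).1)
      simp only [Fin.castLEEmb_apply] at e2
      rw [← e2]
      refine Eq.trans (Finset.sum_subset (Finset.subset_univ _) ?_) hg1
      intro k _ hk
      have : ¬ ((k : ℕ) < d) := by
        intro hkd
        apply hk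
        rw [Finset.mem_map]
        exact ⟨⟨k, hkd⟩, Finset.mem_univ _, rfl⟩
      rw [h2 k this, zero_smul]
      rfl
    have h4 : ∀ j : Fin d, g (Fin.castLE h j) = 0 := by
      have hb := b.linearIndependent
      rw [Fintype.linearIndependent_iff] at hb
      apply hb
      apply Subtype.ext
      simpa using h3
    intro i
    by_cases hi : (i : ℕ) < d
    · exact h4 ⟨i, hi⟩
    · exact h2 i hi
  · intro z hz
    induction hz using Submodule.span_induction with
    | mem z hz =>
      obtain ⟨k, rfl⟩ := hz
      by_cases hk : (k : ℕ) < d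
      · simp [w, hk]
      · simp [w, hk]
    | zero => exact U.zero_mem
    | add a c _ _ ha hc => exact U.add_mem ha hc
    | smul r a _ ha => exact U.smul_mem r ha
  · intro a ha
    have h1 : a = ∑ j, b.repr ⟨a, ha⟩ j • (b j : E) := by
      have := congrArg U.subtype (b.sum_repr ⟨a, ha⟩)
      rw [map_sum] at this
      exact this.symm
    have h2 : (a, (0 : Fin n → K)) = ∑ j : Fin d, b.repr ⟨a, ha⟩ j • w (Fin.castLE h j) := by
      ext1
      · rw [Prod.fst_sum]
        refine h1.trans (Finset.sum_congr rfl fun j _ => ?_)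
        simp [w]
      · rw [Prod.snd_sum]
        symm
        refine Finset.sum_eq_zero fun j _ => ?_
        simp [w]
    rw [h2]
    exact Submodule.sum_mem _ fun j _ => Submodule.smul_mem _ _
      (Submodule.subset_span ⟨_, rfl⟩)

/-- **The skew Bollobas bound for subspaces** (Lovasz). -/
theorem skew_sub {m : ℕ} (U V : Fin m → Submodule K E) (hU : ∀ i, Module.finrank K (U i) ≤ a)
    (hV : ∀ i, Module.finrank K (V i) ≤ b) (hd : ∀ i, Disjoint (U i) (V i))
    (hs : ∀ i j, i < j → ¬ Disjoint (U i) (V j)) : m ≤ (a + b).choose a := by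
  choose u hu1 hu2 hu3 using fun i => exists_pad (n := a) (U i) (hU i)
  choose v hv1 hv2 hv3 using fun i => exists_pad (n := b) (V i) (hV i)
  let ι1 : E × (Fin a → K) →ₗ[K] E × (Fin a → K) × (Fin b → K) :=
    LinearMap.prod (LinearMap.fst K E (Fin a → K))
      (LinearMap.prod (LinearMap.snd K E (Fin a → K)) 0)
  let ι2 : E × (Fin b → K) →ₗ[K] E × (Fin a → K) × (Fin b → K) :=
    LinearMap.prod (LinearMap.fst K E (Fin b → K))
      (LinearMap.prod 0 (LinearMap.snd K E (Fin b → K)))
  have hι1 : ∀ z, ι1 z = (z.1, z.2, 0) := fun z => rfl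
  have hι2 : ∀ z, ι2 z = (z.1, 0, z.2) := fun z => rfl
  have k1 : LinearMap.ker ι1 = ⊥ := by
    rw [LinearMap.ker_eq_bot']
    rintro ⟨p, q⟩ h
    rw [hι1] at h
    simp only [Prod.mk_eq_zero] at h
    rw [h.1, h.2.1]; rfl
  have k2 : LinearMap.ker ι2 = ⊥ := by
    rw [LinearMap.ker_eq_bot']
    rintro ⟨p, q⟩ h
    rw [hι2] at h
    simp only [Prod.mk_eq_zero] at h
    rw [h.1, h.2.2]; rfl
  let e := (Module.finBasis K (E × (Fin a → K) × (Fin b → K))).equivFun
  have hse : ∀ i j, Sum.elim (fun k => e (ι1 (u i k))) (fun k => e (ι2 (v j k))) =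
      e ∘ Sum.elim (fun k => ι1 (u i k)) (fun k => ι2 (v j k)) := by
    intro i j
    funext k
    rcases k with k | k <;> rfl
  have hli : ∀ i j, LinearIndependent K
      (Sum.elim (fun k => e (ι1 (u i k))) (fun k => e (ι2 (v j k)))) ↔
        Disjoint (Submodule.map ι1 (Submodule.span K (Set.range (u i))))
          (Submodule.map ι2 (Submodule.span K (Set.range (v j)))) := by
    intro i j
    rw [hse]
    have h1 : LinearIndependent K (e ∘ Sum.elim (fun k => ι1 (u i k)) (fun k => ι2 (v j k))) ↔
        LinearIndependent K (Sum.elim (fun k => ι1 (u i k)) (fun k => ι2 (v j k))) :=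
      LinearMap.linearIndependent_iff e.toLinearMap (LinearEquiv.ker e)
    rw [h1, linearIndependent_sum]
    have e1 : (Sum.elim (fun k => ι1 (u i k)) (fun k => ι2 (v j k))) ∘ Sum.inl = ι1 ∘ u i := rfl
    have e2 : (Sum.elim (fun k => ι1 (u i k)) (fun k => ι2 (v j k))) ∘ Sum.inr = ι2 ∘ v j := rfl
    rw [e1, e2, Submodule.map_span, Submodule.map_span, ← Set.range_comp, ← Set.range_comp]
    constructor
    · intro h; exact h.2.2
    · intro h
      exact ⟨(hu1 i).map' ι1 k1, (hv1 j).map' ι2 k2, h⟩
  refine skew_vec (a := a) (b := b) (fun i k => e (ι1 (u i k))) (fun i k => e (ι2 (v i k))) ?_ ?_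
  · intro i
    rw [hli, Submodule.disjoint_def]
    rintro z ⟨p, hp, rfl⟩ ⟨p', hp', hpp⟩
    rw [hι1, hι2] at hpp
    simp only [Prod.mk.injEq] at hpp
    have h1 := hu2 i p hp
    have h2 := hv2 i p' hp'
    rw [hpp.1] at h2
    have h3 := (Submodule.disjoint_def.mp (hd i)) _ h1 h2
    rw [hι1, h3, ← hpp.2.1]
    rfl
  · intro i j hij h
    rw [hli] at h
    apply hs i j hij
    rw [Submodule.disjoint_def]
    intro p ha hb
    have h1 : ((p, (0 : Fin a → K), (0 : Fin b → K)) : E × (Fin a → K) × (Fin b → K)) = 0 := by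
      refine (Submodule.disjoint_def.mp h) _ ⟨(p, 0), hu3 i p ha, ?_⟩ ⟨(p, 0), hv3 j p hb, ?_⟩
      · rw [hι1]
      · rw [hι2]
    exact congrArg Prod.fst h1

end Sub

end Pool.Agent.LinOT
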