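import Pool.Agent.Lib.MP_ae38e0_lc.Sides
import Pool.Agent.Lib.MP_ae38e0_lc.SkewBollobas

set_option autoImplicit false

/-!
# Touching lists of queries: the skew bound and the correlation bound
-/

namespace Pool.Agent.LinOT

open Classical

variable {K : Type} [Field K] {Q : Type} (L : Submodule K (Q → K))

/-- A query as a linear functional on the oracles of `L` vanishing on `W`. -/
def fnl (W : List Q) (q : Q) : Module.Dual K (killer L W) where
  toFun D := (D : Q → K) q
  map_add' _ _ := rfl
  map_smul' _ _ := rfl

/-- The span of the queries `S` modulo `W`. -/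
def spn (W S : List Q) : Submodule K (Module.Dual K (killer L W)) :=
  Submodule.span K (Set.range fun i : Fin S.length => fnl L W (S.get i))

theorem finrank_spn (W S : List Q) : Module.finrank K (spn L W S) ≤ S.length := by
  have := finrank_range_le_card (R := K) (b := fun i : Fin S.length => fnl L W (S.get i))
  rw [Fintype.card_fin] at this
  exact this

/-- **Touching means that the spans meet.** -/
theorem tch_iff (W S T : List Q) : Tch L W S T ↔ ¬ Disjoint (spn L W S) (spn L W T) := by
  have hvan : ∀ (T' : List Q) (φ : Module.Dual K (killer L W)), φ ∈ spn L W T' →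
      ∀ D : killer L W, (∀ x ∈ T', (D : Q → K) x = 0) → φ D = 0 := by
    intro T' φ hφ D hD
    induction hφ using Submodule.span_induction with
    | mem z hz => obtain ⟨i, rfl⟩ := hz; exact hD _ (List.get_mem _ _)
    | zero => rfl
    | add a c _ _ ha hc => rw [LinearMap.add_apply, ha, hc, add_zero]
    | smul r a _ ha => rw [LinearMap.smul_apply, ha, smul_zero]
  constructor
  · intro h hdis
    unfold Tch at h
    apply h
    intro D0 hD0
    by_contra hcon
    -- restriction to `T`
    let r : killer L W →ₗ[K] (Fin T.length → K) :=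
      LinearMap.pi fun i => fnl L W (T.get i)
    let N : Submodule K (killer L W) := ⨅ i : Fin S.length, LinearMap.ker (fnl L W (S.get i))
    have hnot : r ⟨D0, hD0⟩ ∉ Submodule.map r N := by
      rintro ⟨D', hD', hr⟩
      apply hcon
      refine ⟨D'.1, ⟨D'.2.1, ?_⟩, ?_⟩
      · intro q hq
        rcases List.mem_append.mp hq with hq | hq
        · exact D'.2.2 q hq
        · obtain ⟨i, rfl⟩ := List.mem_iff_get.mp hq
          have := (Submodule.mem_iInf _).mp hD' i
          exact this
      · intro x hx
        obtain ⟨i, rfl⟩ := List.mem_iff_get.mp hx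
        exact congrFun hr i
    obtain ⟨c, hc1, hc2⟩ := Submodule.exists_dual_map_eq_bot_of_notMem hnot inferInstance
    have hφS : c ∘ₗ r ∈ spn L W S := by
      apply mem_span_of_iInf_ker_le_ker
      intro D hD
      rw [LinearMap.mem_ker, LinearMap.comp_apply]
      have : c (r D) ∈ Submodule.map c (Submodule.map r N) := ⟨r D, ⟨D, hD, rfl⟩, rfl⟩
      rw [hc2] at this
      exact this
    have hφT : c ∘ₗ r ∈ spn L W T := by
      apply mem_span_of_iInf_ker_le_ker
      intro D hD
      rw [LinearMap.mem_ker, LinearMap.comp_apply]
      have : r D = 0 := by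
        funext i
        exact (Submodule.mem_iInf _).mp hD i
      rw [this, map_zero]
    have h0 := (Submodule.disjoint_def.mp hdis) _ hφS hφT
    exact hc1 (by rw [← LinearMap.comp_apply, h0]; rfl)
  · intro h hT
    apply h
    rw [Submodule.disjoint_def]
    intro φ hφS hφT
    refine LinearMap.ext fun D => ?_
    obtain ⟨D', hD', hx⟩ := hT D.1 D.2
    let D2 : killer L W := ⟨D', killer_mono L W S hD'⟩
    have e1 : φ D2 = 0 := hvan S φ hφS D2 (fun x hx => hD'.2 x (List.mem_append_right _ hx))
    have e2 : φ (D - D2) = 0 := by
      refine hvan T φ hφT (D - D2) (fun x hxT => ?_)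
      have := hx x hxT
      show (D : Q → K) x - D' x = 0
      rw [this, sub_self]
    rw [map_sub, e1, sub_zero] at e2
    exact e2

theorem tch_symm {W S T : List Q} (h : Tch L W S T) : Tch L W T S := by
  rw [tch_iff] at h ⊢
  exact fun hd => h hd.symm

/-- **The skew bound for touching.** -/
theorem tch_skew [Finite L] (W : List Q) (a b m : ℕ) (S T : Fin m → List Q)
    (hS : ∀ i, (S i).length ≤ a) (hT : ∀ i, (T i).length ≤ b)
    (hd : ∀ i, ¬ Tch L W (S i) (T i)) (hs : ∀ i j, i < j → Tch L W (S i) (T j)) :
    m ≤ (a + b).choose a := by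
  refine skew_sub (fun i => spn L W (S i)) (fun i => spn L W (T i))
    (fun i => (finrank_spn L W _).trans (hS i)) (fun i => (finrank_spn L W _).trans (hT i)) ?_ ?_
  · intro i
    have := hd i
    rw [tch_iff, not_not] at this
    exact this
  · intro i j hij
    exact (tch_iff L W _ _).mp (hs i j hij)

/-! ### The correlation bound -/

section Skew

variable {α β : Type} (rel : α → β → Prop)

/-- There is a skew sequence of length `k` of related pairs. -/
def HasSkew : ℕ → Finset α → Finset β → Prop
  | 0, _, _ => True
  | k + 1, A, B => ∃ x ∈ A, ∃ y ∈ B, rel x y ∧ HasSkew k (A.filter fun x' => ¬ rel x' y) (B.erase y)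

theorem HasSkew.mono {k : ℕ} : ∀ {A A' : Finset α} {B B' : Finset β}, A ⊆ A' → B ⊆ B' →
    HasSkew rel k A B → HasSkew rel k A' B' := by
  induction k with
  | zero => intro A A' B B' _ _ _; trivial
  | succ k ih =>
    intro A A' B B' hA hB h
    obtain ⟨x, hx, y, hy, hr, hk⟩ := h
    exact ⟨x, hA hx, y, hB hy, hr, ih (Finset.filter_subset_filter _ hA)
      (Finset.erase_subset_erase _ hB) hk⟩

theorem HasSkew.exists_seq {k : ℕ} : ∀ {A : Finset α} {B : Finset β}, HasSkew rel k A B →
    ∃ (x : Fin k → α) (y : Fin k → β), (∀ i, x i ∈ A) ∧ (∀ i, y i ∈ B) ∧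
      (∀ i, rel (x i) (y i)) ∧ ∀ i j, i < j → ¬ rel (x j) (y i) := by
  induction k with
  | zero =>
    intro A B _
    exact ⟨Fin.elim0, Fin.elim0, fun i => i.elim0, fun i => i.elim0, fun i => i.elim0,
      fun i => i.elim0⟩
  | succ k ih =>
    intro A B h
    obtain ⟨x0, hx, y0, hy, hr, hk⟩ := h
    obtain ⟨x, y, h1, h2, h3, h4⟩ := ih hk
    refine ⟨Fin.cons x0 x, Fin.cons y0 y, ?_, ?_, ?_, ?_⟩
    · intro i
      refine Fin.cases ?_ (fun j => ?_) i
      · simpa using hx
      · simpa using (Finset.mem_filter.mp (h1 j)).1
    · intro i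
      refine Fin.cases ?_ (fun j => ?_) i
      · simpa using hy
      · simpa using Finset.mem_of_mem_erase (h2 j)
    · intro i
      refine Fin.cases ?_ (fun j => ?_) i
      · simpa using hr
      · simpa using h3 j
    · intro i j
      refine Fin.cases ?_ (fun i' => ?_) i
      · refine Fin.cases ?_ (fun j' => ?_) j
        · intro h; exact absurd h (lt_irrefl _)
        · intro _
          simpa using (Finset.mem_filter.mp (h1 j')).2
      · refine Fin.cases ?_ (fun j' => ?_) j
        · intro h; exact absurd h (by simp)
        · intro h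
          simpa using h4 i' j' (by simpa using h)

/-- The average of the weights over the related elements of `B`. -/
noncomputable def avg (l : α → β → ℝ) (B : Finset β) (x : α) : ℝ :=
  (∑ y ∈ B.filter (fun y => rel x y), l x y) / (B.filter (fun y => rel x y)).card

/-- One step of the random deletion. -/
theorem avg_step (l : α → β → ℝ) (B : Finset β) (x : α) :
    B.card * avg rel l B x = ∑ y ∈ B, if rel x y then l x y else avg rel l (B.erase y) x := by
  rw [Finset.sum_ite]
  have h1 : ∀ y ∈ B.filter (fun y => ¬ rel x y), avg rel l (B.erase y) x = avg rel l B x := by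
    intro y hy
    have hy2 := (Finset.mem_filter.mp hy).2
    have : (B.erase y).filter (fun y => rel x y) = B.filter (fun y => rel x y) := by
      ext z
      simp only [Finset.mem_filter, Finset.mem_erase]
      constructor
      · rintro ⟨⟨_, h⟩, h'⟩; exact ⟨h, h'⟩
      · rintro ⟨h, h'⟩
        exact ⟨⟨fun he => hy2 (he ▸ h'), h⟩, h'⟩
    unfold avg
    rw [this]
  rw [Finset.sum_congr rfl h1, Finset.sum_const, nsmul_eq_mul]
  have h2 : ((B.filter fun y => rel x y).card : ℝ) + (B.filter fun y => ¬ rel x y).card =
      B.card := by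
    exact_mod_cast Finset.card_filter_add_card_filter_not (s := B) (fun y => rel x y)
  have h3 : ∑ y ∈ B.filter (fun y => rel x y), l x y =
      (B.filter fun y => rel x y).card * avg rel l B x := by
    unfold avg
    rcases Nat.eq_zero_or_pos (B.filter fun y => rel x y).card with h | h
    · rw [Finset.card_eq_zero] at h
      rw [h]
      simp
    · have : ((B.filter fun y => rel x y).card : ℝ) ≠ 0 := by positivity
      field_simp
  rw [h3, ← h2]
  ring

/-- **The correlation bound.** -/
theorem skew_sum (l : α → β → ℝ) (hl : ∀ x y, 0 ≤ l x y) : ∀ (B : Finset β) (A : Finset α) (r : ℕ),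
    (∀ y ∈ B, ∑ x ∈ A.filter (fun x => rel x y), l x y ≤ 1) → ¬ HasSkew rel (r + 1) A B →
      ∑ x ∈ A, avg rel l B x ≤ r := by
  intro B
  induction B using Finset.strongInduction with
  | H B ih =>
    intro A r hle hno
    rcases Finset.eq_empty_or_nonempty B with rfl | hB
    · have : ∀ x ∈ A, avg rel l ∅ x = 0 := by
        intro x _
        simp [avg]
      rw [Finset.sum_congr rfl this]
      simp
    · have hb : (0 : ℝ) < B.card := by exact_mod_cast hB.card_pos
      have key : (B.card : ℝ) * ∑ x ∈ A, avg rel l B x ≤ B.card * r := by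
        rw [Finset.mul_sum, Finset.sum_congr rfl fun x _ => avg_step rel l B x, Finset.sum_comm,
          ← nsmul_eq_mul (B.card) (r : ℝ)]
        apply Finset.sum_le_card_nsmul
        intro y hy
        rw [Finset.sum_ite]
        have hsub : B.erase y ⊂ B := Finset.erase_ssubset hy
        have hle' : ∀ (A' : Finset α), A' ⊆ A → ∀ y' ∈ B.erase y,
            ∑ x ∈ A'.filter (fun x => rel x y'), l x y' ≤ 1 := by
          intro A' hA' y' hy'
          refine le_trans (Finset.sum_le_sum_of_subset_of_nonneg
            (Finset.filter_subset_filter _ hA') fun _ _ _ => hl _ _) (hle y'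
              (Finset.mem_of_mem_erase hy'))
        by_cases hex : ∃ x ∈ A, rel x y
        · obtain ⟨x, hx, hxy⟩ := hex
          have hno2 : ¬ HasSkew rel r (A.filter fun x' => ¬ rel x' y) (B.erase y) := by
            intro h
            exact hno ⟨x, hx, y, hy, hxy, h⟩
          cases r with
          | zero => exact absurd trivial hno2
          | succ r =>
            have h1 := ih _ hsub (A.filter fun x' => ¬ rel x' y) r
              (hle' _ (Finset.filter_subset _ _)) hno2
            have h2 := hle y hy
            push_cast
            linarith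
        · push Not at hex
          have e1 : A.filter (fun x => rel x y) = ∅ := by
            apply Finset.filter_eq_empty_iff.mpr
            intro x hx
            exact hex x hx
          have e2 : A.filter (fun x => ¬ rel x y) = A := by
            apply Finset.filter_eq_self.mpr
            intro x hx
            exact hex x hx
          rw [e1, e2, Finset.sum_empty, zero_add]
          apply ih _ hsub A r (hle' A (Finset.Subset.refl _))
          intro h
          exact hno (h.mono rel (Finset.Subset.refl _) (Finset.erase_subset _ _))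
      exact le_of_mul_le_mul_left key hb

/-- The correlation bound with the weights of the uniform distribution on the related pairs. -/
theorem skew_corr (A : Finset α) (B : Finset β) (r : ℕ) (hno : ¬ HasSkew rel (r + 1) A B) :
    ∑ x ∈ A, ∑ y ∈ B.filter (fun y => rel x y),
      (1 : ℝ) / (((B.filter fun y => rel x y).card : ℝ) * (A.filter fun x => rel x y).card) ≤
        r := by
  have h := skew_sum rel (fun _ y => (1 : ℝ) / (A.filter fun x => rel x y).card)
    (fun _ _ => by positivity) B A r ?_ hno
  · refine le_trans (le_of_eq ?_) h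
    refine Finset.sum_congr rfl fun x _ => ?_
    unfold avg
    rw [Finset.sum_div]
    refine Finset.sum_congr rfl fun y _ => ?_
    rw [div_div, mul_comm]
  · intro y _
    rw [Finset.sum_const, nsmul_eq_mul]
    rcases Nat.eq_zero_or_pos (A.filter fun x => rel x y).card with h | h
    · rw [h]; simp
    · have : ((A.filter fun x => rel x y).card : ℝ) ≠ 0 := by positivity
      rw [mul_one_div_cancel this]

end Skew

/-- **The correlation of two parties is at most the skew bound.** -/
theorem tch_corr [Finite L] {α β : Type} (W : List Q) (a b : ℕ) (A : Finset α) (B : Finset β)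
    (qa : α → List Q) (qb : β → List Q) (hA : ∀ x ∈ A, (qa x).length ≤ a)
    (hB : ∀ y ∈ B, (qb y).length ≤ b) :
    ∑ x ∈ A, ∑ y ∈ B.filter (fun y => ¬ Tch L W (qa x) (qb y)),
      (1 : ℝ) / (((B.filter fun y => ¬ Tch L W (qa x) (qb y)).card : ℝ) *
        (A.filter fun x => ¬ Tch L W (qa x) (qb y)).card) ≤ (((a + b).choose a : ℕ) : ℝ) := by
  have hno : ¬ HasSkew (fun x y => ¬ Tch L W (qa x) (qb y)) ((a + b).choose a + 1) A B := ?_
  · convert skew_corr (fun x y => ¬ Tch L W (qa x) (qb y)) A B ((a + b).choose a) hno
  intro h
  obtain ⟨x, y, h1, h2, h3, h4⟩ := HasSkew.exists_seq _ h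
  have := tch_skew L W b a _ (fun i => qb (y i)) (fun i => qa (x i)) (fun i => hB _ (h2 i))
    (fun i => hA _ (h1 i)) (fun i hi => h3 i (tch_symm L hi)) (fun i j hij =>
      tch_symm L (not_not.mp (h4 i j hij)))
  have e : (b + a).choose b = (a + b).choose a := by
    rw [Nat.add_comm b a]
    exact (Nat.choose_symm_add (a := a) (b := b)).symm
  omega

end Pool.Agent.LinOT
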