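import Pool.Agent.Lib.MP_ae38e0_lc.Model

set_option autoImplicit false

/-!
# The attack on zero-error protocols over a linear space of oracles
-/

namespace Pool.Agent.LinOT

open Classical

variable {K : Type} [Field K] {Q M X Y σ : Type}

/-- The oracles of `L` which vanish on the queries of `W`. -/
def killer (L : Submodule K (Q → K)) (W : List Q) : Submodule K (Q → K) where
  carrier := {D | D ∈ L ∧ ∀ q ∈ W, D q = 0}
  add_mem' := by
    rintro a b ⟨h1, h2⟩ ⟨h3, h4⟩
    exact ⟨L.add_mem h1 h3, fun q hq => by simp [h2 q hq, h4 q hq]⟩
  zero_mem' := ⟨L.zero_mem, fun q _ => rfl⟩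
  smul_mem' := by
    rintro c a ⟨h1, h2⟩
    exact ⟨L.smul_mem c h1, fun q hq => by simp [h2 q hq]⟩

/-- The rank of the queries `T` relative to the queries `W`. -/
noncomputable def rk (L : Submodule K (Q → K)) (T W : List Q) : ℕ :=
  Module.finrank K (Submodule.map (LinearMap.funLeft K K T.get) (killer L W))

theorem rk_le (L : Submodule K (Q → K)) (T W : List Q) : rk L T W ≤ T.length := by
  unfold rk
  refine (Submodule.finrank_le _).trans ?_
  simp

theorem killer_mono (L : Submodule K (Q → K)) (W S : List Q) : killer L (W ++ S) ≤ killer L W := by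
  rintro D ⟨h1, h2⟩
  exact ⟨h1, fun q hq => h2 q (by simp [hq])⟩

theorem rk_mono (L : Submodule K (Q → K)) (T W S : List Q) : rk L T (W ++ S) ≤ rk L T W :=
  Submodule.finrank_mono (Submodule.map_mono (killer_mono L W S))

/-- If the oracles `O, O'` agree on `W` and cannot be merged on `T` and `S`, then asking `S` lowers
the rank of `T`. -/
theorem rk_lt (L : Submodule K (Q → K)) (T W S : List Q) (O O' : Q → K) (hO : O ∈ L) (hO' : O' ∈ L)
    (hW : ∀ q ∈ W, O' q = O q)
    (hno : ¬ ∃ O'' ∈ L, (∀ q ∈ W, O'' q = O q) ∧ (∀ q ∈ T, O'' q = O q) ∧ (∀ q ∈ S, O'' q = O' q)) :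
    rk L T (W ++ S) < rk L T W := by
  unfold rk
  apply Submodule.finrank_lt_finrank_of_lt
  refine lt_of_le_of_ne (Submodule.map_mono (killer_mono L W S)) ?_
  intro heq
  apply hno
  have hD : (O' - O) ∈ killer L W := by
    refine ⟨L.sub_mem hO' hO, fun q hq => ?_⟩
    simp [hW q hq]
  have h1 : LinearMap.funLeft K K T.get (O' - O) ∈
      Submodule.map (LinearMap.funLeft K K T.get) (killer L (W ++ S)) := by
    rw [heq]; exact Submodule.mem_map_of_mem hD
  obtain ⟨D', ⟨hD'L, hD'W⟩, hD'T⟩ := h1
  refine ⟨O' - D', L.sub_mem hO' hD'L, ?_, ?_, ?_⟩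
  · intro q hq
    simp [hD'W q (by simp [hq]), hW q hq]
  · intro q hq
    obtain ⟨i, hi⟩ := List.mem_iff_get.mp hq
    have := congrFun hD'T i
    simp only [LinearMap.funLeft_apply, Pi.sub_apply, hi] at this
    simp [this]
  · intro q hq
    simp [hD'W q (by simp [hq])]

variable (L : Submodule K (Q → K)) (A : Party Q K M X) (outA : A.St → Option σ) (m0 : M)

/-- `c = (oracle, tape, output)` is a fake first party with input `x` which is consistent with the
transcript `t` and with the known answers. -/
def Cand (x : X) (t : List (M × M)) (known : List (Q × K)) (c : (Q → K) × A.Tape × σ) : Prop :=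
  c.1 ∈ L ∧ (∀ p ∈ known, c.1 p.1 = p.2) ∧ A.agrees c.1 (A.init x c.2.1) (inbox m0 t) ∧
    outA (A.after c.1 (A.init x c.2.1) (inbox m0 t)) = some c.2.2

/-- The main loop of the attack: find a consistent fake party, note its output and ask all its
queries. -/
noncomputable def loop (x : X) (t : List (M × M)) : ℕ → List (Q × K) → Comp Q K (List σ)
  | 0, _ => .ret []
  | j + 1, known =>
    if h : ∃ c, Cand L A outA m0 x t known c then
      (Comp.askAll (A.asked h.choose.1 (A.init x h.choose.2.1) (inbox m0 t))).bind fun ans =>
        (loop x t j (known ++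
          (A.asked h.choose.1 (A.init x h.choose.2.1) (inbox m0 t)).zip ans)).bind fun gs =>
            .ret (h.choose.2.2 :: gs)
    else .ret []

/-- Strict majority. -/
noncomputable def maj (l : List σ) : Option σ :=
  if h : ∃ v, l.length < 2 * (l.filter (fun g => g = v)).length then some h.choose else none

theorem filter_add (l : List σ) (v : σ) :
    (l.filter (fun g => g = v)).length + (l.filter (fun g => g ≠ v)).length = l.length := by
  induction l with
  | nil => rfl
  | cons a l ih =>
    by_cases h : a = v
    · simp only [List.filter_cons, h, decide_true, if_true, ne_eq, not_true_eq_false, decide_false,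
        List.length_cons]
      simp only [ne_eq] at ih
      simp only [Bool.false_eq_true, if_false]
      omega
    · simp only [List.filter_cons, h, decide_false, ne_eq, not_false_eq_true, decide_true, if_true,
        List.length_cons]
      simp only [ne_eq] at ih
      simp only [Bool.false_eq_true, if_false]
      omega

theorem maj_eq (l : List σ) (v : σ) (h : 2 * (l.filter (fun g => g ≠ v)).length < l.length) :
    maj l = some v := by
  have hadd := filter_add l v
  have hex : ∃ v, l.length < 2 * (l.filter (fun g => g = v)).length := ⟨v, by omega⟩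
  unfold maj
  rw [dif_pos hex]
  congr 1
  by_contra hne
  have h1 := hex.choose_spec
  have h2 : (l.filter (fun g => g = hex.choose)).length ≤ (l.filter (fun g => g ≠ v)).length := by
    apply List.Sublist.length_le
    apply List.monotone_filter_right
    intro a ha
    simp only [decide_eq_true_eq] at ha ⊢
    rw [ha]; exact hne
  omega

omit [Field K] in
theorem zip_map_graph (O : Q → K) (qs : List Q) : qs.zip (qs.map O) = qs.map (fun w => (w, O w)) := by
  induction qs with
  | nil => rfl
  | cons q l ih => simp [ih]

/-- The number of queries of the loop. -/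
theorem loop_asked (x : X) (t : List (M × M)) (nA : ℕ)
    (hA : ∀ O ∈ L, ∀ τ, (A.asked O (A.init x τ) (inbox m0 t)).length ≤ nA) (O : Q → K) (j : ℕ) :
    ∀ known, ((loop L A outA m0 x t j known).asked O).length ≤ j * nA := by
  induction j with
  | zero => intro known; simp [loop]
  | succ j ih =>
    intro known
    unfold loop
    split_ifs with h
    · have h1 := hA h.choose.1 h.choose_spec.1 h.choose.2.1
      have h2 := ih (known ++ (A.asked h.choose.1 (A.init x h.choose.2.1) (inbox m0 t)).zip
        ((A.asked h.choose.1 (A.init x h.choose.2.1) (inbox m0 t)).map O))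
      simp only [Comp.asked_bind, Comp.asked_askAll, Comp.run_askAll, Comp.asked_ret,
        List.append_nil, List.length_append]
      rw [Nat.succ_mul]
      omega
    · simp

/-- Correctness of the loop: the number of wrong guesses is at most the rank of the queries of the
second party. -/
theorem loop_run (B : Party Q K M Y) (x : X) (t : List (M × M)) (O : Q → K) (hO : O ∈ L)
    (sB : B.St) (hB : B.agrees O sB t) (v : σ)
    (hreal : ∃ τ, ∃ g, A.agrees O (A.init x τ) (inbox m0 t) ∧
      outA (A.after O (A.init x τ) (inbox m0 t)) = some g)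
    (hcomp : ∀ O'' ∈ L, ∀ τ g, A.agrees O'' (A.init x τ) (inbox m0 t) → B.agrees O'' sB t →
      B.after O'' sB t = B.after O sB t →
      outA (A.after O'' (A.init x τ) (inbox m0 t)) = some g → g = v) (j : ℕ) :
    ∀ ws : List Q,
      ((loop L A outA m0 x t j (ws.map fun w => (w, O w))).run O).length = j ∧
      (((loop L A outA m0 x t j (ws.map fun w => (w, O w))).run O).filter (fun g => g ≠ v)).length ≤
        rk L (B.asked O sB t) ws := by
  induction j with
  | zero => intro ws; simp [loop]
  | succ j ih =>
    intro ws
    have hex : ∃ c, Cand L A outA m0 x t (ws.map fun w => (w, O w)) c := by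
      obtain ⟨τ, g, h1, h2⟩ := hreal
      refine ⟨(O, τ, g), hO, ?_, h1, h2⟩
      intro p hp
      obtain ⟨w, _, rfl⟩ := List.mem_map.mp hp
      rfl
    unfold loop
    rw [dif_pos hex]
    set c := hex.choose with hc
    have hcand : Cand L A outA m0 x t (ws.map fun w => (w, O w)) c := hex.choose_spec
    set qs := A.asked c.1 (A.init x c.2.1) (inbox m0 t) with hqs
    have hknown : (ws.map fun w => (w, O w)) ++ qs.zip (qs.map O) =
        (ws ++ qs).map fun w => (w, O w) := by
      rw [zip_map_graph, List.map_append]
    simp only [Comp.run_bind, Comp.run_askAll, Comp.run_ret, hknown]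
    obtain ⟨ih1, ih2⟩ := ih (ws ++ qs)
    refine ⟨by rw [List.length_cons, ih1], ?_⟩
    by_cases hg : c.2.2 = v
    · simp only [List.filter_cons, hg, ne_eq, not_true_eq_false, decide_false, Bool.false_eq_true,
        if_false]
      exact ih2.trans (rk_mono L _ ws qs)
    · simp only [List.filter_cons, hg, ne_eq, not_false_eq_true, decide_true, if_true,
        List.length_cons]
      have hlt : rk L (B.asked O sB t) (ws ++ qs) < rk L (B.asked O sB t) ws := by
        refine rk_lt L _ ws qs O c.1 hO hcand.1 ?_ ?_
        · intro q hq
          exact hcand.2.1 (q, O q) (List.mem_map.mpr ⟨q, hq, rfl⟩)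
        · rintro ⟨O'', hO'', -, hT, hS⟩
          apply hg
          have hAc := A.congr (O := c.1) (O' := O'') (inbox m0 t) (A.init x c.2.1)
            (fun q hq => (hS q hq).symm)
          have hBc := B.congr (O := O) (O' := O'') t sB (fun q hq => (hT q hq).symm)
          refine hcomp O'' hO'' c.2.1 c.2.2 (hAc.2.1.mp hcand.2.2.1) (hBc.2.1.mp hB) hBc.1.symm ?_
          rw [← hAc.1]; exact hcand.2.2.2
      have := ih2
      simp only [ne_eq] at this
      omega

/-- **The attack.**  Let `L` be a linear space of oracles and let a two-party protocol be such that,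
with every oracle of `L`, the output of the first party is either `none` or the value `val`
determined by the second party.  Then some computation with few queries finds `val` from the
transcript and the input of the first party, whenever the first party has an output. -/
theorem attack (B : Party Q K M Y) (n : ℕ) (val : X → Y → B.St → Option σ) (nA nB : ℕ)
    (hA : ∀ O ∈ L, ∀ x τ l, l.length = n → (A.asked O (A.init x τ) l).length ≤ nA)
    (hB : ∀ O ∈ L, ∀ y τ l, l.length = n → (B.asked O (B.init y τ) l).length ≤ nB)
    (hzero : ∀ O ∈ L, ∀ x y τA τB g v,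
      outA (exec A B O n (A.init x τA) (B.init y τB) m0).2.1 = some g →
      val x y (exec A B O n (A.init x τA) (B.init y τB) m0).2.2 = some v → g = v) :
    ∃ E : X → List (M × M) → Comp Q K (Option σ),
      (∀ x t O, t.length = n → ((E x t).asked O).length ≤ (2 * nB + 1) * nA) ∧
      ∀ O ∈ L, ∀ x y τA τB g v,
        outA (exec A B O n (A.init x τA) (B.init y τB) m0).2.1 = some g →
        val x y (exec A B O n (A.init x τA) (B.init y τB) m0).2.2 = some v →
        (E x (exec A B O n (A.init x τA) (B.init y τB) m0).1).run O = some v := by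
  refine ⟨fun x t => (loop L A outA m0 x t (2 * nB + 1) []).bind fun gs => .ret (maj gs), ?_, ?_⟩
  · intro x t O ht
    simp only [Comp.asked_bind, Comp.asked_ret, List.append_nil]
    exact loop_asked L A outA m0 x t nA (fun O' hO' τ => hA O' hO' x τ _ (by
      rw [inbox_length]; exact ht)) O _ []
  · intro O hO x y τA τB g v hg hv
    obtain ⟨h1, h2, h3, h4, h5⟩ := exec_spec A B O n (A.init x τA) (B.init y τB) m0
    set t := (exec A B O n (A.init x τA) (B.init y τB) m0).1 with ht
    simp only [Comp.run_bind, Comp.run_ret]
    have hrun := loop_run L A outA m0 B x t O hO (B.init y τB) h3 v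
      ⟨τA, g, h2, by rw [← h4]; exact hg⟩ ?_ (2 * nB + 1) []
    · simp only [List.map_nil] at hrun
      apply maj_eq
      have hle := rk_le L (B.asked O (B.init y τB) t) []
      have hle2 := hB O hO y τB t h1
      rw [hrun.1]
      have := hrun.2
      omega
    · intro O'' hO'' τ g' hA'' hB'' hst hout
      have hex := exec_of_agrees A B O'' n (A.init x τ) (B.init y τB) m0 t h1 hA'' hB''
      refine hzero O'' hO'' x y τ τB g' v ?_ ?_
      · rw [hex]; exact hout
      · rw [hex]; simp only; rw [hst, ← h5]; exact hv

end Pool.Agent.LinOT
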