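import Pool.Agent.Lib.MP_ae38e0_lc.Close

set_option autoImplicit false

/-!
# The attack on protocols with bounded error and a bounded number of rounds
-/

namespace Pool.Agent.LinOT

open Classical

variable {K : Type} [Field K] {Q M X Y RA RB σ : Type}

/-- The side after the incoming message `m` and the reply `a`. -/
def Side.next (A : Party Q K M X) (S : Side Q K A.St RA) (m a : M) : Side Q K A.St RA where
  s r O := ((A.step (S.s r O) m).run O).1
  q r O := S.q r O ++ (A.step (S.s r O) m).asked O
  P r O := S.P r O ∧ ((A.step (S.s r O) m).run O).2 = a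

omit [Field K] in
theorem next_loc (A : Party Q K M X) (S : Side Q K A.St RA) (hS : S.Loc) (m a : M) :
    (S.next A m a).Loc := by
  intro r O O' h
  have h1 := hS r O O' (fun x hx => h x (List.mem_append_left _ hx))
  have h2 := (A.step (S.s r O) m).run_congr (O := O) (O' := O')
    (fun x hx => h x (List.mem_append_right _ hx))
  refine ⟨?_, ?_, ?_⟩
  · simp only [Side.next]; rw [← h1.1, ← h2.1]
  · simp only [Side.next]; rw [← h1.1, ← h1.2.1, ← h2.2]
  · simp only [Side.next]; rw [← h1.1, ← h2.1, h1.2.2]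

variable (L : Submodule K (Q → K)) [Fintype L]

section split

variable {α : Type} [Fintype α] (o : α → L) (PA : α → Prop) (g : α → M)

omit [Fintype L] in
theorem sum_split (kn : List (Q × K)) (T : Finset M) (hT : ∀ x, g x ∈ T) (f : α → ℝ) :
    ∑ a ∈ T, ∑ x ∈ cs L o (fun x => PA x ∧ g x = a) kn, f x = ∑ x ∈ cs L o PA kn, f x := by
  rw [← Finset.sum_fiberwise_of_maps_to (s := cs L o PA kn) (t := T) (g := g)
    (fun x _ => hT x)]
  refine Finset.sum_congr rfl fun a _ => ?_
  refine Finset.sum_congr ?_ fun _ _ => rfl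
  ext x
  simp only [cs, Finset.mem_filter, Finset.mem_univ, true_and]
  tauto

theorem card_split (kn : List (Q × K)) (T : Finset M) (hT : ∀ x, g x ∈ T) :
    ∑ a ∈ T, ((cs L o (fun x => PA x ∧ g x = a) kn).card : ℝ) = (cs L o PA kn).card := by
  have := sum_split L o PA g kn T hT (fun _ => 1)
  simpa using this

end split

variable [Fintype RA] [Fintype RB]

/-- The most likely output of a side. -/
noncomputable def guess [Nonempty σ] {St : Type} (S : Side Q K St RB) (outB : RB → St → σ)
    (kn : List (Q × K)) : σ :=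
  Function.argmin (fun v => (supp L S kn).card -
    ((supp L S kn).filter fun p => outB p.1 (S.s p.1 p.2) = v).card)

theorem guess_max [Nonempty σ] {St : Type} (S : Side Q K St RB) (outB : RB → St → σ)
    (kn : List (Q × K)) (v : σ) :
    ((supp L S kn).filter fun p => outB p.1 (S.s p.1 p.2) = v).card ≤
      ((supp L S kn).filter fun p => outB p.1 (S.s p.1 p.2) = guess L S outB kn).card := by
  have h := Function.argmin_le (fun v => (supp L S kn).card -
    ((supp L S kn).filter fun p => outB p.1 (S.s p.1 p.2) = v).card) v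
  have h1 := Finset.card_filter_le (supp L S kn) (fun p => outB p.1 (S.s p.1 p.2) = v)
  have h2 := Finset.card_filter_le (supp L S kn)
    (fun p => outB p.1 (S.s p.1 p.2) = guess L S outB kn)
  unfold guess at h2 ⊢
  omega

/-- The real executions which are consistent with a public state. -/
def real {StA StB : Type} (SA : Side Q K StA RA) (SB : Side Q K StB RB) :
    RA × RB × L → Prop := fun w => SA.P w.1 w.2.2 ∧ SB.P w.2.1 w.2.2

omit [Fintype L] [Fintype RA] [Fintype RB] in
/-- Membership in a set of consistent elements. -/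
theorem mem_cs {α : Type} [Fintype α] {o : α → L} {PA : α → Prop} {kn : List (Q × K)} {x : α} :
    x ∈ cs L o PA kn ↔ PA x ∧ Cons kn (o x : Q → K) := by
  simp [cs]

/-- The oracle of an execution. -/
def orc {L : Submodule K (Q → K)} : RA × RB × L → L := fun w => w.2.2

/-- **The final state.** -/
theorem leaf [Nonempty σ] {StA StB : Type} (SA : Side Q K StA RA) (SB : Side Q K StB RB)
    (hA : SA.Loc) (hB : SB.Loc) (outA : RA → StA → Option σ) (outB : RB → StB → σ) (n h : ℕ)
    (hh : 0 < h) (hn : ∀ (r : RA) (O : L), (SA.q r O).length ≤ n) (kn : List (Q × K))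
    (hc : Closed L SB h n kn) :
    (1 - 2 / (h : ℝ)) * ((supp L SA kn).card * (supp L SB kn).card /
        (kc L (kn.map Prod.fst) : ℝ)) - (cs L orc (real L SA SB) kn).card ≤
      ∑ w ∈ cs L orc (real L SA SB) kn,
        ((if guess L SB outB kn = outB w.2.1 (SB.s w.2.1 w.2.2) then (1 : ℝ) else 0) -
          (if outA w.1 (SA.s w.1 w.2.2) = some (outB w.2.1 (SB.s w.2.1 w.2.2)) then (1 : ℝ)
            else 0)) := by
  set W := kn.map Prod.fst with hW
  set g := guess L SB outB kn with hg
  have p1 := pair_card L SA SB hA hB kn (fun _ r' _ s' => outB r' s' = g)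
  have p2 := pair_card L SA SB hA hB kn (fun r r' s s' => outA r s ≠ some (outB r' s'))
  have hk : (0 : ℝ) < kc L W := by exact_mod_cast kc_pos L _
  have hh' : (0 : ℝ) < h := by exact_mod_cast hh
  -- the pairs
  set U1 := ((supp L SA kn ×ˢ supp L SB kn).filter fun z =>
        ¬ Tch L (kn.map Prod.fst) (SA.q z.1.1 z.1.2) (SB.q z.2.1 z.2.2) ∧
          outB z.2.1 (SB.s z.2.1 z.2.2) = g).card with hU1
  set U2 := ((supp L SA kn ×ˢ supp L SB kn).filter fun z =>
        ¬ Tch L (kn.map Prod.fst) (SA.q z.1.1 z.1.2) (SB.q z.2.1 z.2.2) ∧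
          outA z.1.1 (SA.s z.1.1 z.1.2) ≠ some (outB z.2.1 (SB.s z.2.1 z.2.2))).card with hU2
  have c1 : U1 = ∑ p ∈ supp L SA kn, ((supp L SB kn).filter fun p' =>
      ¬ Tch L W (SA.q p.1 p.2) (SB.q p'.1 p'.2) ∧ outB p'.1 (SB.s p'.1 p'.2) = g).card := by
    rw [hU1, Finset.card_filter, Finset.sum_product]
    refine Finset.sum_congr rfl fun p _ => ?_
    rw [Finset.card_filter]
  have c2 : U2 = ∑ p ∈ supp L SA kn, ((supp L SB kn).filter fun p' =>
      ¬ Tch L W (SA.q p.1 p.2) (SB.q p'.1 p'.2) ∧
        outA p.1 (SA.s p.1 p.2) ≠ some (outB p'.1 (SB.s p'.1 p'.2))).card := by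
    rw [hU2, Finset.card_filter, Finset.sum_product]
    refine Finset.sum_congr rfl fun p _ => ?_
    rw [Finset.card_filter]
  have c3 : ((supp L SA kn).card : ℝ) * ((supp L SB kn).card * (1 - 2 / (h : ℝ))) ≤ U1 + U2 := by
    rw [c1, c2]
    push_cast
    rw [← Finset.sum_add_distrib, ← nsmul_eq_mul]
    apply Finset.card_nsmul_le_sum
    intro p _
    -- one consistent first party
    have t0 := hc (SA.q p.1 p.2) (hn p.1 p.2)
    set b := (supp L SB kn).card with hb
    set t := (tset L SB kn (SA.q p.1 p.2)).card with ht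
    set a1 := ((supp L SB kn).filter fun p' =>
      ¬ Tch L W (SA.q p.1 p.2) (SB.q p'.1 p'.2) ∧ outB p'.1 (SB.s p'.1 p'.2) = g).card with ha1
    set a2 := ((supp L SB kn).filter fun p' =>
      ¬ Tch L W (SA.q p.1 p.2) (SB.q p'.1 p'.2) ∧
        outA p.1 (SA.s p.1 p.2) ≠ some (outB p'.1 (SB.s p'.1 p'.2))).card with ha2
    set cg := ((supp L SB kn).filter fun p' => outB p'.1 (SB.s p'.1 p'.2) = g).card with hcg
    set cv := ((supp L SB kn).filter fun p' =>
      outA p.1 (SA.s p.1 p.2) = some (outB p'.1 (SB.s p'.1 p'.2))).card with hcv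
    have e1 : cg ≤ a1 + t := by
      rw [hcg, ha1, ht, tset]
      refine le_trans (Finset.card_le_card ?_) (Finset.card_union_le _ _)
      intro x hx
      rw [Finset.mem_filter] at hx
      rw [Finset.mem_union, Finset.mem_filter, Finset.mem_filter]
      by_cases hT : Tch L W (SA.q p.1 p.2) (SB.q x.1 x.2)
      · exact Or.inr ⟨hx.1, hT⟩
      · exact Or.inl ⟨hx.1, hT, hx.2⟩
    have e2 : b ≤ a2 + t + cv := by
      rw [hb, ha2, ht, hcv, tset]
      refine le_trans (Finset.card_le_card ?_) ((Finset.card_union_le _ _).trans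
        (Nat.add_le_add_right (Finset.card_union_le _ _) _))
      intro x hx
      simp only [Finset.mem_union, Finset.mem_filter]
      by_cases hT : Tch L W (SA.q p.1 p.2) (SB.q x.1 x.2)
      · exact Or.inl (Or.inr ⟨hx, hT⟩)
      · by_cases hv : outA p.1 (SA.s p.1 p.2) = some (outB x.1 (SB.s x.1 x.2))
        · exact Or.inr ⟨hx, hv⟩
        · exact Or.inl (Or.inl ⟨hx, hT, hv⟩)
    have e3 : cv ≤ cg := by
      rcases hv : outA p.1 (SA.s p.1 p.2) with _ | v
      · rw [hcv, hv]; simp
      · rw [hcv, hv, hcg, hg]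
        refine le_trans ?_ (guess_max L SB outB kn v)
        apply Finset.card_le_card
        intro x hx
        rw [Finset.mem_filter] at hx ⊢
        exact ⟨hx.1, (Option.some.inj hx.2).symm⟩
    have e4 : b ≤ a1 + a2 + 2 * t := by omega
    have e4' : (b : ℝ) ≤ a1 + a2 + 2 * t := by exact_mod_cast e4
    have t0' : (h : ℝ) * t ≤ b := by exact_mod_cast t0
    have t1 : (t : ℝ) ≤ b / h := by rw [le_div_iff₀ hh']; linarith
    have e5 : (b : ℝ) * (1 - 2 / (h : ℝ)) = b - 2 * (b / h) := by ring
    rw [e5]; linarith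
  -- the real executions
  set V1 := (Finset.univ.filter fun w : RA × RB × L => (SA.P w.1 w.2.2 ∧ SB.P w.2.1 w.2.2 ∧
          Cons kn (w.2.2 : Q → K)) ∧ outB w.2.1 (SB.s w.2.1 w.2.2) = g).card with hV1
  set V2 := (Finset.univ.filter fun w : RA × RB × L => (SA.P w.1 w.2.2 ∧ SB.P w.2.1 w.2.2 ∧
          Cons kn (w.2.2 : Q → K)) ∧
            outA w.1 (SA.s w.1 w.2.2) ≠ some (outB w.2.1 (SB.s w.2.1 w.2.2))).card with hV2
  have s1 : ∑ w ∈ cs L orc (real L SA SB) kn,
      (if g = outB w.2.1 (SB.s w.2.1 w.2.2) then (1 : ℝ) else 0) = V1 := by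
    rw [Finset.sum_ite, Finset.sum_const_zero, add_zero, Finset.sum_const, nsmul_eq_mul, mul_one,
      hV1]
    congr 2
    ext w
    simp only [Finset.mem_filter, mem_cs, real, orc, Finset.mem_univ, true_and]
    constructor
    · rintro ⟨⟨⟨h1, h2⟩, h3⟩, h4⟩; exact ⟨⟨h1, h2, h3⟩, h4.symm⟩
    · rintro ⟨⟨h1, h2, h3⟩, h4⟩; exact ⟨⟨⟨h1, h2⟩, h3⟩, h4.symm⟩
  have s2 : ∑ w ∈ cs L orc (real L SA SB) kn,
      (if outA w.1 (SA.s w.1 w.2.2) = some (outB w.2.1 (SB.s w.2.1 w.2.2)) then (1 : ℝ) else 0) +
        V2 = (cs L orc (real L SA SB) kn).card := by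
    rw [Finset.sum_ite, Finset.sum_const_zero, add_zero, Finset.sum_const, nsmul_eq_mul, mul_one,
      hV2]
    have := Finset.card_filter_add_card_filter_not (s := cs L orc (real L SA SB) kn)
      (fun w => outA w.1 (SA.s w.1 w.2.2) = some (outB w.2.1 (SB.s w.2.1 w.2.2)))
    rw [← this]
    push_cast
    congr 3
    ext w
    simp only [Finset.mem_filter, mem_cs, real, orc, Finset.mem_univ, true_and]
    tauto
  rw [Finset.sum_sub_distrib, s1]
  have q1 : (U1 : ℝ) ≤ V1 * kc L W := by exact_mod_cast p1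
  have q2 : (U2 : ℝ) ≤ V2 * kc L W := by exact_mod_cast p2
  have q3 : (1 - 2 / (h : ℝ)) * ((supp L SA kn).card * (supp L SB kn).card / (kc L W : ℝ)) ≤
      V1 + V2 := by
    have e : (1 - 2 / (h : ℝ)) * ((supp L SA kn).card * (supp L SB kn).card / (kc L W : ℝ)) =
      (((supp L SA kn).card : ℝ) * ((supp L SB kn).card * (1 - 2 / (h : ℝ)))) / kc L W := by
      ring
    rw [e, div_le_iff₀ hk]
    linarith
  linarith

/-- The eavesdropper.  `c` is the number of iterations of each closing loop. -/
noncomputable def eve [Nonempty σ] (A : Party Q K M X) (B : Party Q K M Y)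
    (outB : RB → B.St → σ) (n h : ℕ) :
    List (M × M) → Side Q K A.St RA → Side Q K B.St RB → List (Q × K) → M → Comp Q K σ
  | [], _, SB, kn, _ => .ret (guess L SB outB kn)
  | (a, b) :: l, SA, SB, kn, m =>
    (close L (SA.next A m a) h (n * (n * h ^ 2) ^ (2 * l.length + 1)) (n * h ^ 2) kn).bind
      fun kn1 => (close L (SB.next B a b) h (n * (n * h ^ 2) ^ (2 * l.length))
        (n * h ^ 2) kn1).bind fun kn2 =>
          eve A B outB n h l (SA.next A m a) (SB.next B a b) kn2 b

theorem eve_asked [Nonempty σ] (A : Party Q K M X) (B : Party Q K M Y)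
    (outB : RB → B.St → σ) (n h : ℕ) (hn : 0 < n) (hh : 0 < h) (O : Q → K) :
    ∀ (l : List (M × M)) (SA : Side Q K A.St RA) (SB : Side Q K B.St RB) (kn : List (Q × K))
      (m : M), ((eve L A B outB n h l SA SB kn m).asked O).length ≤
        2 * l.length * (n * (n * h ^ 2) ^ (2 * l.length)) := by
  intro l
  induction l with
  | nil => intro SA SB kn m; simp [eve]
  | cons p l ih =>
    intro SA SB kn m
    obtain ⟨a, b⟩ := p
    have hc : 1 ≤ n * h ^ 2 := Nat.mul_pos hn (pow_pos hh 2)
    simp only [eve, Comp.asked_bind, List.length_append]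
    set c := n * h ^ 2 with hcdef
    have h1 := close_asked L (SA.next A m a) h (n * c ^ (2 * l.length + 1)) O c kn
    set kn1 := (close L (SA.next A m a) h (n * c ^ (2 * l.length + 1)) c kn).run O with hkn1
    have h2 := close_asked L (SB.next B a b) h (n * c ^ (2 * l.length)) O c kn1
    set kn2 := (close L (SB.next B a b) h (n * c ^ (2 * l.length)) c kn1).run O with hkn2
    have h3 := ih (SA.next A m a) (SB.next B a b) kn2 b
    have e1 : c * (n * c ^ (2 * l.length + 1)) = n * c ^ (2 * (l.length + 1)) := by ring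
    have e2 : c * (n * c ^ (2 * l.length)) ≤ n * c ^ (2 * (l.length + 1)) := by
      have : c * (n * c ^ (2 * l.length)) = n * c ^ (2 * l.length + 1) := by ring
      rw [this]
      exact Nat.mul_le_mul_left _ (Nat.pow_le_pow_right hc (by omega))
    have e3 : 2 * l.length * (n * c ^ (2 * l.length)) ≤
        2 * l.length * (n * c ^ (2 * (l.length + 1))) := by
      apply Nat.mul_le_mul_left
      exact Nat.mul_le_mul_left _ (Nat.pow_le_pow_right hc (by omega))
    have e4 : 2 * (l.length + 1) * (n * c ^ (2 * (l.length + 1))) =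
        n * c ^ (2 * (l.length + 1)) + (n * c ^ (2 * (l.length + 1)) +
          2 * l.length * (n * c ^ (2 * (l.length + 1)))) := by ring
    simp only [List.length_cons]
    rw [e4]
    rw [e1] at h1
    omega

/-- The payoff of an execution: did the eavesdropper guess the output of the second party, minus
did the two parties agree. -/
noncomputable def pay [Nonempty σ] (A : Party Q K M X) (B : Party Q K M Y)
    (outA : RA → A.St → Option σ) (outB : RB → B.St → σ) (n h r : ℕ)
    (SA : Side Q K A.St RA) (SB : Side Q K B.St RB) (m : M) (kn : List (Q × K))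
    (w : RA × RB × L) : ℝ :=
  (if (eve L A B outB n h (exec A B w.2.2 r (SA.s w.1 w.2.2) (SB.s w.2.1 w.2.2) m).1
      SA SB kn m).run (w.2.2 : Q → K) =
      outB w.2.1 (exec A B w.2.2 r (SA.s w.1 w.2.2) (SB.s w.2.1 w.2.2) m).2.2 then (1 : ℝ) else 0) -
  (if outA w.1 (exec A B w.2.2 r (SA.s w.1 w.2.2) (SB.s w.2.1 w.2.2) m).2.1 =
      some (outB w.2.1 (exec A B w.2.2 r (SA.s w.1 w.2.2) (SB.s w.2.1 w.2.2) m).2.2)
    then (1 : ℝ) else 0)

theorem neg_one_le_ite (p q : Prop) [Decidable p] [Decidable q] :
    (-1 : ℝ) ≤ (if p then (1 : ℝ) else 0) - (if q then (1 : ℝ) else 0) := by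
  split_ifs <;> norm_num

/-- **The attack, for sides.** -/
theorem attack_sides [Nonempty σ] (A : Party Q K M X) (B : Party Q K M Y)
    (outA : RA → A.St → Option σ) (outB : RB → B.St → σ) (n h : ℕ) (hn : 0 < n) (hh : 2 ≤ h) :
    ∀ (r : ℕ) (SA : Side Q K A.St RA) (SB : Side Q K B.St RB) (kn : List (Q × K)) (m : M),
      SA.Loc → SB.Loc →
      (∀ (ra : RA) (O : L) (l : List (M × M)), l.length ≤ r →
        (SA.q ra O ++ A.asked O (SA.s ra O) l).length ≤ n) →
      (∀ (rb : RB) (O : L) (l : List (M × M)), l.length ≤ r →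
        (SB.q rb O ++ B.asked O (SB.s rb O) l).length ≤ n) →
      Closed L SB h (n * (n * h ^ 2) ^ (2 * r)) kn →
      (1 - 2 / (h : ℝ)) * (1 - 1 / (h : ℝ)) ^ (4 * r) *
        ((supp L SA kn).card * (supp L SB kn).card / (kc L (kn.map Prod.fst) : ℝ)) -
        (cs L orc (real L SA SB) kn).card ≤
      ∑ w ∈ cs L orc (real L SA SB) kn, pay L A B outA outB n h r SA SB m kn w := by
  have hh' : (0 : ℝ) < h := by exact_mod_cast (by omega : 0 < h)
  have hh2 : (2 : ℝ) ≤ h := by exact_mod_cast hh
  have hfac : (0 : ℝ) ≤ 1 - 1 / (h : ℝ) := by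
    rw [sub_nonneg, div_le_one hh']; linarith
  have hfac2 : (0 : ℝ) ≤ 1 - 2 / (h : ℝ) := by
    rw [sub_nonneg, div_le_one hh']; exact hh2
  intro r
  induction r with
  | zero =>
    intro SA SB kn m hA hB hqA hqB hc
    have h1 := leaf L SA SB hA hB outA outB n h (by omega) (fun ra O => by
      have := hqA ra O [] (le_refl _)
      simpa [Party.asked] using this) kn (by simpa using hc)
    simp only [pay, exec, eve, mul_zero, pow_zero, mul_one, Comp.run_ret]
    exact h1
  | succ r ih =>
    intro SA SB kn m hA hB hqA hqB hc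
    set c := n * h ^ 2 with hcdef
    -- split over the reply of `A`
    set gA : RA × L → M := fun p => ((A.step (SA.s p.1 p.2) m).run (p.2 : Q → K)).2 with hgA
    set TA : Finset M := Finset.univ.image gA with hTA
    have memTA : ∀ p, gA p ∈ TA := fun p => Finset.mem_image_of_mem _ (Finset.mem_univ p)
    have hreal : ∀ a, cs L orc (fun w : RA × RB × L => real L SA SB w ∧ gA (w.1, w.2.2) = a) kn =
        cs L orc (real L (SA.next A m a) SB) kn := by
      intro a
      ext w
      rw [mem_cs, mem_cs]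
      simp only [real, Side.next, hgA]
      tauto
    have hsum := sum_split L orc (real L SA SB) (fun w : RA × RB × L => gA (w.1, w.2.2)) kn TA
      (fun w => memTA _) (pay L A B outA outB n h (r + 1) SA SB m kn)
    have hcard := card_split L orc (real L SA SB) (fun w : RA × RB × L => gA (w.1, w.2.2)) kn TA
      (fun w => memTA _)
    have hcA := card_split L (fun p : RA × L => p.2) (fun p => SA.P p.1 p.2) gA kn TA memTA
    have hcA' : ∑ a ∈ TA, ((supp L (SA.next A m a) kn).card : ℝ) = (supp L SA kn).card := hcA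
    simp only [hreal] at hsum hcard
    rw [← hsum, ← hcard, ← hcA', Finset.sum_mul, Finset.sum_div, Finset.mul_sum,
      ← Finset.sum_sub_distrib]
    refine Finset.sum_le_sum fun a _ => ?_
    -- the first closing phase
    have hA1 := next_loc A SA hA m a
    have hph := phase L orc (real L (SA.next A m a) SB) (SA.next A m a) SB hB n h
      (n * c ^ (2 * r + 1)) (n * c ^ (2 * (r + 1))) hn (by omega) (fun ra O => by
        have := hqA ra O [(m, a)] (by simp)
        simpa [Party.asked, Side.next] using this)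
      (fun kn1 w =>
        (if ((close L (SB.next B a ((B.step (SB.s w.2.1 w.2.2) a).run (w.2.2 : Q → K)).2) h
            (n * c ^ (2 * r)) c kn1).bind fun kn2 => eve L A B outB n h
              (exec A B w.2.2 r ((SA.next A m a).s w.1 w.2.2)
                ((B.step (SB.s w.2.1 w.2.2) a).run (w.2.2 : Q → K)).1
                ((B.step (SB.s w.2.1 w.2.2) a).run (w.2.2 : Q → K)).2).1
              (SA.next A m a) (SB.next B a ((B.step (SB.s w.2.1 w.2.2) a).run (w.2.2 : Q → K)).2)
              kn2 ((B.step (SB.s w.2.1 w.2.2) a).run (w.2.2 : Q → K)).2).run (w.2.2 : Q → K) =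
            outB w.2.1 (exec A B w.2.2 r ((SA.next A m a).s w.1 w.2.2)
                ((B.step (SB.s w.2.1 w.2.2) a).run (w.2.2 : Q → K)).1
                ((B.step (SB.s w.2.1 w.2.2) a).run (w.2.2 : Q → K)).2).2.2 then (1 : ℝ) else 0) -
        (if outA w.1 (exec A B w.2.2 r ((SA.next A m a).s w.1 w.2.2)
                ((B.step (SB.s w.2.1 w.2.2) a).run (w.2.2 : Q → K)).1
                ((B.step (SB.s w.2.1 w.2.2) a).run (w.2.2 : Q → K)).2).2.1 =
            some (outB w.2.1 (exec A B w.2.2 r ((SA.next A m a).s w.1 w.2.2)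
                ((B.step (SB.s w.2.1 w.2.2) a).run (w.2.2 : Q → K)).1
                ((B.step (SB.s w.2.1 w.2.2) a).run (w.2.2 : Q → K)).2).2.2)
          then (1 : ℝ) else 0)) (fun _ _ => neg_one_le_ite _ _)
      ((1 - 2 / (h : ℝ)) * (1 - 1 / (h : ℝ)) ^ (4 * r) * (1 - 1 / (h : ℝ)) ^ 2)
      (by positivity) kn hc (by rw [← hcdef]; apply le_of_eq; ring) ?_
    · rw [← hcdef] at hph
      have e1 : (1 - 2 / (h : ℝ)) * (1 - 1 / (h : ℝ)) ^ (4 * (r + 1)) *
          (((supp L (SA.next A m a) kn).card : ℝ) * (supp L SB kn).card /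
            (kc L (kn.map Prod.fst) : ℝ)) =
          (1 - 2 / (h : ℝ)) * (1 - 1 / (h : ℝ)) ^ (4 * r) * (1 - 1 / (h : ℝ)) ^ 2 *
            (1 - 1 / (h : ℝ)) ^ 2 * (((supp L (SA.next A m a) kn).card : ℝ) *
              (supp L SB kn).card / (kc L (kn.map Prod.fst) : ℝ)) := by ring
      rw [e1]
      refine hph.trans (le_of_eq ?_)
      refine Finset.sum_congr rfl fun w hw => ?_
      have hw1 := ((mem_cs L).mp hw).1.1
      have hrep : ((A.step (SA.s w.1 w.2.2) m).run (w.2.2 : Q → K)).2 = a := hw1.2
      unfold pay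
      have hlen : ∀ sA sB m', (exec A B (w.2.2 : Q → K) r sA sB m').1.length = r :=
        fun sA sB m' => (exec_spec A B w.2.2 r sA sB m').1
      simp only [exec, hrep, eve, hlen, Comp.run_bind, orc, ← hcdef]
      rfl
    · intro ext hext hcl
      set kn1 := kn ++ ext with hkn1
      -- split over the reply of `B`
      set gB : RB × L → M := fun p => ((B.step (SB.s p.1 p.2) a).run (p.2 : Q → K)).2 with hgB
      set TB : Finset M := Finset.univ.image gB with hTB
      have memTB : ∀ p, gB p ∈ TB := fun p => Finset.mem_image_of_mem _ (Finset.mem_univ p)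
      have hreal2 : ∀ b, cs L orc (fun w : RA × RB × L => real L (SA.next A m a) SB w ∧
            gB (w.2.1, w.2.2) = b) kn1 =
          cs L orc (real L (SA.next A m a) (SB.next B a b)) kn1 := by
        intro b
        ext w
        rw [mem_cs, mem_cs]
        simp only [real, Side.next, hgB]
        tauto
      have hsum2 := sum_split L orc (real L (SA.next A m a) SB)
        (fun w : RA × RB × L => gB (w.2.1, w.2.2)) kn1 TB (fun w => memTB _) (fun w =>
        (if ((close L (SB.next B a ((B.step (SB.s w.2.1 w.2.2) a).run (w.2.2 : Q → K)).2) h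
            (n * c ^ (2 * r)) c kn1).bind fun kn2 => eve L A B outB n h
              (exec A B w.2.2 r ((SA.next A m a).s w.1 w.2.2)
                ((B.step (SB.s w.2.1 w.2.2) a).run (w.2.2 : Q → K)).1
                ((B.step (SB.s w.2.1 w.2.2) a).run (w.2.2 : Q → K)).2).1
              (SA.next A m a) (SB.next B a ((B.step (SB.s w.2.1 w.2.2) a).run (w.2.2 : Q → K)).2)
              kn2 ((B.step (SB.s w.2.1 w.2.2) a).run (w.2.2 : Q → K)).2).run (w.2.2 : Q → K) =
            outB w.2.1 (exec A B w.2.2 r ((SA.next A m a).s w.1 w.2.2)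
                ((B.step (SB.s w.2.1 w.2.2) a).run (w.2.2 : Q → K)).1
                ((B.step (SB.s w.2.1 w.2.2) a).run (w.2.2 : Q → K)).2).2.2 then (1 : ℝ) else 0) -
        (if outA w.1 (exec A B w.2.2 r ((SA.next A m a).s w.1 w.2.2)
                ((B.step (SB.s w.2.1 w.2.2) a).run (w.2.2 : Q → K)).1
                ((B.step (SB.s w.2.1 w.2.2) a).run (w.2.2 : Q → K)).2).2.1 =
            some (outB w.2.1 (exec A B w.2.2 r ((SA.next A m a).s w.1 w.2.2)
                ((B.step (SB.s w.2.1 w.2.2) a).run (w.2.2 : Q → K)).1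
                ((B.step (SB.s w.2.1 w.2.2) a).run (w.2.2 : Q → K)).2).2.2)
          then (1 : ℝ) else 0))
      have hcard2 := card_split L orc (real L (SA.next A m a) SB)
        (fun w : RA × RB × L => gB (w.2.1, w.2.2)) kn1 TB (fun w => memTB _)
      have hcB := card_split L (fun p : RB × L => p.2) (fun p => SB.P p.1 p.2) gB kn1 TB memTB
      have hcB' : ∑ b ∈ TB, ((supp L (SB.next B a b) kn1).card : ℝ) = (supp L SB kn1).card := hcB
      simp only [hreal2] at hsum2 hcard2
      rw [← hsum2, ← hcard2, ← hcB', Finset.mul_sum, Finset.sum_div, Finset.mul_sum,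
        ← Finset.sum_sub_distrib]
      refine Finset.sum_le_sum fun b _ => ?_
      have hB1 := next_loc B SB hB a b
      have hph := phase L orc (real L (SA.next A m a) (SB.next B a b)) (SB.next B a b)
        (SA.next A m a) hA1 n h (n * c ^ (2 * r)) (n * c ^ (2 * r + 1)) hn (by omega)
        (fun rb O => by
          have := hqB rb O [(a, b)] (by simp)
          simpa [Party.asked, Side.next] using this)
        (pay L A B outA outB n h r (SA.next A m a) (SB.next B a b) b)
        (fun _ _ => neg_one_le_ite _ _)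
        ((1 - 2 / (h : ℝ)) * (1 - 1 / (h : ℝ)) ^ (4 * r))
        (by positivity) kn1 hcl (by rw [← hcdef]; apply le_of_eq; ring) ?_
      · rw [← hcdef] at hph
        rw [mul_comm ((supp L (SA.next A m a) kn1).card : ℝ)]
        refine hph.trans (le_of_eq ?_)
        refine Finset.sum_congr rfl fun w hw => ?_
        have hw1 := ((mem_cs L).mp hw).1.2
        have hrep : ((B.step (SB.s w.2.1 w.2.2) a).run (w.2.2 : Q → K)).2 = b := hw1.2
        unfold pay
        simp only [hrep, Comp.run_bind, orc]
        rfl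
      · intro ext2 hext2 hcl2
        rw [mul_comm ((supp L (SB.next B a b) (kn1 ++ ext2)).card : ℝ)]
        refine ih (SA.next A m a) (SB.next B a b) (kn1 ++ ext2) b hA1 hB1 ?_ ?_ hcl2
        · intro ra O l hl
          have := hqA ra O ((m, a) :: l) (by simpa using hl)
          simpa [Party.asked, Side.next, add_assoc] using this
        · intro rb O l hl
          have := hqB rb O ((a, b) :: l) (by simpa using hl)
          simpa [Party.asked, Side.next, add_assoc] using this

end Pool.Agent.LinOT
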