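import Pool.Agent.Lib.MP_ae38e0_lc.Bounded

set_option autoImplicit false

/-!
# Key agreement and oblivious transfer with bounded error
-/

namespace Pool.Agent.LinOT

open Classical

variable {K : Type} [Field K] {Q M X Y RA RB σ : Type}

omit [Field K] in
theorem asked_append (A : Party Q K M X) (O : Q → K) (l l' : List (M × M)) : ∀ s : A.St,
    A.asked O s (l ++ l') = A.asked O s l ++ A.asked O (A.after O s l) l' := by
  induction l with
  | nil => intro s; simp [Party.asked, Party.after]
  | cons p l ih =>
    intro s
    simp [Party.asked, Party.after, ih]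

omit [Field K] in
theorem asked_short (A : Party Q K M X) (O : Q → K) (s : A.St) (r n : ℕ) (m : M)
    (h : ∀ l : List (M × M), l.length = r → (A.asked O s l).length ≤ n)
    (l : List (M × M)) (hl : l.length ≤ r) : (A.asked O s l).length ≤ n := by
  have h1 := h (l ++ List.replicate (r - l.length) (m, m)) (by simp; omega)
  rw [asked_append, List.length_append] at h1
  omega

/-- The initial side. -/
def Side.start {St : Type} (i : RA → St) : Side Q K St RA where
  s r _ := i r
  q _ _ := []
  P _ _ := True

omit [Field K] in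
theorem start_loc {St : Type} (i : RA → St) : (Side.start (Q := Q) (K := K) i).Loc := by
  intro r O O' _
  exact ⟨rfl, rfl, Iff.rfl⟩

variable (L : Submodule K (Q → K)) [Fintype L]

omit [Fintype L] in
theorem not_tch_nil (W S : List Q) : ¬ Tch L W S [] := by
  unfold Tch
  rw [not_not]
  intro D _
  exact ⟨0, (killer L (W ++ S)).zero_mem, fun x hx => absurd hx (List.not_mem_nil)⟩

variable [Fintype RA] [Fintype RB]

theorem closed_start {St : Type} (i : RA → St) (h D : ℕ) (kn : List (Q × K)) :
    Closed L (Side.start i) h D kn := by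
  intro S _
  have : tset L (Side.start i) kn S = ∅ := by
    unfold tset
    apply Finset.filter_false_of_mem
    intro p _
    exact not_tch_nil L _ _
  rw [this]
  simp

theorem supp_start {St : Type} (i : RA → St) :
    (supp L (Side.start i) []).card = Fintype.card RA * Fintype.card L := by
  have : supp L (Side.start i) [] = Finset.univ := by
    ext p
    simp [mem_supp, Side.start, Cons]
  rw [this, Finset.card_univ, Fintype.card_prod]

theorem kc_nil : kc L [] = Fintype.card L := by
  unfold kc
  rw [← Nat.card_eq_fintype_card]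
  apply Nat.card_congr
  exact
    { toFun := fun D => ⟨D.1, D.2.1⟩
      invFun := fun D => ⟨D.1, D.2, fun q hq => absurd hq (List.not_mem_nil)⟩
      left_inv := fun D => rfl
      right_inv := fun D => rfl }

/-- **Key agreement.** -/
theorem bounded_attack [Nonempty σ] [Nonempty RA] [Nonempty RB] (A : Party Q K M X)
    (B : Party Q K M Y) (iA : RA → A.St) (iB : RB → B.St) (outA : RA → A.St → Option σ)
    (outB : RB → B.St → σ) (m0 : M) (n h r : ℕ) (hn : 0 < n) (hh : 0 < h)
    (hA : ∀ O ∈ L, ∀ (ra : RA) (l : List (M × M)), l.length = r →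
      (A.asked O (iA ra) l).length ≤ n)
    (hB : ∀ O ∈ L, ∀ (rb : RB) (l : List (M × M)), l.length = r →
      (B.asked O (iB rb) l).length ≤ n) :
    ∃ E : List (M × M) → Comp Q K σ,
      (∀ t O, t.length = r → ((E t).asked O).length ≤ 2 * r * (n * (n * h ^ 2) ^ (2 * r))) ∧
      prob (fun w : RA × RB × L => outA w.1 (exec A B w.2.2 r (iA w.1) (iB w.2.1) m0).2.1 =
        some (outB w.2.1 (exec A B w.2.2 r (iA w.1) (iB w.2.1) m0).2.2)) - (4 * r + 2) / h ≤
      prob (fun w : RA × RB × L => (E (exec A B w.2.2 r (iA w.1) (iB w.2.1) m0).1).run w.2.2 =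
        outB w.2.1 (exec A B w.2.2 r (iA w.1) (iB w.2.1) m0).2.2) := by
  have hh' : (0 : ℝ) < h := by exact_mod_cast hh
  rcases Nat.lt_or_ge h 2 with h1 | h2
  · have h1' : h = 1 := by omega
    subst h1'
    refine ⟨fun _ => .ret (Classical.arbitrary σ), fun t O _ => by simp, ?_⟩
    have a1 : ∀ p : RA × RB × L → Prop, prob p ≤ 1 := by
      intro p
      rw [prob_eq]
      apply div_le_one_of_le₀ _ (Nat.cast_nonneg _)
      exact_mod_cast Finset.card_le_univ _
    have a2 : ∀ p : RA × RB × L → Prop, 0 ≤ prob p := by
      intro p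
      rw [prob_eq]
      positivity
    have b1 := a1 (fun w : RA × RB × L =>
      outA w.1 (exec A B w.2.2 r (iA w.1) (iB w.2.1) m0).2.1 =
        some (outB w.2.1 (exec A B w.2.2 r (iA w.1) (iB w.2.1) m0).2.2))
    refine le_trans ?_ (a2 _)
    have : (0 : ℝ) ≤ 4 * (r : ℝ) := by positivity
    push_cast
    rw [div_one]
    linarith
  · refine ⟨fun t => eve L A B outB n h t (Side.start iA) (Side.start iB) [] m0, ?_, ?_⟩
    · intro t O ht
      have := eve_asked L A B outB n h hn hh O t (Side.start iA) (Side.start iB) [] m0
      rwa [ht] at this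
    · have hat := attack_sides L A B outA outB n h hn h2 r (Side.start iA) (Side.start iB) [] m0
        (start_loc iA) (start_loc iB)
        (fun ra O l hl => by
          simpa [Side.start] using asked_short A (O : Q → K) (iA ra) r n m0
            (fun l hl => hA O O.2 ra l hl) l hl)
        (fun rb O l hl => by
          simpa [Side.start] using asked_short B (O : Q → K) (iB rb) r n m0
            (fun l hl => hB O O.2 rb l hl) l hl)
        (closed_start L iB h _ [])
      have hcs : cs L orc (real L (Side.start iA) (Side.start iB)) [] = Finset.univ := by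
        ext w
        simp [mem_cs, real, Side.start, Cons]
      rw [hcs, supp_start, supp_start, List.map_nil, kc_nil, Finset.card_univ] at hat
      unfold pay at hat
      rw [Finset.sum_sub_distrib] at hat
      simp only [Finset.sum_ite, Finset.sum_const_zero, add_zero, Finset.sum_const, nsmul_eq_mul,
        mul_one] at hat
      rw [prob_eq, prob_eq]
      have hLpos : (0 : ℝ) < Fintype.card L := by
        have : Nonempty L := ⟨0⟩
        exact_mod_cast Fintype.card_pos
      have hN : (0 : ℝ) < Fintype.card (RA × RB × L) := by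
        have : Nonempty L := ⟨0⟩
        exact_mod_cast Fintype.card_pos
      have eN : ((Fintype.card RA * Fintype.card L : ℕ) : ℝ) *
          ((Fintype.card RB * Fintype.card L : ℕ) : ℝ) / (Fintype.card L : ℝ) =
          Fintype.card (RA × RB × L) := by
        rw [Fintype.card_prod, Fintype.card_prod]
        push_cast
        field_simp
      rw [eN] at hat
      have hlam : 1 - (4 * (r : ℝ) + 2) / h ≤
          (1 - 2 / (h : ℝ)) * (1 - 1 / (h : ℝ)) ^ (4 * r) := by
        have hh2 : (2 : ℝ) ≤ h := by exact_mod_cast h2
        have hx1 : 1 / (h : ℝ) ≤ 1 := by rw [div_le_one hh']; linarith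
        have hx0 : 0 ≤ 1 / (h : ℝ) := by positivity
        have hb := one_add_mul_le_pow (a := -(1 / (h : ℝ))) (by linarith) (4 * r)
        have hp1 : (1 - 1 / (h : ℝ)) ^ (4 * r) ≤ 1 :=
          pow_le_one₀ (by linarith) (by linarith)
        have e1 : (1 + -(1 / (h : ℝ))) = 1 - 1 / (h : ℝ) := by ring
        rw [e1] at hb
        push_cast at hb
        have e2 : (2 : ℝ) / h = 2 * (1 / h) := by ring
        have e3 : (4 * (r : ℝ) + 2) / h = 4 * r * (1 / h) + 2 * (1 / h) := by ring
        rw [e2, e3]
        nlinarith
      set win := ((Finset.univ.filter fun w : RA × RB × L =>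
        (eve L A B outB n h (exec A B w.2.2 r (iA w.1) (iB w.2.1) m0).1
          (Side.start iA) (Side.start iB) [] m0).run (w.2.2 : Q → K) =
        outB w.2.1 (exec A B w.2.2 r (iA w.1) (iB w.2.1) m0).2.2).card : ℝ) with hwin
      set agr := ((Finset.univ.filter fun w : RA × RB × L =>
        outA w.1 (exec A B w.2.2 r (iA w.1) (iB w.2.1) m0).2.1 =
        some (outB w.2.1 (exec A B w.2.2 r (iA w.1) (iB w.2.1) m0).2.2)).card : ℝ) with hagr
      have hat' : (1 - 2 / (h : ℝ)) * (1 - 1 / (h : ℝ)) ^ (4 * r) *
          (Fintype.card (RA × RB × L) : ℝ) - (Fintype.card (RA × RB × L) : ℝ) ≤ win - agr := hat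
      have h3 := mul_le_mul_of_nonneg_right hlam hN.le
      rw [sub_le_iff_le_add, div_add' _ _ _ hN.ne', div_le_div_iff_of_pos_right hN]
      linarith

/-- Averaging over a random bit. -/
theorem prob_bool {T U V : Type} [Fintype T] [Fintype U] [Fintype V] [Nonempty T] [Nonempty U]
    [Nonempty V] (P : Bool → V → T → U → Prop) :
    prob (fun w : T × (Bool × U) × V => P w.2.1.1 w.2.2 w.1 w.2.1.2) =
      (prob (fun w : V × T × U => P false w.1 w.2.1 w.2.2) +
        prob (fun w : V × T × U => P true w.1 w.2.1 w.2.2)) / 2 := by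
  rw [prob_eq, prob_eq, prob_eq]
  have h1 : (Finset.univ.filter fun w : T × (Bool × U) × V =>
      P w.2.1.1 w.2.2 w.1 w.2.1.2).card =
      (Finset.univ.filter fun w : V × T × U => P false w.1 w.2.1 w.2.2).card +
      (Finset.univ.filter fun w : V × T × U => P true w.1 w.2.1 w.2.2).card := by
    let e : T × (Bool × U) × V ≃ Bool × (V × T × U) :=
      { toFun := fun w => (w.2.1.1, (w.2.2, w.1, w.2.1.2))
        invFun := fun w => (w.2.2.1, (w.1, w.2.2.2), w.2.1)
        left_inv := fun w => rfl
        right_inv := fun w => rfl }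
    rw [Finset.card_filter, Finset.card_filter, Finset.card_filter,
      Fintype.sum_equiv e (fun w => if P w.2.1.1 w.2.2 w.1 w.2.1.2 then 1 else 0)
        (fun w => if P w.1 w.2.1 w.2.2.1 w.2.2.2 then 1 else 0) (fun w => rfl),
      Fintype.sum_prod_type, Fintype.sum_bool, add_comm]
  have hT : (Fintype.card T : ℝ) ≠ 0 := by exact_mod_cast Fintype.card_ne_zero
  have hU : (Fintype.card U : ℝ) ≠ 0 := by exact_mod_cast Fintype.card_ne_zero
  have hV : (Fintype.card V : ℝ) ≠ 0 := by exact_mod_cast Fintype.card_ne_zero
  rw [h1]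
  simp only [Fintype.card_prod, Fintype.card_bool]
  push_cast
  field_simp

/-- The probability, over a uniformly random oracle of `L` and the random tapes, that the output of
`E`, applied to the transcript, is `true`. -/
noncomputable def acc (L : Submodule K (Q → K)) (R : Party Q K M Bool)
    (S : Party Q K M (Bool × Bool)) (r : ℕ) (m0 : M) (E : List (M × M) → Comp Q K Bool)
    (c b0 b1 : Bool) : ℝ :=
  prob fun w : L × R.Tape × S.Tape => (E (transcript R S r m0 w.1 c b0 b1 w.2)).run w.1 = true

/-- The probability, over a uniformly random oracle of `L` and the random tapes, that the receiver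
with choice bit `c` does not output the bit which it chose. -/
noncomputable def err (L : Submodule K (Q → K)) (R : Party Q K M Bool)
    (S : Party Q K M (Bool × Bool)) (out : R.St → Option Bool) (r : ℕ) (m0 : M)
    (c b0 b1 : Bool) : ℝ :=
  prob fun w : L × R.Tape × S.Tape =>
    output R S out r m0 w.1 c b0 b1 w.2 ≠ some (if c then b1 else b0)

/-- **Oblivious transfer with bounded error.** -/
theorem ot_bounded (L : Submodule K (Q → K)) [Finite L] (R : Party Q K M Bool)
    (S : Party Q K M (Bool × Bool)) [Fintype R.Tape] [Fintype S.Tape] [Nonempty R.Tape]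
    [Nonempty S.Tape] (out : R.St → Option Bool) (m0 : M) (r n h : ℕ) (hn : 0 < n) (hh : 0 < h)
    (hR : ∀ O ∈ L, ∀ τ l, l.length = r → (R.asked O (R.init false τ) l).length ≤ n)
    (hS : ∀ O ∈ L, ∀ b τ l, l.length = r → (S.asked O (S.init b τ) l).length ≤ n)
    (δ : ℝ) (b1 : Bool) (hδ : ∀ b0, err L R S out r m0 false b0 b1 ≤ δ) :
    ∃ E : List (M × M) → Comp Q K Bool,
      (∀ t O, t.length = r → ((E t).asked O).length ≤ 2 * r * (n * (n * h ^ 2) ^ (2 * r))) ∧
      1 - 2 * (δ + (4 * r + 2) / h) ≤
        |acc L R S r m0 E true false b1 - acc L R S r m0 E false false b1| +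
        |acc L R S r m0 E true true b1 - acc L R S r m0 E false true b1| +
        |acc L R S r m0 E true true b1 - acc L R S r m0 E true false b1| := by
  have : Fintype L := Fintype.ofFinite L
  have : Nonempty L := ⟨0⟩
  obtain ⟨E, hE1, hE2⟩ := bounded_attack L (RA := R.Tape) (RB := Bool × S.Tape) (σ := Bool) R S
    (fun τ => R.init false τ) (fun p => S.init (p.1, b1) p.2) (fun _ s => out s)
    (fun p _ => p.1) m0 n h r hn hh (fun O hO ra l hl => hR O hO ra l hl)
    (fun O hO rb l hl => hS O hO _ rb.2 l hl)
  refine ⟨E, hE1, ?_⟩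
  have q1 := prob_bool (T := R.Tape) (U := S.Tape) (V := L) (fun b O τ τ' =>
    out (exec R S O r (R.init false τ) (S.init (b, b1) τ') m0).2.1 = some b)
  have q2 := prob_bool (T := R.Tape) (U := S.Tape) (V := L) (fun b O τ τ' =>
    (E (exec R S O r (R.init false τ) (S.init (b, b1) τ') m0).1).run (O : Q → K) = b)
  rw [q1, q2] at hE2
  have e1 : ∀ b0, 1 - δ ≤ prob (fun w : L × R.Tape × S.Tape =>
      out (exec R S w.1 r (R.init false w.2.1) (S.init (b0, b1) w.2.2) m0).2.1 = some b0) := by
    intro b0
    have := hδ b0
    unfold err at this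
    rw [prob_not] at this
    unfold output at this
    simp only [Bool.false_eq_true, if_false] at this
    linarith
  have e2 : prob (fun w : L × R.Tape × S.Tape =>
      (E (exec R S w.1 r (R.init false w.2.1) (S.init (false, b1) w.2.2) m0).1).run
        (w.1 : Q → K) = false) = 1 - acc L R S r m0 E false false b1 := by
    unfold acc
    rw [← prob_not]
    congr 1
    funext w
    simp [transcript]
  have e3 : prob (fun w : L × R.Tape × S.Tape =>
      (E (exec R S w.1 r (R.init false w.2.1) (S.init (true, b1) w.2.2) m0).1).run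
        (w.1 : Q → K) = true) = acc L R S r m0 E false true b1 := rfl
  have f0 := e1 false
  have f1 := e1 true
  rw [e2, e3] at hE2
  have a1 := le_abs_self (acc L R S r m0 E true false b1 - acc L R S r m0 E false false b1)
  have a2 := neg_abs_le (acc L R S r m0 E true true b1 - acc L R S r m0 E false true b1)
  have a3 := neg_abs_le (acc L R S r m0 E true true b1 - acc L R S r m0 E true false b1)
  have a4 := le_abs_self (acc L R S r m0 E true true b1 - acc L R S r m0 E true false b1)
  linarith

end Pool.Agent.LinOT
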