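import Pool.Agent.Lib.MP_ae38e0_lc.Sides

set_option autoImplicit false

/-!
# Closing one side of a public state
-/

namespace Pool.Agent.LinOT

open Classical

variable {K : Type} [Field K] {Q St St' R R' : Type} (L : Submodule K (Q → K))

section cs

variable {α : Type} [Fintype α] (o : α → L) (PA : α → Prop)

/-- The elements with a property whose oracle gives the known answers. -/
noncomputable def cs (kn : List (Q × K)) : Finset α :=
  Finset.univ.filter fun x => PA x ∧ Cons kn (o x : Q → K)

omit [Field K] in
theorem cons_zip (O : Q → K) (S : List Q) : ∀ ans : List K, ans.length = S.length →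
    (Cons (S.zip ans) O ↔ S.map O = ans) := by
  induction S with
  | nil =>
    intro ans h
    have : ans = [] := List.length_eq_zero_iff.mp h
    subst this
    simp [Cons]
  | cons q S ih =>
    intro ans h
    obtain ⟨a, ans, rfl⟩ := List.exists_cons_of_length_eq_add_one h
    have h' := ih ans (by simpa using h)
    simp only [List.zip_cons_cons, List.map_cons, List.cons.injEq]
    rw [← h']
    simp [Cons]

/-- The possible answers to a list of queries. -/
noncomputable def answers [Fintype L] (S : List Q) : Finset (List K) :=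
  Finset.univ.image fun O : L => S.map (O : Q → K)

theorem answers_length [Fintype L] {S : List Q} {a : List K} (h : a ∈ answers L S) :
    a.length = S.length := by
  obtain ⟨O, -, rfl⟩ := Finset.mem_image.mp h
  simp

theorem sum_answers [Fintype L] (kn : List (Q × K)) (S : List Q) (f : α → ℝ) :
    ∑ a ∈ answers L S, ∑ x ∈ cs L o PA (kn ++ S.zip a), f x = ∑ x ∈ cs L o PA kn, f x := by
  rw [← Finset.sum_fiberwise_of_maps_to (s := cs L o PA kn) (t := answers L S)
    (g := fun x => S.map (o x : Q → K))
    (fun x _ => Finset.mem_image.mpr ⟨o x, Finset.mem_univ _, rfl⟩)]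
  refine Finset.sum_congr rfl fun a ha => ?_
  refine Finset.sum_congr ?_ fun _ _ => rfl
  ext x
  simp only [cs, Finset.mem_filter, Finset.mem_univ, true_and, cons_append]
  rw [cons_zip (o x : Q → K) S a (answers_length L ha)]
  tauto

theorem card_answers [Fintype L] (kn : List (Q × K)) (S : List Q) :
    ∑ a ∈ answers L S, ((cs L o PA (kn ++ S.zip a)).card : ℝ) = (cs L o PA kn).card := by
  have := sum_answers L o PA kn S (fun _ => 1)
  simpa using this

end cs

variable [Fintype L] [Fintype R] [Fintype R']

/-- No short list of queries touches many of the consistent parties. -/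
def Closed (X : Side Q K St R) (h D : ℕ) (kn : List (Q × K)) : Prop :=
  ∀ S : List Q, S.length ≤ D → h * (tset L X kn S).card ≤ (supp L X kn).card

/-- The closing loop. -/
noncomputable def close (X : Side Q K St R) (h D : ℕ) :
    ℕ → List (Q × K) → Comp Q K (List (Q × K))
  | 0, kn => .ret kn
  | j + 1, kn =>
    if hS : ∃ S : List Q, S.length ≤ D ∧ (supp L X kn).card < h * (tset L X kn S).card then
      (Comp.askAll hS.choose).bind fun ans => close X h D j (kn ++ hS.choose.zip ans)
    else .ret kn

theorem close_asked (X : Side Q K St R) (h D : ℕ) (O : Q → K) (j : ℕ) :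
    ∀ kn, ((close L X h D j kn).asked O).length ≤ j * D := by
  induction j with
  | zero => intro kn; simp [close]
  | succ j ih =>
    intro kn
    unfold close
    split_ifs with hS
    · have h1 := ih (kn ++ hS.choose.zip (hS.choose.map O))
      have h2 := hS.choose_spec.1
      simp only [Comp.asked_bind, Comp.asked_askAll, Comp.run_askAll, List.length_append]
      rw [Nat.succ_mul]
      omega
    · simp

theorem closed_bound (X : Side Q K St R) (Y : Side Q K St' R') (hY : Y.Loc) (h E : ℕ) (hh : 0 < h)
    (kn ext : List (Q × K)) (hYc : Closed L Y h E kn) (hE : ext.length ≤ E) :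
    (1 - 1 / (h : ℝ)) * ((supp L Y kn).card / (kc L (kn.map Prod.fst) : ℝ)) *
        (supp L X (kn ++ ext)).card ≤
      (supp L X (kn ++ ext)).card * (supp L Y (kn ++ ext)).card /
        (kc L ((kn ++ ext).map Prod.fst) : ℝ) := by
  rcases (supp L X (kn ++ ext)).eq_empty_or_nonempty with h0 | ⟨p, hp⟩
  · simp [h0]
  · have hcons : Cons (kn ++ ext) (p.2 : Q → K) := ((mem_supp L).mp hp).2
    have h1 := fiber_card L Y hY kn ext p.2 hcons
    have h2 := hYc (ext.map Prod.fst) (by simpa using hE)
    have h3 : (tset L Y kn (ext.map Prod.fst)).card +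
        ((supp L Y kn).filter fun p => ¬ Tch L (kn.map Prod.fst) (ext.map Prod.fst)
        (Y.q p.1 p.2)).card = (supp L Y kn).card :=
      Finset.card_filter_add_card_filter_not _
    set U := ((supp L Y kn).filter fun p => ¬ Tch L (kn.map Prod.fst) (ext.map Prod.fst)
        (Y.q p.1 p.2)).card with hU
    have hk1 : (0 : ℝ) < kc L (kn.map Prod.fst) := by exact_mod_cast kc_pos L _
    have hk2 : (0 : ℝ) < kc L ((kn ++ ext).map Prod.fst) := by exact_mod_cast kc_pos L _
    have hh' : (0 : ℝ) < h := by exact_mod_cast hh
    have h1' : (U : ℝ) * kc L ((kn ++ ext).map Prod.fst) ≤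
        (supp L Y (kn ++ ext)).card * kc L (kn.map Prod.fst) := by
      rw [List.map_append]; exact_mod_cast h1
    have h2' : (h : ℝ) * (tset L Y kn (ext.map Prod.fst)).card ≤ (supp L Y kn).card := by
      exact_mod_cast h2
    have h3' : ((tset L Y kn (ext.map Prod.fst)).card : ℝ) + U = (supp L Y kn).card := by
      exact_mod_cast h3
    have h4 : (1 - 1 / (h : ℝ)) * (supp L Y kn).card ≤ U := by
      have : ((tset L Y kn (ext.map Prod.fst)).card : ℝ) ≤ (supp L Y kn).card / h := by
        rw [le_div_iff₀ hh']; linarith
      have e : (1 - 1 / (h : ℝ)) * (supp L Y kn).card =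
        (supp L Y kn).card - (supp L Y kn).card / h := by ring
      rw [e]; linarith
    have h5 : (U : ℝ) / kc L (kn.map Prod.fst) ≤
        (supp L Y (kn ++ ext)).card / kc L ((kn ++ ext).map Prod.fst) := by
      rw [div_le_div_iff₀ hk1 hk2]; exact h1'
    calc (1 - 1 / (h : ℝ)) * ((supp L Y kn).card / (kc L (kn.map Prod.fst) : ℝ)) *
        (supp L X (kn ++ ext)).card
        = ((1 - 1 / (h : ℝ)) * (supp L Y kn).card) / (kc L (kn.map Prod.fst) : ℝ) *
        (supp L X (kn ++ ext)).card := by ring
      _ ≤ U / (kc L (kn.map Prod.fst) : ℝ) * (supp L X (kn ++ ext)).card := by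
          apply mul_le_mul_of_nonneg_right _ (Nat.cast_nonneg _)
          exact div_le_div_of_nonneg_right h4 hk1.le
      _ ≤ (supp L Y (kn ++ ext)).card / kc L ((kn ++ ext).map Prod.fst) *
          (supp L X (kn ++ ext)).card :=
          mul_le_mul_of_nonneg_right h5 (Nat.cast_nonneg _)
      _ = _ := by ring

/-- **The closing phase.**  If `Y` is closed at the level of the total number of queries and the
payoff of the closed states is bounded from below, then so is the payoff of the whole phase. -/
theorem phase {Ω : Type} [Fintype Ω] (o : Ω → L) (PR : Ω → Prop) (X : Side Q K St R)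
    (Y : Side Q K St' R') (hY : Y.Loc) (n h D E : ℕ) (hn0 : 0 < n) (hh : 0 < h)
    (hn : ∀ (r : R) (O : L), (X.q r O).length ≤ n) (G : List (Q × K) → Ω → ℝ)
    (hG : ∀ kn ω, -1 ≤ G kn ω) (lam : ℝ) (hlam : 0 ≤ lam) (kn : List (Q × K))
    (hYc : Closed L Y h E kn) (hE : n * h ^ 2 * D ≤ E)
    (hyp : ∀ ext : List (Q × K), ext.length ≤ E → Closed L X h D (kn ++ ext) →
      lam * ((supp L X (kn ++ ext)).card * (supp L Y (kn ++ ext)).card /
        (kc L ((kn ++ ext).map Prod.fst) : ℝ)) - (cs L o PR (kn ++ ext)).card ≤
        ∑ ω ∈ cs L o PR (kn ++ ext), G (kn ++ ext) ω) :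
    lam * (1 - 1 / (h : ℝ)) ^ 2 * ((supp L X kn).card * (supp L Y kn).card /
        (kc L (kn.map Prod.fst) : ℝ)) - (cs L o PR kn).card ≤
      ∑ ω ∈ cs L o PR kn, G ((close L X h D (n * h ^ 2) kn).run (o ω : Q → K)) ω := by
  have hh' : (0 : ℝ) < h := by exact_mod_cast hh
  have hh1 : (1 : ℝ) ≤ h := by exact_mod_cast hh
  have hfac : (0 : ℝ) ≤ 1 - 1 / (h : ℝ) := by
    rw [sub_nonneg, div_le_one hh']; exact hh1
  set Lam : ℝ := lam * ((1 - 1 / (h : ℝ)) * ((supp L Y kn).card / (kc L (kn.map Prod.fst) : ℝ)))
    with hLam
  have hLam0 : 0 ≤ Lam := by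
    apply mul_nonneg hlam
    apply mul_nonneg hfac
    positivity
  have key : ∀ j : ℕ, ∀ ext : List (Q × K), ext.length + j * D ≤ E →
      ∃ u : ℝ, 0 ≤ u ∧ u ≤ (supp L X (kn ++ ext)).card ∧
        (j : ℝ) * u ≤ h * ∑ p ∈ supp L X (kn ++ ext),
          (rk L (X.q p.1 p.2) ((kn ++ ext).map Prod.fst) : ℝ) ∧
        Lam * ((supp L X (kn ++ ext)).card - u) - (cs L o PR (kn ++ ext)).card ≤
          ∑ ω ∈ cs L o PR (kn ++ ext),
            G ((close L X h D j (kn ++ ext)).run (o ω : Q → K)) ω := by
    intro j
    induction j with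
    | zero =>
      intro ext hext
      by_cases hc : Closed L X h D (kn ++ ext)
      · refine ⟨0, le_refl _, Nat.cast_nonneg _, ?_, ?_⟩
        · simp only [CharP.cast_eq_zero, zero_mul]
          positivity
        · have h1 := hyp ext (by omega) hc
          have h2 := closed_bound L X Y hY h E hh kn ext hYc (by omega)
          have h3 := mul_le_mul_of_nonneg_left h2 hlam
          simp only [close, Comp.run_ret]
          have e : Lam * (((supp L X (kn ++ ext)).card : ℝ) - 0) = lam * ((1 - 1 / (h : ℝ)) *
            ((supp L Y kn).card / (kc L (kn.map Prod.fst) : ℝ)) *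
              (supp L X (kn ++ ext)).card) := by rw [hLam]; ring
          rw [e]
          linarith
      · refine ⟨(supp L X (kn ++ ext)).card, Nat.cast_nonneg _, le_refl _, ?_, ?_⟩
        · simp only [CharP.cast_eq_zero, zero_mul]
          positivity
        · rw [sub_self, mul_zero, zero_sub]
          have := Finset.card_nsmul_le_sum (cs L o PR (kn ++ ext))
            (fun ω => G ((close L X h D 0 (kn ++ ext)).run (o ω : Q → K)) ω) (-1)
            (fun ω _ => hG _ _)
          simpa using this
    | succ j ih =>
      intro ext hext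
      by_cases hc : Closed L X h D (kn ++ ext)
      · have hno : ¬ ∃ S : List Q, S.length ≤ D ∧
            (supp L X (kn ++ ext)).card < h * (tset L X (kn ++ ext) S).card := by
          rintro ⟨S, h1, h2⟩
          exact absurd (hc S h1) (not_le.mpr h2)
        refine ⟨0, le_refl _, Nat.cast_nonneg _, ?_, ?_⟩
        · rw [mul_zero]
          positivity
        · have h1 := hyp ext (by omega) hc
          have h2 := closed_bound L X Y hY h E hh kn ext hYc (by omega)
          have h3 := mul_le_mul_of_nonneg_left h2 hlam
          simp only [close, dif_neg hno, Comp.run_ret]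
          have e : Lam * (((supp L X (kn ++ ext)).card : ℝ) - 0) = lam * ((1 - 1 / (h : ℝ)) *
            ((supp L Y kn).card / (kc L (kn.map Prod.fst) : ℝ)) *
              (supp L X (kn ++ ext)).card) := by rw [hLam]; ring
          rw [e]
          linarith
      · have hex : ∃ S : List Q, S.length ≤ D ∧
            (supp L X (kn ++ ext)).card < h * (tset L X (kn ++ ext) S).card := by
          unfold Closed at hc
          push Not at hc
          exact hc
        have hrun : ∀ O : Q → K, (close L X h D (j + 1) (kn ++ ext)).run O =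
            (close L X h D j (kn ++ ext ++ hex.choose.zip (hex.choose.map O))).run O := by
          intro O
          conv_lhs => unfold close
          rw [dif_pos hex]
          simp only [Comp.run_bind, Comp.run_askAll]
        obtain ⟨hS1, hS2⟩ := hex.choose_spec
        set S := hex.choose with hS
        have hlen : ∀ a ∈ answers L S, (ext ++ S.zip a).length + j * D ≤ E := by
          intro a ha
          have := answers_length L ha
          simp only [List.length_append, List.length_zip, this, min_self]
          rw [Nat.succ_mul] at hext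
          omega
        have ih' : ∀ a : List K, ∃ u : ℝ, a ∈ answers L S → (0 ≤ u ∧
            u ≤ (supp L X (kn ++ ext ++ S.zip a)).card ∧
            (j : ℝ) * u ≤ h * ∑ p ∈ supp L X (kn ++ ext ++ S.zip a),
              (rk L (X.q p.1 p.2) ((kn ++ ext ++ S.zip a).map Prod.fst) : ℝ) ∧
            Lam * ((supp L X (kn ++ ext ++ S.zip a)).card - u) -
              (cs L o PR (kn ++ ext ++ S.zip a)).card ≤
              ∑ ω ∈ cs L o PR (kn ++ ext ++ S.zip a),
                G ((close L X h D j (kn ++ ext ++ S.zip a)).run (o ω : Q → K)) ω) := by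
          intro a
          by_cases ha : a ∈ answers L S
          · obtain ⟨u, hu⟩ := ih (ext ++ S.zip a) (hlen a ha)
            rw [← List.append_assoc] at hu
            exact ⟨u, fun _ => hu⟩
          · exact ⟨0, fun h => absurd h ha⟩
        choose u hu using ih'
        have hsX : ∑ a ∈ answers L S, ((supp L X (kn ++ ext ++ S.zip a)).card : ℝ) =
            (supp L X (kn ++ ext)).card :=
          card_answers L (fun p : R × L => p.2) (fun p => X.P p.1 p.2) (kn ++ ext) S
        have hsR : ∑ a ∈ answers L S, ((cs L o PR (kn ++ ext ++ S.zip a)).card : ℝ) =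
            (cs L o PR (kn ++ ext)).card := card_answers L o PR (kn ++ ext) S
        have hrk : ∑ a ∈ answers L S, ∑ p ∈ supp L X (kn ++ ext ++ S.zip a),
              (rk L (X.q p.1 p.2) ((kn ++ ext ++ S.zip a).map Prod.fst) : ℝ) =
            ∑ p ∈ supp L X (kn ++ ext),
              (rk L (X.q p.1 p.2) ((kn ++ ext).map Prod.fst ++ S) : ℝ) := by
          refine Eq.trans ?_ (sum_answers L (fun p : R × L => p.2) (fun p => X.P p.1 p.2)
            (kn ++ ext) S (fun p => (rk L (X.q p.1 p.2) ((kn ++ ext).map Prod.fst ++ S) : ℝ)))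
          refine Finset.sum_congr rfl fun a ha => ?_
          refine Finset.sum_congr rfl fun p _ => ?_
          congr 2
          rw [List.map_append, List.map_fst_zip (by rw [answers_length L ha])]
        have hdrop : ∑ p ∈ supp L X (kn ++ ext),
              (rk L (X.q p.1 p.2) ((kn ++ ext).map Prod.fst ++ S) : ℝ) +
                (tset L X (kn ++ ext) S).card ≤
            ∑ p ∈ supp L X (kn ++ ext),
              (rk L (X.q p.1 p.2) ((kn ++ ext).map Prod.fst) : ℝ) := by
          have e1 : ((tset L X (kn ++ ext) S).card : ℝ) = ∑ p ∈ supp L X (kn ++ ext),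
              if Tch L ((kn ++ ext).map Prod.fst) S (X.q p.1 p.2) then (1 : ℝ) else 0 := by
            rw [Finset.sum_ite, Finset.sum_const_zero, add_zero, Finset.sum_const, nsmul_eq_mul,
              mul_one]
            rfl
          rw [e1, ← Finset.sum_add_distrib]
          refine Finset.sum_le_sum fun p _ => ?_
          split_ifs with ht
          · exact_mod_cast rk_tch L ht
          · rw [add_zero]
            exact_mod_cast rk_mono L (X.q p.1 p.2) ((kn ++ ext).map Prod.fst) S
        refine ⟨∑ a ∈ answers L S, u a, Finset.sum_nonneg fun a ha => (hu a ha).1, ?_, ?_, ?_⟩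
        · rw [← hsX]
          exact Finset.sum_le_sum fun a ha => (hu a ha).2.1
        · have h1 : (j : ℝ) * ∑ a ∈ answers L S, u a ≤ h * ∑ p ∈ supp L X (kn ++ ext),
              (rk L (X.q p.1 p.2) ((kn ++ ext).map Prod.fst ++ S) : ℝ) := by
            rw [← hrk, Finset.mul_sum, Finset.mul_sum]
            exact Finset.sum_le_sum fun a ha => (hu a ha).2.2.1
          have h2 : ∑ a ∈ answers L S, u a ≤ (supp L X (kn ++ ext)).card := by
            rw [← hsX]
            exact Finset.sum_le_sum fun a ha => (hu a ha).2.1
          have h3 : ((supp L X (kn ++ ext)).card : ℝ) ≤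
              h * (tset L X (kn ++ ext) S).card := by exact_mod_cast hS2.le
          have h4 := mul_le_mul_of_nonneg_left hdrop hh'.le
          rw [mul_add] at h4
          push_cast
          rw [add_mul, one_mul]
          linarith
        · have e1 : ∑ ω ∈ cs L o PR (kn ++ ext),
              G ((close L X h D (j + 1) (kn ++ ext)).run (o ω : Q → K)) ω =
              ∑ a ∈ answers L S, ∑ ω ∈ cs L o PR (kn ++ ext ++ S.zip a),
                G ((close L X h D j (kn ++ ext ++ S.zip a)).run (o ω : Q → K)) ω := by
            rw [← sum_answers L o PR (kn ++ ext) S]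
            refine Finset.sum_congr rfl fun a ha => ?_
            refine Finset.sum_congr rfl fun ω hω => ?_
            rw [hrun]
            have : S.map (o ω : Q → K) = a := by
              have h1 := (Finset.mem_filter.mp hω).2.2
              rw [cons_append] at h1
              exact (cons_zip _ S a (answers_length L ha)).mp h1.2
            rw [this]
          rw [e1, ← hsX, ← hsR, ← Finset.sum_sub_distrib, Finset.mul_sum,
            ← Finset.sum_sub_distrib]
          exact Finset.sum_le_sum fun a ha => (hu a ha).2.2.2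
  obtain ⟨u, hu0, hu1, hu2, hu3⟩ := key (n * h ^ 2) [] (by simpa using hE)
  rw [List.append_nil] at hu1 hu2 hu3
  have hrkn : ∑ p ∈ supp L X kn, (rk L (X.q p.1 p.2) (kn.map Prod.fst) : ℝ) ≤
      n * (supp L X kn).card := by
    have : ∀ p ∈ supp L X kn, (rk L (X.q p.1 p.2) (kn.map Prod.fst) : ℝ) ≤ n := by
      intro p _
      exact_mod_cast (rk_le L _ _).trans (hn p.1 p.2)
    have h1 := Finset.sum_le_card_nsmul _ _ _ this
    rw [nsmul_eq_mul, mul_comm] at h1
    exact h1
  have hu4 : u ≤ (supp L X kn).card / h := by
    have h1 : ((n * h ^ 2 : ℕ) : ℝ) * u ≤ h * (n * (supp L X kn).card) :=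
      hu2.trans (mul_le_mul_of_nonneg_left hrkn hh'.le)
    push_cast at h1
    have hn' : (0 : ℝ) < n := by exact_mod_cast hn0
    rw [le_div_iff₀ hh']
    have h2 : (n * h : ℝ) * (u * h) ≤ (n * h : ℝ) * (supp L X kn).card := by
      calc (n * h : ℝ) * (u * h) = n * h ^ 2 * u := by ring
        _ ≤ h * (n * (supp L X kn).card) := h1
        _ = _ := by ring
    exact le_of_mul_le_mul_left h2 (by positivity)
  refine le_trans ?_ hu3
  have h5 : Lam * ((supp L X kn).card * (1 - 1 / (h : ℝ))) ≤ Lam * ((supp L X kn).card - u) := by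
    apply mul_le_mul_of_nonneg_left _ hLam0
    have : ((supp L X kn).card : ℝ) * (1 - 1 / (h : ℝ)) =
      (supp L X kn).card - (supp L X kn).card / h := by ring
    rw [this]; linarith
  have e : lam * (1 - 1 / (h : ℝ)) ^ 2 * ((supp L X kn).card * (supp L Y kn).card /
        (kc L (kn.map Prod.fst) : ℝ)) = Lam * ((supp L X kn).card * (1 - 1 / (h : ℝ))) := by
    rw [hLam]; ring
  rw [e]
  linarith

end Pool.Agent.LinOT
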