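import Mathlib

set_option autoImplicit false

/-!
# Two-party protocols with oracle queries

Computations with oracle queries, parties, two-party protocols and their executions.
-/

namespace Pool.Agent.LinOT

/-- A computation which may query an oracle `Q → K`: either it returns a result, or it asks a query
and continues with the answer.  There is no bound on the computing power. -/
inductive Comp (Q K α : Type) : Type
  | ret : α → Comp Q K α
  | ask : Q → (K → Comp Q K α) → Comp Q K α

namespace Comp

variable {Q K α β : Type}

/-- The result of a computation with oracle `O`. -/
def run (O : Q → K) : Comp Q K α → α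
  | ret a => a
  | ask q next => (next (O q)).run O

/-- The list of the queries asked by a computation with oracle `O`. -/
def asked (O : Q → K) : Comp Q K α → List Q
  | ret _ => []
  | ask q next => q :: (next (O q)).asked O

/-- Sequential composition. -/
def bind : Comp Q K α → (α → Comp Q K β) → Comp Q K β
  | ret a, g => g a
  | ask q next, g => ask q (fun k => (next k).bind g)

@[simp] theorem run_ret (O : Q → K) (a : α) : (ret a : Comp Q K α).run O = a := rfl

@[simp] theorem run_ask (O : Q → K) (q : Q) (next : K → Comp Q K α) :
    (ask q next).run O = (next (O q)).run O := rfl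

@[simp] theorem asked_ret (O : Q → K) (a : α) : (ret a : Comp Q K α).asked O = [] := rfl

@[simp] theorem asked_ask (O : Q → K) (q : Q) (next : K → Comp Q K α) :
    (ask q next).asked O = q :: (next (O q)).asked O := rfl

@[simp] theorem run_bind (O : Q → K) (c : Comp Q K α) (g : α → Comp Q K β) :
    (c.bind g).run O = (g (c.run O)).run O := by
  induction c with
  | ret a => rfl
  | ask q next ih => simp [bind, ih]

@[simp] theorem asked_bind (O : Q → K) (c : Comp Q K α) (g : α → Comp Q K β) :
    (c.bind g).asked O = c.asked O ++ (g (c.run O)).asked O := by
  induction c with
  | ret a => rfl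
  | ask q next ih => simp [bind, ih]

/-- A computation depends only on the answers to the queries it asks. -/
theorem run_congr {O O' : Q → K} (c : Comp Q K α) (h : ∀ q ∈ c.asked O, O q = O' q) :
    c.run O = c.run O' ∧ c.asked O = c.asked O' := by
  induction c with
  | ret a => exact ⟨rfl, rfl⟩
  | ask q next ih =>
    have hq : O q = O' q := h q (by simp)
    have := ih (O q) (fun q' hq' => h q' (by simp [hq']))
    simp only [run_ask, asked_ask, ← hq]
    exact ⟨this.1, by rw [this.2]⟩

/-- Ask all queries of a list. -/
def askAll : List Q → Comp Q K (List K)
  | [] => ret []
  | q :: l => ask q (fun k => (askAll l).bind (fun r => ret (k :: r)))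

@[simp] theorem run_askAll (O : Q → K) (l : List Q) : (askAll l : Comp Q K _).run O = l.map O := by
  induction l with
  | nil => rfl
  | cons q l ih => simp [askAll, ih]

@[simp] theorem asked_askAll (O : Q → K) (l : List Q) : (askAll l : Comp Q K _).asked O = l := by
  induction l with
  | nil => rfl
  | cons q l ih => simp [askAll, ih]

end Comp

/-- A party of an interactive protocol: `Tape` is the set of its random tapes, `X` the set of its
inputs, `M` the set of messages.  `step s m` is the reaction of the party in state `s` to the
incoming message `m`: it may ask oracle queries, and yields the new state and the reply. -/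
structure Party (Q K M X : Type) where
  Tape : Type
  St : Type
  init : X → Tape → St
  step : St → M → Comp Q K (St × M)

namespace Party

variable {Q K M X : Type} (P : Party Q K M X)

/-- State after processing the list `l` of pairs (incoming message, expected reply). -/
def after (O : Q → K) : P.St → List (M × M) → P.St
  | s, [] => s
  | s, (m, _) :: l => after O ((P.step s m).run O).1 l

/-- The replies of the party are the expected ones. -/
def agrees (O : Q → K) : P.St → List (M × M) → Prop
  | _, [] => True
  | s, (m, a) :: l => ((P.step s m).run O).2 = a ∧ agrees O ((P.step s m).run O).1 l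

/-- All queries asked by the party while it processes the incoming messages. -/
def asked (O : Q → K) : P.St → List (M × M) → List Q
  | _, [] => []
  | s, (m, _) :: l => (P.step s m).asked O ++ asked O ((P.step s m).run O).1 l

theorem congr {O O' : Q → K} (l : List (M × M)) : ∀ (s : P.St),
    (∀ q ∈ P.asked O s l, O q = O' q) →
    P.after O s l = P.after O' s l ∧ (P.agrees O s l ↔ P.agrees O' s l) ∧
      P.asked O s l = P.asked O' s l := by
  induction l with
  | nil => intro s _; exact ⟨rfl, Iff.rfl, rfl⟩
  | cons p l ih =>
    intro s h
    obtain ⟨m, a⟩ := p
    have h1 := (P.step s m).run_congr (O := O) (O' := O') (fun q hq => h q (by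
      simp only [asked, List.mem_append]; exact Or.inl hq))
    have h2 := ih ((P.step s m).run O).1 (fun q hq => h q (by
      simp only [asked, List.mem_append]; exact Or.inr hq))
    refine ⟨?_, ?_, ?_⟩
    · simp only [after]; rw [← h1.1]; exact h2.1
    · simp only [agrees]; rw [← h1.1, h2.2.1]
    · simp only [asked]; rw [← h1.1, ← h1.2, h2.2.2]

end Party

variable {Q K M X Y : Type}

/-- The joint execution of `n` rounds of two parties.  In each round `A` gets the last message of
`B` (in the first round the message `m`) and sends a message, then `B` gets it and replies.
The result is the transcript (list of pairs of messages of `A` and `B`) and the final states. -/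
def exec (A : Party Q K M X) (B : Party Q K M Y) (O : Q → K) :
    ℕ → A.St → B.St → M → List (M × M) × A.St × B.St
  | 0, a, b, _ => ([], a, b)
  | n + 1, a, b, m =>
    let p := (A.step a m).run O
    let q := (B.step b p.2).run O
    let r := exec A B O n p.1 q.1 q.2
    ((p.2, q.2) :: r.1, r.2.1, r.2.2)

/-- The list of pairs (incoming message, reply) of the first party, for a transcript. -/
def inbox : M → List (M × M) → List (M × M)
  | _, [] => []
  | m, (a, b) :: l => (m, a) :: inbox b l

theorem inbox_length (l : List (M × M)) : ∀ m : M, (inbox m l).length = l.length := by
  induction l with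
  | nil => intro m; rfl
  | cons p l ih => intro m; simp [inbox, ih]

theorem exec_spec (A : Party Q K M X) (B : Party Q K M Y) (O : Q → K) (n : ℕ) :
    ∀ (a : A.St) (b : B.St) (m : M),
      (exec A B O n a b m).1.length = n ∧
      A.agrees O a (inbox m (exec A B O n a b m).1) ∧
      B.agrees O b (exec A B O n a b m).1 ∧
      (exec A B O n a b m).2.1 = A.after O a (inbox m (exec A B O n a b m).1) ∧
      (exec A B O n a b m).2.2 = B.after O b (exec A B O n a b m).1 := by
  induction n with
  | zero => intro a b m; simp [exec, inbox, Party.agrees, Party.after]
  | succ n ih =>
    intro a b m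
    have h := ih ((A.step a m).run O).1 ((B.step b ((A.step a m).run O).2).run O).1
      ((B.step b ((A.step a m).run O).2).run O).2
    refine ⟨?_, ?_, ?_, ?_, ?_⟩
    · simp only [exec, List.length_cons]; rw [h.1]
    · simp only [exec, inbox, Party.agrees]; exact ⟨trivial, h.2.1⟩
    · simp only [exec, Party.agrees]; exact ⟨trivial, h.2.2.1⟩
    · simp only [exec, inbox, Party.after]; exact h.2.2.2.1
    · simp only [exec, Party.after]; exact h.2.2.2.2

theorem exec_of_agrees (A : Party Q K M X) (B : Party Q K M Y) (O : Q → K) (n : ℕ) :
    ∀ (a : A.St) (b : B.St) (m : M) (t : List (M × M)), t.length = n →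
      A.agrees O a (inbox m t) → B.agrees O b t →
      exec A B O n a b m = (t, A.after O a (inbox m t), B.after O b t) := by
  induction n with
  | zero =>
    intro a b m t ht _ _
    obtain rfl := List.length_eq_zero_iff.mp ht
    simp [exec, inbox, Party.after]
  | succ n ih =>
    intro a b m t ht hA hB
    obtain ⟨⟨x, y⟩, t, rfl⟩ := List.exists_cons_of_length_eq_add_one ht
    simp only [inbox, Party.agrees] at hA hB
    have h := ih ((A.step a m).run O).1 ((B.step b x).run O).1 y t (by simpa using ht) hA.2 hB.2
    simp only [exec, inbox, Party.after]
    rw [hA.1, hB.1, h]

end Pool.Agent.LinOT
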