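import Pool.Agent.Lib.MP_ae38e0_lc.Model

set_option autoImplicit false

/-!
# A random function is one-way against linear queries
-/

namespace Pool.Agent.LinOT

open Classical

section

variable {K : Type} [Field K] {X : Type} [Fintype X] {m : ℕ}

/-- The linear functional with coefficients `c` of the truth table of `f : X → K^m`. -/
def lin (f : X → Fin m → K) : (X × Fin m → K) → K := fun c => ∑ p : X × Fin m, c p * f p.1 p.2

theorem lin_add (f h : X → Fin m → K) (c : X × Fin m → K) : lin (f + h) c = lin f c + lin h c := by
  unfold lin
  rw [← Finset.sum_add_distrib]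
  refine Finset.sum_congr rfl fun p _ => ?_
  simp [mul_add]

/-- The coefficient vectors which are supported on `{x} × Fin m`. -/
noncomputable def blk (x : X) (u : Fin m → K) : X × Fin m → K := fun p => if p.1 = x then u p.2 else 0

theorem lin_blk (f : X → Fin m → K) (x : X) (u : Fin m → K) :
    lin f (blk x u) = ∑ i, u i * f x i := by
  unfold lin blk
  rw [Fintype.sum_prod_type]
  rw [Finset.sum_eq_single x]
  · refine Finset.sum_congr rfl fun i _ => by simp
  · intro y _ hy
    exact Finset.sum_eq_zero fun i _ => by simp [hy]
  · intro h; exact absurd (Finset.mem_univ x) h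

/-- `x` is caught by the queries `W` if some nonzero vector supported at `x` is a combination of the
queries. -/
def Caught (W : List (X × Fin m → K)) (x : X) : Prop :=
  ∃ u : Fin m → K, u ≠ 0 ∧ blk x u ∈ Submodule.span K {c | c ∈ W}

/-- At most as many points are caught as there are queries. -/
theorem caught_card (W : List (X × Fin m → K)) :
    (Finset.univ.filter fun x => Caught W x).card ≤ W.length := by
  set C := Finset.univ.filter fun x => Caught W x with hC
  have hch : ∀ x : C, ∃ u : Fin m → K, u ≠ 0 ∧ blk x.1 u ∈ Submodule.span K {c | c ∈ W} := by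
    intro x
    exact (Finset.mem_filter.mp x.2).2
  choose u hu0 huW using hch
  have hli : LinearIndependent K (fun x : C => (⟨blk x.1 (u x), huW x⟩ :
      Submodule.span K {c | c ∈ W})) := by
    rw [Fintype.linearIndependent_iff]
    intro g hg x
    have h1 : ∑ y : C, g y • blk y.1 (u y) = 0 := by
      have := congrArg Subtype.val hg
      simpa using this
    have hne : ∃ i, u x i ≠ 0 := by
      by_contra hcon
      push Not at hcon
      exact hu0 x (funext hcon)
    obtain ⟨i, hi⟩ := hne
    have h2 := congrFun h1 (x.1, i)
    rw [Finset.sum_apply, Finset.sum_eq_single x] at h2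
    · simp only [blk, Pi.smul_apply, if_true, smul_eq_mul, Pi.zero_apply, mul_eq_zero] at h2
      exact h2.resolve_right hi
    · intro y _ hy
      have : ¬ (x.1 = y.1) := fun h => hy (Subtype.ext h.symm)
      simp [blk, this]
    · intro h; exact absurd (Finset.mem_univ x) h
  have h1 := hli.fintype_card_le_finrank
  have h2 : Module.finrank K (Submodule.span K {c | c ∈ W}) ≤ W.length := by
    have hset : ({c | c ∈ W} : Set (X × Fin m → K)) = (W.toFinset : Set _) := by
      ext c; simp
    rw [hset]
    exact (finrank_span_finset_le_card W.toFinset).trans (List.toFinset_card_le W)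
  simp only [Fintype.card_coe] at h1
  exact h1.trans h2

omit [Fintype X] in
theorem blk_add (x : X) (u v : Fin m → K) : blk x (u + v) = blk x u + blk x v := by
  funext p
  simp only [blk, Pi.add_apply]
  split_ifs <;> simp

omit [Fintype X] in
theorem blk_smul (x : X) (a : K) (u : Fin m → K) : blk x (a • u) = a • blk x u := by
  funext p
  simp only [blk, Pi.smul_apply]
  split_ifs <;> simp

/-- `blk` as a linear map. -/
noncomputable def blkL (x : X) : (Fin m → K) →ₗ[K] (X × Fin m → K) where
  toFun := blk x
  map_add' := blk_add x
  map_smul' := blk_smul x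

/-- Linear functionals are given by truth tables. -/
theorem lin_of_functional (φ : (X × Fin m → K) →ₗ[K] K) (c : X × Fin m → K) :
    lin (fun x i => φ (Pi.single (x, i) 1)) c = φ c := by
  unfold lin
  conv_rhs => rw [← Finset.univ_sum_single c]
  rw [map_sum]
  refine Finset.sum_congr rfl fun p _ => ?_
  have : (Pi.single p (c p) : X × Fin m → K) = c p • Pi.single p 1 := by
    rw [← Pi.single_smul]; simp
  rw [this, map_smul, smul_eq_mul]

/-- If `x` is not caught then the value at `x` can be shifted without changing the answers. -/
theorem exists_shift (W : List (X × Fin m → K)) (x : X) (hx : ¬ Caught W x) (δ : Fin m → K) :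
    ∃ h : X → Fin m → K, (∀ c ∈ W, lin h c = 0) ∧ h x = δ := by
  set S : Submodule K (X × Fin m → K) := Submodule.span K {c | c ∈ W} with hS
  have hinj : LinearMap.ker (S.mkQ ∘ₗ blkL (K := K) (m := m) x) = ⊥ := by
    rw [LinearMap.ker_eq_bot']
    intro u hu
    by_contra hu0
    apply hx
    refine ⟨u, hu0, ?_⟩
    rw [LinearMap.comp_apply, Submodule.mkQ_apply, Submodule.Quotient.mk_eq_zero] at hu
    exact hu
  obtain ⟨g, hg⟩ := LinearMap.exists_leftInverse_of_injective _ hinj
  set ψ : (Fin m → K) →ₗ[K] K := Fintype.linearCombination K δ with hψ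
  set φ : (X × Fin m → K) →ₗ[K] K := (ψ ∘ₗ g) ∘ₗ S.mkQ with hφ
  have hφblk : ∀ u : Fin m → K, φ (blk x u) = ψ u := by
    intro u
    have := LinearMap.congr_fun hg u
    simp only [LinearMap.comp_apply, LinearMap.id_apply] at this
    simp only [hφ, LinearMap.comp_apply]
    congr 1
  refine ⟨fun y i => φ (Pi.single (y, i) 1), ?_, ?_⟩
  · intro c hc
    rw [lin_of_functional]
    have : S.mkQ c = 0 := by
      rw [Submodule.mkQ_apply, Submodule.Quotient.mk_eq_zero]
      exact Submodule.subset_span hc
    simp [hφ, this]
  · funext i
    have h1 : (Pi.single (x, i) 1 : X × Fin m → K) = blk x (Pi.single i 1) := by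
      funext p
      simp only [blk, Pi.single_apply, Prod.ext_iff]
      by_cases h1 : p.1 = x <;> by_cases h2 : p.2 = i <;> simp [h1, h2]
    show φ (Pi.single (x, i) 1) = δ i
    rw [h1, hφblk, hψ, Fintype.linearCombination_apply]
    rw [Finset.sum_eq_single i]
    · simp
    · intro j _ hj; simp [Pi.single_apply, hj]
    · intro h; exact absurd (Finset.mem_univ i) h

/-- If all fibres of `val` on `P` inject into one another then they have the same size. -/
theorem card_fiber {F G : Type} [Fintype F] [Fintype G] (P : F → Prop) (val : F → G)
    (T : G → F → F) (hP : ∀ y f, P f → P (T y f)) (hval : ∀ y f, P f → val (T y f) = y)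
    (hinj : ∀ y f f', P f → P f' → val f = val f' → T y f = T y f' → f = f') (y : G) :
    Fintype.card G * (Finset.univ.filter fun f => P f ∧ val f = y).card =
      (Finset.univ.filter fun f => P f).card := by
  have hle : ∀ y1 y2 : G, (Finset.univ.filter fun f => P f ∧ val f = y1).card ≤
      (Finset.univ.filter fun f => P f ∧ val f = y2).card := by
    intro y1 y2
    apply Finset.card_le_card_of_injOn (T y2)
    · intro f hf
      simp only [Finset.coe_filter, Finset.mem_univ, true_and, Set.mem_ofPred_eq] at hf ⊢
      exact ⟨hP y2 f hf.1, hval y2 f hf.1⟩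
    · intro f hf f' hf' heq
      simp only [Finset.coe_filter, Finset.mem_univ, true_and, Set.mem_ofPred_eq] at hf hf'
      exact hinj y2 f f' hf.1 hf'.1 (hf.2.trans hf'.2.symm) heq
  have h1 : (Finset.univ.filter fun f => P f).card =
      ∑ y' : G, (Finset.univ.filter fun f => P f ∧ val f = y').card := by
    rw [Finset.card_eq_sum_card_fiberwise (f := val) (t := Finset.univ)
      (fun f _ => Finset.mem_coe.mpr (Finset.mem_univ _))]
    refine Finset.sum_congr rfl fun y' _ => ?_
    rw [Finset.filter_filter]
  rw [h1, Finset.sum_congr rfl (fun y' _ => le_antisymm (hle y' y) (hle y y')),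
    Finset.sum_const, Finset.card_univ, smul_eq_mul]

variable [Fintype K]

/-- The queries asked and the result depend only on the answers. -/
theorem shift_inv {α : Type} (c : Comp (X × Fin m → K) K α) (f h : X → Fin m → K)
    (hh : ∀ q ∈ c.asked (lin f), lin h q = 0) :
    c.asked (lin (f + h)) = c.asked (lin f) ∧ c.run (lin (f + h)) = c.run (lin f) := by
  have := c.run_congr (O := lin f) (O' := lin (f + h)) (fun q hq => by
    rw [lin_add, hh q hq, add_zero])
  exact ⟨this.2.symm, this.1.symm⟩

/-- If the output of `c` is not caught then the value of `f` at the output is uniform. -/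
theorem balanced (c : Comp (X × Fin m → K) K X) (y : Fin m → K) :
    Fintype.card K ^ m * (Finset.univ.filter fun f : X → Fin m → K =>
      ¬ Caught (c.asked (lin f)) (c.run (lin f)) ∧ f (c.run (lin f)) = y).card =
    (Finset.univ.filter fun f : X → Fin m → K =>
      ¬ Caught (c.asked (lin f)) (c.run (lin f))).card := by
  set T : (Fin m → K) → (X → Fin m → K) → (X → Fin m → K) := fun y' f =>
    if h : ¬ Caught (c.asked (lin f)) (c.run (lin f)) then
      f + (exists_shift (c.asked (lin f)) (c.run (lin f)) h (y' - f (c.run (lin f)))).choose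
    else f with hT
  have hTspec : ∀ y' f (h : ¬ Caught (c.asked (lin f)) (c.run (lin f))),
      c.asked (lin (T y' f)) = c.asked (lin f) ∧ c.run (lin (T y' f)) = c.run (lin f) ∧
      T y' f (c.run (lin f)) = y' := by
    intro y' f h
    have hs := (exists_shift (c.asked (lin f)) (c.run (lin f)) h
      (y' - f (c.run (lin f)))).choose_spec
    have h1 : T y' f = f + (exists_shift (c.asked (lin f)) (c.run (lin f)) h
      (y' - f (c.run (lin f)))).choose := by
      simp only [hT]; rw [dif_pos h]
    have h2 := shift_inv c f _ hs.1
    rw [h1]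
    refine ⟨h2.1, h2.2, ?_⟩
    rw [Pi.add_apply, hs.2]
    abel
  have := card_fiber (F := X → Fin m → K) (G := Fin m → K)
    (fun f => ¬ Caught (c.asked (lin f)) (c.run (lin f))) (fun f => f (c.run (lin f))) T
    (fun y' f hf => by
      show ¬ Caught _ _
      rw [(hTspec y' f hf).1, (hTspec y' f hf).2.1]; exact hf)
    (fun y' f hf => by
      show T y' f (c.run (lin (T y' f))) = y'
      rw [(hTspec y' f hf).2.1]; exact (hTspec y' f hf).2.2)
    (fun y' f f' hf hf' hv heq => by
      have ha : c.asked (lin f) = c.asked (lin f') := by
        rw [← (hTspec y' f hf).1, ← (hTspec y' f' hf').1, heq]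
      have hr : c.run (lin f) = c.run (lin f') := by
        rw [← (hTspec y' f hf).2.1, ← (hTspec y' f' hf').2.1, heq]
      simp only [hT] at heq
      rw [dif_pos hf, dif_pos hf'] at heq
      have hsame : ∀ (W W' : List (X × Fin m → K)) (x x' : X) (d d' : Fin m → K)
          (h : ¬ Caught W x) (h' : ¬ Caught W' x'), W = W' → x = x' → d = d' →
          (exists_shift W x h d).choose = (exists_shift W' x' h' d').choose := by
        intro W W' x x' d d' h h' h1 h2 h3
        subst h1; subst h2; subst h3; rfl
      have hv' : y' - f (c.run (lin f)) = y' - f' (c.run (lin f')) := by rw [hv]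
      rw [hsame _ _ _ _ _ _ hf hf' ha hr hv'] at heq
      exact add_right_cancel heq) y
  have hc : Fintype.card (Fin m → K) = Fintype.card K ^ m := by simp
  rw [hc] at this
  convert this using 3
  ext f; simp only [Finset.mem_filter]

/-- Number of pairs (function, caught point with value `y`). -/
theorem caught_count {α : Type} (c : Comp (X × Fin m → K) K α) (q : ℕ)
    (hq : ∀ O, (c.asked O).length ≤ q) (y : Fin m → K) :
    Fintype.card K ^ m * (∑ x : X, (Finset.univ.filter fun f : X → Fin m → K =>
      Caught (c.asked (lin f)) x ∧ f x = y).card) ≤ q * Fintype.card (X → Fin m → K) := by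
  have hx : ∀ x : X, Fintype.card K ^ m * (Finset.univ.filter fun f : X → Fin m → K =>
      Caught (c.asked (lin f)) x ∧ f x = y).card =
      (Finset.univ.filter fun f : X → Fin m → K => Caught (c.asked (lin f)) x).card := by
    intro x
    have h1 := balanced (c.bind fun _ => .ret x) y
    have h2 := balanced (Comp.ret x : Comp (X × Fin m → K) K X) y
    simp only [Comp.asked_bind, Comp.run_bind, Comp.run_ret, Comp.asked_ret, List.append_nil] at h1 h2
    have hno : ¬ Caught ([] : List (X × Fin m → K)) x := by
      rintro ⟨u, hu, hmem⟩
      simp only [List.not_mem_nil, Set.ofPred_false, Submodule.span_empty, Submodule.mem_bot] at hmem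
      apply hu
      funext i
      have := congrFun hmem (x, i)
      simpa [blk] using this
    simp only [hno, not_false_eq_true, true_and, Finset.filter_true, Finset.card_univ] at h2
    have h3 : (Finset.univ.filter fun f : X → Fin m → K => f x = y).card =
        (Finset.univ.filter fun f : X → Fin m → K => Caught (c.asked (lin f)) x ∧ f x = y).card +
        (Finset.univ.filter fun f : X → Fin m → K => ¬ Caught (c.asked (lin f)) x ∧ f x = y).card := by
      rw [← Finset.card_union_of_disjoint]
      · congr 1
        ext f
        simp only [Finset.mem_filter, Finset.mem_univ, true_and, Finset.mem_union]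
        tauto
      · rw [Finset.disjoint_filter]
        rintro f _ ⟨h, _⟩ ⟨h', _⟩
        exact h' h
    have h4 : (Finset.univ : Finset (X → Fin m → K)).card =
        (Finset.univ.filter fun f : X → Fin m → K => Caught (c.asked (lin f)) x).card +
        (Finset.univ.filter fun f : X → Fin m → K => ¬ Caught (c.asked (lin f)) x).card := by
      rw [Finset.card_filter_add_card_filter_not]
    rw [Finset.card_univ] at h4
    have h5 : Fintype.card K ^ m * (Finset.univ.filter fun f : X → Fin m → K => f x = y).card =
      Fintype.card (X → Fin m → K) := by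
      convert h2 using 3
    rw [h3, mul_add] at h5
    omega
  rw [Finset.mul_sum, Finset.sum_congr rfl (fun x _ => hx x)]
  have hsum : ∑ x : X, (Finset.univ.filter fun f : X → Fin m → K => Caught (c.asked (lin f)) x).card =
      ∑ f : X → Fin m → K, (Finset.univ.filter fun x : X => Caught (c.asked (lin f)) x).card := by
    simp only [Finset.card_filter]
    exact Finset.sum_comm
  rw [hsum]
  calc ∑ f : X → Fin m → K, (Finset.univ.filter fun x : X => Caught (c.asked (lin f)) x).card
      ≤ ∑ _f : X → Fin m → K, q := Finset.sum_le_sum fun f _ =>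
        (caught_card _).trans (hq (lin f))
    _ = q * Fintype.card (X → Fin m → K) := by
        rw [Finset.sum_const, Finset.card_univ, smul_eq_mul, mul_comm]

/-- For a fixed `y`, few functions are inverted at `y`. -/
theorem invert_fixed (c : Comp (X × Fin m → K) K X) (q : ℕ)
    (hq : ∀ O, (c.asked O).length ≤ q) (y : Fin m → K) :
    Fintype.card K ^ m * (Finset.univ.filter fun f : X → Fin m → K =>
      f (c.run (lin f)) = y).card ≤ (q + 1) * Fintype.card (X → Fin m → K) := by
  have h1 := balanced c y
  have h2 := caught_count c q hq y
  have h3 : (Finset.univ.filter fun f : X → Fin m → K => f (c.run (lin f)) = y).card ≤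
      (Finset.univ.filter fun f : X → Fin m → K =>
        ¬ Caught (c.asked (lin f)) (c.run (lin f)) ∧ f (c.run (lin f)) = y).card +
      ∑ x : X, (Finset.univ.filter fun f : X → Fin m → K =>
        Caught (c.asked (lin f)) x ∧ f x = y).card := by
    have hsub : (Finset.univ.filter fun f : X → Fin m → K => f (c.run (lin f)) = y) ⊆
        (Finset.univ.filter fun f : X → Fin m → K =>
          ¬ Caught (c.asked (lin f)) (c.run (lin f)) ∧ f (c.run (lin f)) = y) ∪
        Finset.univ.biUnion (fun x : X => Finset.univ.filter fun f : X → Fin m → K =>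
          Caught (c.asked (lin f)) x ∧ f x = y) := by
      intro f hf
      simp only [Finset.mem_filter, Finset.mem_univ, true_and, Finset.mem_union,
        Finset.mem_biUnion] at hf ⊢
      by_cases hC : Caught (c.asked (lin f)) (c.run (lin f))
      · exact Or.inr ⟨_, hC, hf⟩
      · exact Or.inl ⟨hC, hf⟩
    exact (Finset.card_le_card hsub).trans ((Finset.card_union_le _ _).trans
      (Nat.add_le_add_left Finset.card_biUnion_le _))
  have h4 : (Finset.univ.filter fun f : X → Fin m → K =>
      ¬ Caught (c.asked (lin f)) (c.run (lin f))).card ≤ Fintype.card (X → Fin m → K) :=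
    (Finset.card_filter_le _ _).trans (le_of_eq Finset.card_univ)
  calc _ ≤ Fintype.card K ^ m * _ := Nat.mul_le_mul_left _ h3
    _ = _ := mul_add _ _ _
    _ ≤ Fintype.card (X → Fin m → K) + q * Fintype.card (X → Fin m → K) := by
        rw [h1]; exact Nat.add_le_add h4 h2
    _ = _ := by ring

/-- Collisions: pairs of distinct points with the same value. -/
theorem collision (x x' : X) (hne : x ≠ x') :
    Fintype.card K ^ m * (Finset.univ.filter fun f : X → Fin m → K => f x' = f x).card =
      Fintype.card (X → Fin m → K) := by
  have := card_fiber (F := X → Fin m → K) (G := Fin m → K) (fun _ => True)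
    (fun f => f x' - f x) (fun y f => Function.update f x' (y + f x)) (fun _ _ _ => trivial)
    (fun y f _ => by simp [Function.update_of_ne hne])
    (fun y f f' _ _ hv heq => by
      funext z
      have hxx : f x = f' x := by
        have := congrFun heq x
        simpa [Function.update_of_ne hne] using this
      by_cases hz : z = x'
      · subst hz
        have : f z - f x = f' z - f' x := hv
        rw [hxx] at this
        exact sub_left_injective this
      · have := congrFun heq z
        simpa [Function.update_of_ne hz] using this) 0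
  have hc : Fintype.card (Fin m → K) = Fintype.card K ^ m := by simp
  rw [hc] at this
  simp only [true_and, sub_eq_zero, Finset.filter_true, Finset.card_univ] at this
  convert this using 3

/-- **One-wayness.**  A random function cannot be inverted with few linear queries. -/
theorem oneway (I : (Fin m → K) → Comp (X × Fin m → K) K X) (q : ℕ)
    (hq : ∀ y O, ((I y).asked O).length ≤ q) :
    Fintype.card K ^ m * (Finset.univ.filter fun p : (X → Fin m → K) × X =>
      p.1 ((I (p.1 p.2)).run (lin p.1)) = p.1 p.2).card ≤
    ((q + 1) * Fintype.card K ^ m + Fintype.card X ^ 2) * Fintype.card (X → Fin m → K) := by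
  set N := Fintype.card (X → Fin m → K) with hN
  set S := Finset.univ.filter fun p : (X → Fin m → K) × X =>
      p.1 ((I (p.1 p.2)).run (lin p.1)) = p.1 p.2 with hS
  set S1 := S.filter fun p => (I (p.1 p.2)).run (lin p.1) = p.2 with hS1
  set S2 := S.filter fun p => ¬ (I (p.1 p.2)).run (lin p.1) = p.2 with hS2
  have hcard : S.card = S1.card + S2.card := by
    rw [hS1, hS2, Finset.card_filter_add_card_filter_not]
  have h1 : S1.card ≤ ∑ y : Fin m → K,
      (Finset.univ.filter fun f : X → Fin m → K => f ((I y).run (lin f)) = y).card := by
    rw [← Finset.card_sigma]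
    apply Finset.card_le_card_of_injOn (fun p => (⟨p.1 p.2, p.1⟩ : (_ : Fin m → K) × (X → Fin m → K)))
    · intro p hp
      simp only [hS1, hS, Finset.coe_filter, Finset.mem_filter, Finset.mem_univ, true_and,
        Set.mem_ofPred_eq] at hp
      simp only [Finset.coe_sigma, Set.mem_sigma_iff, Finset.mem_coe, Finset.mem_univ, true_and,
        Finset.mem_filter]
      exact hp.1
    · intro p hp p' hp' heq
      simp only [hS1, hS, Finset.coe_filter, Finset.mem_filter, Finset.mem_univ, true_and,
        Set.mem_ofPred_eq] at hp hp'
      simp only [Sigma.mk.injEq, heq_eq_eq] at heq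
      refine Prod.ext heq.2 ?_
      rw [← hp.2, ← hp'.2, heq.1, heq.2]
  have h2 : S2.card ≤ ∑ z ∈ Finset.univ.filter (fun z : X × X => z.1 ≠ z.2),
      (Finset.univ.filter fun f : X → Fin m → K => f z.2 = f z.1).card := by
    rw [← Finset.card_sigma]
    apply Finset.card_le_card_of_injOn (fun p =>
      (⟨(p.2, (I (p.1 p.2)).run (lin p.1)), p.1⟩ : (_ : X × X) × (X → Fin m → K)))
    · intro p hp
      simp only [hS2, hS, Finset.coe_filter, Finset.mem_filter, Finset.mem_univ, true_and,
        Set.mem_ofPred_eq] at hp
      simp only [Finset.coe_sigma, Set.mem_sigma_iff, Finset.mem_coe, Finset.mem_univ, true_and,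
        Finset.mem_filter]
      exact ⟨fun h => hp.2 h.symm, hp.1⟩
    · intro p hp p' hp' heq
      simp only [Sigma.mk.injEq, heq_eq_eq, Prod.mk.injEq] at heq
      exact Prod.ext heq.2 heq.1.1
  have h3 : Fintype.card K ^ m * S1.card ≤ Fintype.card K ^ m * ((q + 1) * N) := by
    calc Fintype.card K ^ m * S1.card ≤ Fintype.card K ^ m * ∑ y : Fin m → K,
          (Finset.univ.filter fun f : X → Fin m → K => f ((I y).run (lin f)) = y).card :=
          Nat.mul_le_mul_left _ h1
      _ = ∑ y : Fin m → K, Fintype.card K ^ m *
          (Finset.univ.filter fun f : X → Fin m → K => f ((I y).run (lin f)) = y).card := by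
          rw [Finset.mul_sum]
      _ ≤ ∑ _y : Fin m → K, (q + 1) * N :=
          Finset.sum_le_sum fun y _ => invert_fixed (I y) q (hq y) y
      _ = Fintype.card K ^ m * ((q + 1) * N) := by
          rw [Finset.sum_const, Finset.card_univ, smul_eq_mul]; simp
  have h4 : Fintype.card K ^ m * S2.card ≤ Fintype.card X ^ 2 * N := by
    calc Fintype.card K ^ m * S2.card ≤ Fintype.card K ^ m *
          ∑ z ∈ Finset.univ.filter (fun z : X × X => z.1 ≠ z.2),
          (Finset.univ.filter fun f : X → Fin m → K => f z.2 = f z.1).card :=
          Nat.mul_le_mul_left _ h2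
      _ = ∑ z ∈ Finset.univ.filter (fun z : X × X => z.1 ≠ z.2), Fintype.card K ^ m *
          (Finset.univ.filter fun f : X → Fin m → K => f z.2 = f z.1).card := by
          rw [Finset.mul_sum]
      _ = ∑ z ∈ Finset.univ.filter (fun z : X × X => z.1 ≠ z.2), N := by
          refine Finset.sum_congr rfl fun z hz => ?_
          exact collision z.1 z.2 (Finset.mem_filter.mp hz).2
      _ ≤ ∑ _z : X × X, N := Finset.sum_le_sum_of_subset (Finset.filter_subset _ _)
      _ = Fintype.card X ^ 2 * N := by
          rw [Finset.sum_const, Finset.card_univ, smul_eq_mul, Fintype.card_prod, sq]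
  calc Fintype.card K ^ m * S.card = Fintype.card K ^ m * S1.card + Fintype.card K ^ m * S2.card := by
        rw [hcard, mul_add]
    _ ≤ Fintype.card K ^ m * ((q + 1) * N) + Fintype.card X ^ 2 * N := Nat.add_le_add h3 h4
    _ = ((q + 1) * Fintype.card K ^ m + Fintype.card X ^ 2) * N := by ring

end

end Pool.Agent.LinOT
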