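import Pool.Agent.Lib.MP_ae38e0_lc.Attack
import Pool.Agent.Lib.MP_ae38e0_lc.OneWay

set_option autoImplicit false

/-!
# Zero-error oblivious transfer over linear oracles
-/

namespace Pool.Agent.LinOT

open Classical

/-- Probability of an event for a uniformly random element of a finite set. -/
noncomputable def prob {α : Type} (p : α → Prop) : ℝ :=
  (Nat.card {a // p a} : ℝ) / Nat.card α

section prob

variable {α : Type} [Fintype α]

theorem prob_eq (p : α → Prop) [DecidablePred p] :
    prob p = ((Finset.univ.filter p).card : ℝ) / Fintype.card α := by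
  unfold prob
  rw [Nat.card_eq_fintype_card, Nat.card_eq_fintype_card, Fintype.card_subtype]

theorem prob_mono {p r : α → Prop} (h : ∀ a, p a → r a) : prob p ≤ prob r := by
  rw [prob_eq, prob_eq]
  apply div_le_div_of_nonneg_right _ (Nat.cast_nonneg _)
  exact_mod_cast Finset.card_le_card (Finset.monotone_filter_right _ (fun a _ => h a))

theorem prob_not [Nonempty α] (p : α → Prop) : prob (fun a => ¬ p a) = 1 - prob p := by
  rw [prob_eq, prob_eq]
  have h : (Finset.univ.filter p).card + (Finset.univ.filter fun a => ¬ p a).card =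
      Fintype.card α := by
    rw [Finset.card_filter_add_card_filter_not, Finset.card_univ]
  have hpos : (0 : ℝ) < Fintype.card α := by exact_mod_cast Fintype.card_pos
  have h' : ((Finset.univ.filter p).card : ℝ) + ((Finset.univ.filter fun a => ¬ p a).card : ℝ) =
      Fintype.card α := by exact_mod_cast h
  rw [eq_sub_iff_add_eq, ← add_div, add_comm, h', div_self hpos.ne']

end prob

/-- One-wayness in terms of probabilities. -/
theorem oneway_prob {K X : Type} [Field K] [Fintype K] [Fintype X] [Nonempty X] {m : ℕ} (q : ℕ)
    (I : (Fin m → K) → Comp (X × Fin m → K) K X)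
    (hq : ∀ y O, ((I y).asked O).length ≤ q) :
    prob (fun p : (X → Fin m → K) × X => p.1 ((I (p.1 p.2)).run (lin p.1)) = p.1 p.2) ≤
      ((q : ℝ) + 1) / Fintype.card X + Fintype.card X / (Fintype.card K : ℝ) ^ m := by
  have h := oneway I q hq
  rw [prob_eq]
  have hX : (0 : ℝ) < Fintype.card X := by exact_mod_cast Fintype.card_pos
  have hK : (0 : ℝ) < (Fintype.card K : ℝ) ^ m := by
    have : (0 : ℝ) < Fintype.card K := by exact_mod_cast Fintype.card_pos
    positivity
  have hN : (0 : ℝ) < Fintype.card (X → Fin m → K) := by exact_mod_cast Fintype.card_pos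
  set Sc := (Finset.univ.filter fun p : (X → Fin m → K) × X =>
      p.1 ((I (p.1 p.2)).run (lin p.1)) = p.1 p.2).card with hSc
  have h' : (Fintype.card K : ℝ) ^ m * (Sc : ℝ) ≤
      (((q : ℝ) + 1) * (Fintype.card K : ℝ) ^ m + (Fintype.card X : ℝ) ^ 2) *
        Fintype.card (X → Fin m → K) := by exact_mod_cast h
  rw [Fintype.card_prod, Nat.cast_mul, div_le_iff₀ (by positivity)]
  have e : (((q : ℝ) + 1) / Fintype.card X + Fintype.card X / (Fintype.card K : ℝ) ^ m) *
      ((Fintype.card (X → Fin m → K) : ℝ) * Fintype.card X) =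
      (((q : ℝ) + 1) * (Fintype.card K : ℝ) ^ m + (Fintype.card X : ℝ) ^ 2) *
        Fintype.card (X → Fin m → K) / (Fintype.card K : ℝ) ^ m := by
    field_simp
  rw [e, le_div_iff₀ hK]
  linarith

/-- The oracles given by truth tables form a linear space. -/
theorem lin_space (K X : Type) [Field K] [Fintype X] (m : ℕ) :
    ∃ L : Submodule K ((X × Fin m → K) → K), ∀ O, O ∈ L ↔ ∃ f : X → Fin m → K, O = lin f := by
  refine ⟨{ carrier := {O | ∃ f : X → Fin m → K, O = lin f}, add_mem' := ?_, zero_mem' := ?_,
            smul_mem' := ?_ }, fun O => Iff.rfl⟩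
  · rintro _ _ ⟨f, rfl⟩ ⟨g, rfl⟩
    exact ⟨f + g, funext fun c => (lin_add f g c).symm⟩
  · exact ⟨0, funext fun c => by simp [lin]⟩
  · rintro a _ ⟨f, rfl⟩
    refine ⟨fun x i => a * f x i, funext fun c => ?_⟩
    simp only [lin, Pi.smul_apply, smul_eq_mul, Finset.mul_sum]
    exact Finset.sum_congr rfl fun p _ => by ring

/-- Values of multilinear extensions are linear queries. -/
theorem multilinear_query (K R : Type) [Field K] [CommRing R] [Algebra K R] (n m : ℕ)
    (z : Fin n → R) (φ : R →ₗ[K] K) (i : Fin m) :
    ∃ c : (Fin n → Bool) × Fin m → K, ∀ f : (Fin n → Bool) → Fin m → K,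
      φ (∑ x, algebraMap K R (f x i) * ∏ j, (if x j then z j else 1 - z j)) = lin f c := by
  refine ⟨fun p => if p.2 = i then φ (∏ j, (if p.1 j then z j else 1 - z j)) else 0, fun f => ?_⟩
  rw [map_sum]
  unfold lin
  rw [Fintype.sum_prod_type]
  refine Finset.sum_congr rfl fun x _ => ?_
  rw [Finset.sum_eq_single i]
  · simp only [if_true]
    rw [← Algebra.smul_def, map_smul, smul_eq_mul, mul_comm]
  · intro j _ hj; simp [hj]
  · intro h; exact absurd (Finset.mem_univ i) h

section OT

variable {K Q M : Type} [Field K]

/-- The transcript of an execution of a protocol with receiver `R` (choice bit `c`) and sender `S`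
(input bits `b0`, `b1`); `τ` is the pair of the random tapes. -/
def transcript (R : Party Q K M Bool) (S : Party Q K M (Bool × Bool)) (n : ℕ) (m0 : M) (O : Q → K)
    (c b0 b1 : Bool) (τ : R.Tape × S.Tape) : List (M × M) :=
  (exec R S O n (R.init c τ.1) (S.init (b0, b1) τ.2) m0).1

/-- The output of the receiver in such an execution. -/
def output (R : Party Q K M Bool) (S : Party Q K M (Bool × Bool)) (out : R.St → Option Bool)
    (n : ℕ) (m0 : M) (O : Q → K) (c b0 b1 : Bool) (τ : R.Tape × S.Tape) : Option Bool :=
  out (exec R S O n (R.init c τ.1) (S.init (b0, b1) τ.2) m0).2.1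

theorem ot_attack (L : Submodule K (Q → K)) (R : Party Q K M Bool) (S : Party Q K M (Bool × Bool))
    [Fintype R.Tape] [Fintype S.Tape] [Nonempty R.Tape] [Nonempty S.Tape]
    (out : R.St → Option Bool) (m0 : M) (n nR nS : ℕ)
    (hR : ∀ O ∈ L, ∀ c τ l, l.length = n → (R.asked O (R.init c τ) l).length ≤ nR)
    (hS : ∀ O ∈ L, ∀ b τ l, l.length = n → (S.asked O (S.init b τ) l).length ≤ nS)
    (hzero : ∀ O ∈ L, ∀ c b0 b1 τ, output R S out n m0 O c b0 b1 τ = none ∨
      output R S out n m0 O c b0 b1 τ = some (if c then b1 else b0)) :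
    ∃ E : List (M × M) → Comp Q K Bool,
      (∀ t O, t.length = n → ((E t).asked O).length ≤ (2 * nS + 1) * nR) ∧
      ∀ O ∈ L, ∀ γ : ℝ, (∀ b0 b1, prob (fun τ => output R S out n m0 O false b0 b1 τ = none) ≤ γ) →
        ∀ b1, 1 - 2 * γ ≤
          |prob (fun τ => (E (transcript R S n m0 O true false b1 τ)).run O ≠ false) -
            prob (fun τ => (E (transcript R S n m0 O false false b1 τ)).run O ≠ false)| +
          |prob (fun τ => (E (transcript R S n m0 O true true b1 τ)).run O ≠ true) -
            prob (fun τ => (E (transcript R S n m0 O false true b1 τ)).run O ≠ true)| +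
          |prob (fun τ => (E (transcript R S n m0 O true true b1 τ)).run O = true) -
            prob (fun τ => (E (transcript R S n m0 O true false b1 τ)).run O = true)| := by
  obtain ⟨E, hE1, hE2⟩ := attack L R out m0 S n
    (fun c b _ => some (if c then b.2 else b.1)) nR nS hR hS (by
      intro O hO c b τR τS g v hg hv
      have := hzero O hO c b.1 b.2 (τR, τS)
      simp only [output] at this
      rw [hg] at this
      simp only [Option.some.injEq, reduceCtorEq, false_or] at this hv
      rw [this, hv])
  refine ⟨fun t => (E false t).bind fun g => .ret (g.getD false), ?_, ?_⟩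
  · intro t O ht
    simp only [Comp.asked_bind, Comp.asked_ret, List.append_nil]
    exact hE1 false t O ht
  · intro O hO γ hγ b1
    simp only [Comp.run_bind, Comp.run_ret]
    have hgood : ∀ b0, prob (fun τ =>
        ((E false (transcript R S n m0 O false b0 b1 τ)).run O).getD false ≠ b0) ≤ γ := by
      intro b0
      refine le_trans (prob_mono ?_) (hγ b0 b1)
      intro τ hτ
      by_contra hne
      have h0 := hzero O hO false b0 b1 τ
      rcases h0 with h0 | h0
      · exact hne h0
      · apply hτ
        have := hE2 O hO false (b0, b1) τ.1 τ.2 b0 b0 (by simpa [output] using h0) (by simp)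
        unfold transcript
        rw [this]; rfl
    have hf := hgood false
    have ht := hgood true
    set e0 := prob (fun τ => ((E false (transcript R S n m0 O true false b1 τ)).run O).getD false ≠
      false) with he0
    set e1 := prob (fun τ => ((E false (transcript R S n m0 O true true b1 τ)).run O).getD false ≠
      true) with he1
    have h3 : prob (fun τ => ((E false (transcript R S n m0 O true true b1 τ)).run O).getD false =
        true) = 1 - e1 := by
      rw [he1, prob_not]; ring
    have h4 : prob (fun τ => ((E false (transcript R S n m0 O true false b1 τ)).run O).getD false =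
        true) = e0 := by
      rw [he0]; congr 1; funext τ; simp
    rw [h3, h4]
    have a1 := le_abs_self (e0 - prob (fun τ =>
      ((E false (transcript R S n m0 O false false b1 τ)).run O).getD false ≠ false))
    have a2 := le_abs_self (e1 - prob (fun τ =>
      ((E false (transcript R S n m0 O false true b1 τ)).run O).getD false ≠ true))
    have a3 := le_abs_self (1 - e1 - e0)
    linarith

/-- The eavesdropper against zero-error key agreement. -/
theorem ka_attack {σ : Type} (L : Submodule K (Q → K)) (A B : Party Q K M Unit)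
    (keyA : A.St → Option σ) (keyB : B.St → Option σ) (m0 : M) (n nA nB : ℕ)
    (hA : ∀ O ∈ L, ∀ τ l, l.length = n → (A.asked O (A.init () τ) l).length ≤ nA)
    (hB : ∀ O ∈ L, ∀ τ l, l.length = n → (B.asked O (B.init () τ) l).length ≤ nB)
    (hzero : ∀ O ∈ L, ∀ τA τB g v,
      keyA (exec A B O n (A.init () τA) (B.init () τB) m0).2.1 = some g →
      keyB (exec A B O n (A.init () τA) (B.init () τB) m0).2.2 = some v → g = v) :
    ∃ E : List (M × M) → Comp Q K (Option σ),
      (∀ t O, t.length = n → ((E t).asked O).length ≤ (2 * nB + 1) * nA) ∧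
      ∀ O ∈ L, ∀ τA τB g v,
        keyA (exec A B O n (A.init () τA) (B.init () τB) m0).2.1 = some g →
        keyB (exec A B O n (A.init () τA) (B.init () τB) m0).2.2 = some v →
        (E (exec A B O n (A.init () τA) (B.init () τB) m0).1).run O = some v := by
  obtain ⟨E, hE1, hE2⟩ := attack L A keyA m0 B n (fun _ _ s => keyB s) nA nB
    (fun O hO x τ l hl => hA O hO τ l hl) (fun O hO y τ l hl => hB O hO τ l hl)
    (fun O hO x y τA τB g v hg hv => hzero O hO τA τB g v hg hv)
  exact ⟨E (), fun t O ht => hE1 () t O ht, fun O hO τA τB g v hg hv =>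
    hE2 O hO () () τA τB g v hg hv⟩

end OT

end Pool.Agent.LinOT
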