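import Pool.Agent.Lib.MP_ae38e0_lc.Any.Num
import Pool.Agent.Lib.MP_ae38e0_lc.Attack

set_option autoImplicit false

/-!
# Perfectly correct oblivious transfer: no bound on the number of queries
-/

namespace Pool.Agent.LinOT

open Classical

variable {K Q M X : Type}

/-- The party `P` with another set of inputs. -/
def Party.reinit (P : Party Q K M X) (Y : Type) (g : Y → X) : Party Q K M Y where
  Tape := P.Tape
  St := P.St
  init y τ := P.init (g y) τ
  step := P.step

theorem Party.asked_reinit (P : Party Q K M X) (Y : Type) (g : Y → X) (O : Q → K)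
    (l : List (M × M)) : ∀ s : P.St, (P.reinit Y g).asked O s l = P.asked O s l := by
  induction l with
  | nil => intro s; rfl
  | cons p l ih =>
    intro s
    obtain ⟨m, a⟩ := p
    have h := ih ((P.step s m).run O).1
    simp only [Party.asked]
    exact congrArg (fun x => (P.step s m).asked O ++ x) h

theorem exec_reinit {Y X' Y' : Type} (A : Party Q K M X) (B : Party Q K M Y) (g : X' → X)
    (g' : Y' → Y) (O : Q → K) (n : ℕ) : ∀ (a : A.St) (b : B.St) (m : M),
      exec (A.reinit X' g) (B.reinit Y' g') O n a b m = exec A B O n a b m := by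
  induction n with
  | zero => intro a b m; rfl
  | succ n ih =>
    intro a b m
    have h := ih ((A.step a m).run O).1 ((B.step b ((A.step a m).run O).2).run O).1
      ((B.step b ((A.step a m).run O).2).run O).2
    simp only [exec]
    exact congrArg (fun r : List (M × M) × A.St × B.St =>
      (((((A.step a m).run O).2, ((B.step b ((A.step a m).run O).2).run O).2) :: r.1, r.2.1, r.2.2) :
        List (M × M) × A.St × B.St)) h

/-- **The attack on perfectly correct oblivious transfer** with any number of rounds. -/
theorem ot_perfect [Field K] [Fintype K] (L : Submodule K (Q → K)) [Finite L]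
    (R : Party Q K M Bool) (S : Party Q K M (Bool × Bool)) [Fintype R.Tape] [Fintype S.Tape]
    [Nonempty R.Tape] [Nonempty S.Tape] (out : R.St → Option Bool) (m0 : M) (N nR nS : ℕ)
    (hR : limited L R false N nR) (hS : ∀ b, limited L S b N nS) (b1 : Bool)
    (hδ : ∀ b0, err L R S out N m0 false b0 b1 ≤ 0) :
    ∃ E : List (M × M) → Comp Q K Bool,
      (∀ t O, ((E t).asked O).length ≤ (2 * nS + 1) * nR) ∧
      1 ≤ advSum L R S N m0 E b1 := by
  have : Fintype L := Fintype.ofFinite L
  have : Nonempty L := ⟨0⟩
  have hout : ∀ O ∈ L, ∀ (b0 : Bool) (τR : R.Tape) (τS : S.Tape),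
      out (exec R S O N (R.init false τR) (S.init (b0, b1) τS) m0).2.1 = some b0 := by
    intro O hO b0 τR τS
    by_contra hne
    have h := hδ b0
    unfold err at h
    rw [prob_eq] at h
    have h1 : (0 : ℝ) < ((Finset.univ.filter fun w : L × R.Tape × S.Tape =>
        output R S out N m0 (w.1 : Q → K) false b0 b1 w.2 ≠
          some (if false then b1 else b0)).card : ℝ) := by
      have h2 : (⟨⟨O, hO⟩, τR, τS⟩ : L × R.Tape × S.Tape) ∈
          (Finset.univ.filter fun w : L × R.Tape × S.Tape =>
          output R S out N m0 (w.1 : Q → K) false b0 b1 w.2 ≠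
            some (if false then b1 else b0)) := by
        rw [Finset.mem_filter]
        exact ⟨Finset.mem_univ _, hne⟩
      exact_mod_cast Finset.card_pos.2 ⟨_, h2⟩
    have h3 : (0 : ℝ) < (Fintype.card (L × R.Tape × S.Tape) : ℝ) := by
      exact_mod_cast Fintype.card_pos
    have h4 := div_pos h1 h3
    linarith
  have hex : ∀ (O : Q → K) (b0 : Bool) (τR : R.Tape) (τS : S.Tape),
      exec (R.reinit Unit fun _ => false) (S.reinit Bool fun b0 => (b0, b1)) O N
        (R.init false τR) (S.init (b0, b1) τS) m0 =
        exec R S O N (R.init false τR) (S.init (b0, b1) τS) m0 := fun O b0 τR τS =>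
    exec_reinit R S (fun _ : Unit => false) (fun b0 => (b0, b1)) O N _ _ m0
  obtain ⟨E, hE1, hE2⟩ := attack L (R.reinit Unit fun _ => false) out m0
    (S.reinit Bool fun b0 => (b0, b1)) N (fun _ b0 _ => some b0) nR nS
    (fun O hO x τ l hl =>
      (congrArg List.length (Party.asked_reinit R Unit (fun _ => false) O l
        (R.init false τ))).le.trans (hR O hO τ l hl))
    (fun O hO y τ l hl =>
      (congrArg List.length (Party.asked_reinit S Bool (fun b0 => (b0, b1)) O l
        (S.init (y, b1) τ))).le.trans (hS _ O hO τ l hl))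
    (fun O hO x y τA τB g v hg hv => by
      have h0 := congrArg (fun r : List (M × M) × R.St × S.St => out r.2.1) (hex O y τA τB)
      have h2 : some g = some y := hg.symm.trans (h0.trans (hout O hO y τA τB))
      rw [Option.some.injEq] at h2 hv
      rw [h2, hv])
  refine ⟨fun t => if t.length = N then (E () t).bind fun g => .ret (g.getD false) else .ret false,
    ?_, ?_⟩
  · intro t O
    by_cases ht : t.length = N
    · simp only [if_pos ht, Comp.asked_bind, Comp.asked_ret, List.append_nil]
      exact hE1 () t O ht
    · simp [if_neg ht]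
  · have hrun : ∀ (w : L × R.Tape × S.Tape) (b0 : Bool),
        ((fun t : List (M × M) => if t.length = N then
          (E () t).bind fun g => (Comp.ret (g.getD false) : Comp Q K Bool) else .ret false)
          (transcript R S N m0 (w.1 : Q → K) false b0 b1 w.2)).run (w.1 : Q → K) = b0 := by
      intro w b0
      have h0 := congrArg (fun r : List (M × M) × R.St × S.St => out r.2.1)
        (hex (w.1 : Q → K) b0 w.2.1 w.2.2)
      have h1 := hE2 (w.1 : Q → K) w.1.2 () b0 w.2.1 w.2.2 b0 b0
        (h0.trans (hout _ w.1.2 b0 w.2.1 w.2.2)) rfl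
      have h3 := congrArg (fun r : List (M × M) × R.St × S.St => (E () r.1).run (w.1 : Q → K))
        (hex (w.1 : Q → K) b0 w.2.1 w.2.2)
      simp only [if_pos (transcript_length R S N m0 (w.1 : Q → K) false b0 b1 w.2),
        Comp.run_bind, Comp.run_ret]
      have h2 : (E () (transcript R S N m0 (w.1 : Q → K) false b0 b1 w.2)).run (w.1 : Q → K) =
          some b0 := h3.symm.trans h1
      rw [h2]
      rfl
    set E' : List (M × M) → Comp Q K Bool := fun t => if t.length = N then
      (E () t).bind fun g => (Comp.ret (g.getD false) : Comp Q K Bool) else .ret false with hE'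
    have a0 : acc L R S N m0 E' false false b1 = 0 := by
      unfold acc
      rw [prob_eq]
      have : (Finset.univ.filter fun w : L × R.Tape × S.Tape =>
          (E' (transcript R S N m0 (w.1 : Q → K) false false b1 w.2)).run (w.1 : Q → K) = true) =
          ∅ := by
        apply Finset.filter_false_of_mem
        intro w _
        rw [hrun w false]
        simp
      rw [this]
      simp
    have a1 : acc L R S N m0 E' false true b1 = 1 := by
      unfold acc
      rw [prob_eq]
      have : (Finset.univ.filter fun w : L × R.Tape × S.Tape =>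
          (E' (transcript R S N m0 (w.1 : Q → K) false true b1 w.2)).run (w.1 : Q → K) = true) =
          Finset.univ := by
        apply Finset.filter_true_of_mem
        intro w _
        exact hrun w true
      rw [this, Finset.card_univ]
      exact div_self (by exact_mod_cast Fintype.card_ne_zero)
    have e1 := le_abs_self (acc L R S N m0 E' true false b1 - acc L R S N m0 E' false false b1)
    have e2 := neg_abs_le (acc L R S N m0 E' true true b1 - acc L R S N m0 E' false true b1)
    have e3 := neg_abs_le (acc L R S N m0 E' true true b1 - acc L R S N m0 E' true false b1)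
    have e4 := le_abs_self (acc L R S N m0 E' true true b1 - acc L R S N m0 E' true false b1)
    unfold advSum
    rw [a0] at e1 ⊢
    rw [a1] at e2 ⊢
    linarith

/-- **The barrier for perfectly correct oblivious transfer**: any number of rounds and queries. -/
theorem perfect_barrier (K M : Type) [Field K] [Fintype K] (k N n nR nS : ℕ)
    (L : Submodule K ((Fin (2 ^ k) × Fin (3 * k) → K) → K))
    (R : Party (Fin (2 ^ k) × Fin (3 * k) → K) K M Bool)
    (S : Party (Fin (2 ^ k) × Fin (3 * k) → K) K M (Bool × Bool)) [Fintype R.Tape]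
    [Fintype S.Tape] [Nonempty R.Tape] [Nonempty S.Tape] (out : R.St → Option Bool) (m0 : M)
    (hab : nR ≤ n ∧ nS ≤ n) (hn : 0 < n)
    (hR : limited L R false N nR) (hS : ∀ b, limited L S b N nS) (b1 : Bool)
    (hδ : ∀ b0, err L R S out N m0 false b0 b1 ≤ 0) :
    ∃ E : List (M × M) → Comp (Fin (2 ^ k) × Fin (3 * k) → K) K Bool,
      (∀ t O, ((E t).asked O).length ≤ (2 * n + 1) * n) ∧
      1 ≤ advSum L R S N m0 E b1 ∧
      ∀ (q : ℕ) (I : (Fin (3 * k) → K) →
          Comp ((Fin (2 ^ k) × Fin (3 * k) → K) ⊕ List (M × M)) (K ⊕ Bool) (Fin (2 ^ k))),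
        (∀ y O, ((I y).asked (withAdv O E)).length ≤ q) →
        prob (fun p : (Fin (2 ^ k) → Fin (3 * k) → K) × Fin (2 ^ k) =>
          p.1 ((I (p.1 p.2)).run (withAdv (lin p.1) E)) = p.1 p.2) ≤
            (((2 * n + 1) * n * q : ℕ) + 2) / 2 ^ k := by
  have : Finite L := inferInstance
  obtain ⟨E, hE1, hE2⟩ := ot_perfect L R S out m0 N nR nS hR hS b1 hδ
  have hE3 : ∀ t O, ((E t).asked O).length ≤ (2 * n + 1) * n := fun t O =>
    (hE1 t O).trans (Nat.mul_le_mul (by omega) hab.1)
  refine ⟨E, hE3, hE2, ?_⟩
  intro q I hI
  have h1 : 1 ≤ (2 * n + 1) * n := by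
    have : 0 < (2 * n + 1) * n := by positivity
    exact this
  have h := oneway_two (K := K) k ((2 * n + 1) * n * q) (fun y => (I y).sim E) (by
    intro y O
    refine (Comp.asked_sim E O _ h1 (fun t => hE3 t O) (I y)).trans ?_
    exact Nat.mul_le_mul_left _ (hI y O))
  simp only [Comp.run_sim] at h
  exact h

end Pool.Agent.LinOT
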