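import Pool.Agent.Lib.MP_ae38e0_lc.OT

set_option autoImplicit false

/-!
# Sides of a public state: counting over a finite linear space of oracles
-/

namespace Pool.Agent.LinOT

open Classical

variable {K : Type} [Field K] {Q St St' R R' : Type} (L : Submodule K (Q → K))

/-- The queries `S` touch the queries `T` modulo `W`. -/
def Tch (W S T : List Q) : Prop :=
  ¬ ∀ D ∈ killer L W, ∃ D' ∈ killer L (W ++ S), ∀ x ∈ T, D' x = D x

theorem rk_tch {W S T : List Q} (h : Tch L W S T) : rk L T (W ++ S) + 1 ≤ rk L T W := by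
  unfold rk
  apply Submodule.finrank_lt_finrank_of_lt
  refine lt_of_le_of_ne (Submodule.map_mono (killer_mono L W S)) ?_
  intro heq
  apply h
  intro D hD
  have h1 : LinearMap.funLeft K K T.get D ∈
      Submodule.map (LinearMap.funLeft K K T.get) (killer L (W ++ S)) := by
    rw [heq]; exact Submodule.mem_map_of_mem hD
  obtain ⟨D', hD', hT⟩ := h1
  refine ⟨D', hD', fun x hx => ?_⟩
  obtain ⟨i, hi⟩ := List.mem_iff_get.mp hx
  have := congrFun hT i
  simp only [LinearMap.funLeft_apply, hi] at this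
  exact this

/-- What is known about one party at some point of the execution, as functions of its tape and the
oracle: its state, the queries asked so far, and whether its messages agree with the transcript. -/
structure Side (Q K St R : Type) where
  s : R → (Q → K) → St
  q : R → (Q → K) → List Q
  P : R → (Q → K) → Prop

/-- The data of the side depend only on the answers to its queries. -/
def Side.Loc (X : Side Q K St R) : Prop :=
  ∀ r O O', (∀ x ∈ X.q r O, O x = O' x) →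
    X.s r O = X.s r O' ∧ X.q r O = X.q r O' ∧ (X.P r O ↔ X.P r O')

/-- The oracle gives the known answers. -/
def Cons (kn : List (Q × K)) (O : Q → K) : Prop := ∀ w ∈ kn, O w.1 = w.2

omit [Field K] in
theorem cons_append {kn ext : List (Q × K)} {O : Q → K} :
    Cons (kn ++ ext) O ↔ Cons kn O ∧ Cons ext O := by
  simp only [Cons, List.mem_append]
  constructor
  · intro h; exact ⟨fun w hw => h w (Or.inl hw), fun w hw => h w (Or.inr hw)⟩
  · rintro ⟨h1, h2⟩ w (hw | hw)
    · exact h1 w hw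
    · exact h2 w hw

/-- The number of oracles of `L` vanishing on `W`. -/
noncomputable def kc (W : List Q) : ℕ := Nat.card (killer L W)

theorem mem_killer {W : List Q} {D : Q → K} : D ∈ killer L W ↔ D ∈ L ∧ ∀ q ∈ W, D q = 0 := Iff.rfl

instance [Finite L] (W : List Q) : Finite (killer L W) :=
  Finite.of_injective (fun D : killer L W => (⟨D.1, D.2.1⟩ : L)) (by
    intro a b h; exact Subtype.ext (congrArg (fun z : L => (z : Q → K)) h))

theorem kc_pos [Finite L] (W : List Q) : 0 < kc L W := Nat.card_pos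

variable [Fintype L] [Fintype R] [Fintype R']

/-- The pairs of a tape and an oracle which are consistent with the public state. -/
noncomputable def supp (X : Side Q K St R) (kn : List (Q × K)) : Finset (R × L) :=
  Finset.univ.filter fun p => X.P p.1 p.2 ∧ Cons kn (p.2 : Q → K)

theorem mem_supp {X : Side Q K St R} {kn : List (Q × K)} {p : R × L} :
    p ∈ supp L X kn ↔ X.P p.1 p.2 ∧ Cons kn (p.2 : Q → K) := by
  simp [supp]

/-- Those of them whose queries are touched by `S`. -/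
noncomputable def tset (X : Side Q K St R) (kn : List (Q × K)) (S : List Q) : Finset (R × L) :=
  (supp L X kn).filter fun p => Tch L (kn.map Prod.fst) S (X.q p.1 p.2)

/-- **Equidistribution of the answers for untouched parties.** -/
theorem fiber_card (Y : Side Q K St R) (hY : Y.Loc) (kn ext : List (Q × K)) (Os : L)
    (hO : Cons (kn ++ ext) (Os : Q → K)) :
    ((supp L Y kn).filter fun p => ¬ Tch L (kn.map Prod.fst) (ext.map Prod.fst)
        (Y.q p.1 p.2)).card * kc L (kn.map Prod.fst ++ ext.map Prod.fst) ≤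
      (supp L Y (kn ++ ext)).card * kc L (kn.map Prod.fst) := by
  set W := kn.map Prod.fst with hW
  set S := ext.map Prod.fst with hS
  set U := (supp L Y kn).filter fun p => ¬ Tch L W S (Y.q p.1 p.2) with hU
  have hφ : ∀ (T : List Q) (D : Q → K), ∃ D' : Q → K, ¬ Tch L W S T → D ∈ killer L W →
      D' ∈ killer L (W ++ S) ∧ ∀ x ∈ T, D' x = D x := by
    intro T D
    by_cases h : ¬ Tch L W S T ∧ D ∈ killer L W
    · obtain ⟨h1, h2⟩ := h
      unfold Tch at h1
      push Not at h1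
      obtain ⟨D', hD', hT⟩ := h1 D h2
      exact ⟨D', fun _ _ => ⟨hD', hT⟩⟩
    · exact ⟨0, fun h1 h2 => absurd ⟨h1, h2⟩ h⟩
  choose φ hφ using hφ
  have hO1 := (cons_append.mp hO).1
  have hO2 := (cons_append.mp hO).2
  -- the difference
  have hD : ∀ p ∈ U, ∀ E ∈ killer L (W ++ S),
      (Os : Q → K) - (p.2 : Q → K) + E ∈ killer L W := by
    intro p hp E hE
    have hp1 := (mem_supp L).mp (Finset.mem_filter.mp hp).1
    refine ⟨L.add_mem (L.sub_mem Os.2 p.2.2) hE.1, ?_⟩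
    intro x hx
    obtain ⟨w, hw, rfl⟩ := List.mem_map.mp hx
    have e1 := hO1 w hw
    have e2 := hp1.2 w hw
    have e3 := hE.2 w.1 (List.mem_append_left _ hx)
    simp [e1, e2, e3]
  have hval : ∀ p ∈ U, ∀ E ∈ killer L (W ++ S), ∀ D, D = (Os : Q → K) - (p.2 : Q → K) + E →
      ((p.2 : Q → K) + D - φ (Y.q p.1 p.2) D ∈ L) ∧
      (∀ x ∈ Y.q p.1 p.2, (p.2 : Q → K) x =
        ((p.2 : Q → K) + D - φ (Y.q p.1 p.2) D) x) ∧
      Cons (kn ++ ext) ((p.2 : Q → K) + D - φ (Y.q p.1 p.2) D) := by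
    intro p hp E hE D hDe
    have hDk : D ∈ killer L W := hDe ▸ hD p hp E hE
    have hp1 := (mem_supp L).mp (Finset.mem_filter.mp hp).1
    have h := hφ (Y.q p.1 p.2) D (Finset.mem_filter.mp hp).2 hDk
    refine ⟨L.sub_mem (L.add_mem p.2.2 hDk.1) h.1.1, ?_, ?_⟩
    · intro x hx
      simp [h.2 x hx]
    · rw [cons_append]
      constructor
      · intro w hw
        have hx : w.1 ∈ W := List.mem_map.mpr ⟨w, hw, rfl⟩
        have e1 := hp1.2 w hw
        have e2 := hDk.2 w.1 hx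
        have e3 := h.1.2 w.1 (List.mem_append_left _ hx)
        simp [e1, e2, e3]
      · intro w hw
        have hx : w.1 ∈ S := List.mem_map.mpr ⟨w, hw, rfl⟩
        have e1 := hO2 w hw
        have e2 := hE.2 w.1 (List.mem_append_right _ hx)
        have e3 := h.1.2 w.1 (List.mem_append_right _ hx)
        rw [hDe] at e3 ⊢
        simp [e1, e2, e3]
  let f : U × killer L (W ++ S) → (supp L Y (kn ++ ext)) × killer L W := fun z =>
    (⟨(z.1.1.1, ⟨(z.1.1.2 : Q → K) + ((Os : Q → K) - (z.1.1.2 : Q → K) + z.2.1) -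
        φ (Y.q z.1.1.1 z.1.1.2) ((Os : Q → K) - (z.1.1.2 : Q → K) + z.2.1),
          (hval z.1.1 z.1.2 z.2.1 z.2.2 _ rfl).1⟩), by
      have h := hval z.1.1 z.1.2 z.2.1 z.2.2 _ rfl
      have hp1 := (mem_supp L).mp (Finset.mem_filter.mp z.1.2).1
      rw [mem_supp]
      exact ⟨((hY _ _ _ h.2.1).2.2).mp hp1.1, h.2.2⟩⟩,
     ⟨(Os : Q → K) - (z.1.1.2 : Q → K) + z.2.1, hD z.1.1 z.1.2 z.2.1 z.2.2⟩)
  have hf : Function.Injective f := by
    rintro ⟨⟨⟨r, O⟩, hp⟩, E⟩ ⟨⟨⟨r', O'⟩, hp'⟩, E'⟩ he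
    simp only [f, Prod.mk.injEq, Subtype.mk.injEq] at he
    obtain ⟨⟨hr, hO⟩, hDD⟩ := he
    subst hr
    have h1 := hval (r, O) hp E.1 E.2 _ rfl
    have h2 := hval (r, O') hp' E'.1 E'.2 _ rfl
    have q1 := (hY r _ _ h1.2.1).2.1
    have q2 := (hY r _ _ h2.2.1).2.1
    simp only at q1 q2 h1 h2
    have hq : Y.q r O = Y.q r O' := by rw [q1, q2, hO]
    rw [hq, hDD] at hO
    have hOO : (O : Q → K) = (O' : Q → K) := by
      have := congrArg (fun z => z + φ (Y.q r O') ((Os : Q → K) - (O' : Q → K) + (E' : Q → K))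
        - ((Os : Q → K) - (O' : Q → K) + (E' : Q → K))) hO
      simpa using this
    have hOO' : O = O' := Subtype.ext hOO
    subst hOO'
    have hEE : (E : Q → K) = (E' : Q → K) := by simpa using hDD
    have : E = E' := Subtype.ext hEE
    subst this
    rfl
  have := Nat.card_le_card_of_injective f hf
  rw [Nat.card_prod, Nat.card_prod, Nat.card_eq_fintype_card, Fintype.card_coe,
    Nat.card_eq_fintype_card (α := supp L Y (kn ++ ext)), Fintype.card_coe] at this
  exact this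

/-- **Merging independent parties.**  Pairs of consistent parties whose queries do not touch each
other yield real executions. -/
theorem pair_card (X : Side Q K St R) (Y : Side Q K St' R') (hX : X.Loc) (hY : Y.Loc)
    (kn : List (Q × K)) (G : R → R' → St → St' → Prop) :
    ((supp L X kn ×ˢ supp L Y kn).filter fun z =>
        ¬ Tch L (kn.map Prod.fst) (X.q z.1.1 z.1.2) (Y.q z.2.1 z.2.2) ∧
          G z.1.1 z.2.1 (X.s z.1.1 z.1.2) (Y.s z.2.1 z.2.2)).card ≤
      (Finset.univ.filter fun w : R × R' × L => (X.P w.1 w.2.2 ∧ Y.P w.2.1 w.2.2 ∧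
          Cons kn (w.2.2 : Q → K)) ∧ G w.1 w.2.1 (X.s w.1 w.2.2) (Y.s w.2.1 w.2.2)).card *
        kc L (kn.map Prod.fst) := by
  set W := kn.map Prod.fst with hW
  set U := (supp L X kn ×ˢ supp L Y kn).filter fun z =>
        ¬ Tch L W (X.q z.1.1 z.1.2) (Y.q z.2.1 z.2.2) ∧
          G z.1.1 z.2.1 (X.s z.1.1 z.1.2) (Y.s z.2.1 z.2.2) with hU
  set V := Finset.univ.filter fun w : R × R' × L => (X.P w.1 w.2.2 ∧ Y.P w.2.1 w.2.2 ∧
          Cons kn (w.2.2 : Q → K)) ∧ G w.1 w.2.1 (X.s w.1 w.2.2) (Y.s w.2.1 w.2.2) with hV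
  have hφ : ∀ (S T : List Q) (D : Q → K), ∃ D' : Q → K, ¬ Tch L W S T → D ∈ killer L W →
      D' ∈ killer L (W ++ S) ∧ ∀ x ∈ T, D' x = D x := by
    intro S T D
    by_cases h : ¬ Tch L W S T ∧ D ∈ killer L W
    · obtain ⟨h1, h2⟩ := h
      unfold Tch at h1
      push Not at h1
      obtain ⟨D', hD', hT⟩ := h1 D h2
      exact ⟨D', fun _ _ => ⟨hD', hT⟩⟩
    · exact ⟨0, fun h1 h2 => absurd ⟨h1, h2⟩ h⟩
  choose φ hφ using hφ
  have hmem : ∀ z ∈ U, (X.P z.1.1 z.1.2 ∧ Cons kn (z.1.2 : Q → K)) ∧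
      (Y.P z.2.1 z.2.2 ∧ Cons kn (z.2.2 : Q → K)) ∧
      ¬ Tch L W (X.q z.1.1 z.1.2) (Y.q z.2.1 z.2.2) ∧
      G z.1.1 z.2.1 (X.s z.1.1 z.1.2) (Y.s z.2.1 z.2.2) := by
    intro z hz
    have h1 := Finset.mem_filter.mp hz
    have h2 := Finset.mem_product.mp h1.1
    exact ⟨(mem_supp L).mp h2.1, (mem_supp L).mp h2.2, h1.2⟩
  have hD : ∀ z ∈ U, (z.2.2 : Q → K) - (z.1.2 : Q → K) ∈ killer L W := by
    intro z hz
    obtain ⟨h1, h2, -⟩ := hmem z hz
    refine ⟨L.sub_mem z.2.2.2 z.1.2.2, ?_⟩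
    intro x hx
    obtain ⟨w, hw, rfl⟩ := List.mem_map.mp hx
    simp [h1.2 w hw, h2.2 w hw]
  have hval : ∀ z ∈ U, ∀ D, D = (z.2.2 : Q → K) - (z.1.2 : Q → K) → ∀ O,
      O = (z.1.2 : Q → K) + φ (X.q z.1.1 z.1.2) (Y.q z.2.1 z.2.2) D →
      O ∈ L ∧ (∀ x ∈ X.q z.1.1 z.1.2, (z.1.2 : Q → K) x = O x) ∧
      (∀ x ∈ Y.q z.2.1 z.2.2, (z.2.2 : Q → K) x = O x) ∧ Cons kn O := by
    intro z hz D hDe O hOe
    obtain ⟨h1, h2, h3, -⟩ := hmem z hz
    have hDk : D ∈ killer L W := hDe ▸ hD z hz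
    have h := hφ (X.q z.1.1 z.1.2) (Y.q z.2.1 z.2.2) D h3 hDk
    refine ⟨?_, ?_, ?_, ?_⟩
    · rw [hOe]; exact L.add_mem z.1.2.2 h.1.1
    · intro x hx
      rw [hOe]
      simp [h.1.2 x (List.mem_append_right _ hx)]
    · intro x hx
      rw [hOe, Pi.add_apply, h.2 x hx, hDe]
      simp
    · intro w hw
      have hx : w.1 ∈ W := List.mem_map.mpr ⟨w, hw, rfl⟩
      rw [hOe, Pi.add_apply, h.1.2 w.1 (List.mem_append_left _ hx), h1.2 w hw, add_zero]
  let f : U → V × killer L W := fun z =>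
    (⟨(z.1.1.1, z.1.2.1, ⟨(z.1.1.2 : Q → K) + φ (X.q z.1.1.1 z.1.1.2) (Y.q z.1.2.1 z.1.2.2)
        ((z.1.2.2 : Q → K) - (z.1.1.2 : Q → K)), (hval z.1 z.2 _ rfl _ rfl).1⟩), by
      have h := hval z.1 z.2 _ rfl _ rfl
      obtain ⟨h1, h2, h3, h4⟩ := hmem z.1 z.2
      have a := hX _ _ _ h.2.1
      have b := hY _ _ _ h.2.2.1
      rw [hV, Finset.mem_filter]
      refine ⟨Finset.mem_univ _, ⟨a.2.2.mp h1.1, b.2.2.mp h2.1, h.2.2.2⟩, ?_⟩
      simp only
      rw [← a.1, ← b.1]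
      exact h4⟩,
     ⟨(z.1.2.2 : Q → K) - (z.1.1.2 : Q → K), hD z.1 z.2⟩)
  have hf : Function.Injective f := by
    rintro ⟨⟨⟨r, O⟩, ⟨s, P⟩⟩, hz⟩ ⟨⟨⟨r', O'⟩, ⟨s', P'⟩⟩, hz'⟩ he
    simp only [f, Prod.mk.injEq, Subtype.mk.injEq] at he
    obtain ⟨⟨hr, hs, hO⟩, hDD⟩ := he
    subst hr
    subst hs
    have h1 := hval _ hz _ rfl _ rfl
    have h2 := hval _ hz' _ rfl _ rfl
    simp only at h1 h2
    have qx : X.q r O = X.q r O' := by
      rw [(hX r _ _ h1.2.1).2.1, (hX r _ _ h2.2.1).2.1, hO]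
    have qy : Y.q s P = Y.q s P' := by
      rw [(hY s _ _ h1.2.2.1).2.1, (hY s _ _ h2.2.2.1).2.1, hO]
    rw [qx, qy, hDD] at hO
    have hOO : (O : Q → K) = (O' : Q → K) := add_right_cancel hO
    have hOO' : O = O' := Subtype.ext hOO
    subst hOO'
    have hPP : (P : Q → K) = (P' : Q → K) := sub_left_injective hDD
    have : P = P' := Subtype.ext hPP
    subst this
    rfl
  have := Nat.card_le_card_of_injective f hf
  rw [Nat.card_prod, Nat.card_eq_fintype_card, Fintype.card_coe,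
    Nat.card_eq_fintype_card (α := V), Fintype.card_coe] at this
  exact this

end Pool.Agent.LinOT
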