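import Pool.Agent.Lib.MP_ae38e0_lc.BoundedOT

set_option autoImplicit false

/-!
# The attack on protocols whose queries lie in a window of few rounds

Rounds without queries are free after the last query (the number of touched pairs is additive over
the messages) and before the first query of the party which starts later.
-/

namespace Pool.Agent.LinOT

open Classical

variable {K : Type} [Field K] {Q M X Y RA RB σ : Type}

variable (L : Submodule K (Q → K)) [Fintype L] [Fintype RA] [Fintype RB]

/-- The number of pairs of consistent parties whose queries touch each other. -/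
noncomputable def tp {StA StB : Type} (SA : Side Q K StA RA) (SB : Side Q K StB RB)
    (kn : List (Q × K)) : ℕ :=
  ((supp L SA kn ×ˢ supp L SB kn).filter fun z =>
    Tch L (kn.map Prod.fst) (SA.q z.1.1 z.1.2) (SB.q z.2.1 z.2.2)).card

theorem tp_eq {StA StB : Type} (SA : Side Q K StA RA) (SB : Side Q K StB RB)
    (kn : List (Q × K)) :
    tp L SA SB kn = ∑ p ∈ supp L SA kn, (tset L SB kn (SA.q p.1 p.2)).card := by
  unfold tp tset
  rw [Finset.card_filter, Finset.sum_product]
  refine Finset.sum_congr rfl fun p _ => ?_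
  rw [Finset.card_filter]

/-- A closed side is touched by few consistent other parties. -/
theorem tp_closed {StA StB : Type} (SA : Side Q K StA RA) (SB : Side Q K StB RB)
    (kn : List (Q × K)) (n h : ℕ) (hn : ∀ (r : RA) (O : L), (SA.q r O).length ≤ n)
    (hc : Closed L SB h n kn) :
    h * tp L SA SB kn ≤ (supp L SA kn).card * (supp L SB kn).card := by
  rw [tp_eq, Finset.mul_sum, ← smul_eq_mul (a := (supp L SA kn).card)]
  apply Finset.sum_le_card_nsmul
  intro p _
  exact hc _ (hn p.1 p.2)

/-- **The final state**, without any closedness. -/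
theorem leaf2 [Nonempty σ] {StA StB : Type} (SA : Side Q K StA RA) (SB : Side Q K StB RB)
    (hA : SA.Loc) (hB : SB.Loc) (outA : RA → StA → Option σ) (outB : RB → StB → σ)
    (kn : List (Q × K)) :
    (((supp L SA kn).card : ℝ) * (supp L SB kn).card - 2 * tp L SA SB kn) /
        (kc L (kn.map Prod.fst) : ℝ) - (cs L orc (real L SA SB) kn).card ≤
      ∑ w ∈ cs L orc (real L SA SB) kn,
        ((if guess L SB outB kn = outB w.2.1 (SB.s w.2.1 w.2.2) then (1 : ℝ) else 0) -
          (if outA w.1 (SA.s w.1 w.2.2) = some (outB w.2.1 (SB.s w.2.1 w.2.2)) then (1 : ℝ)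
            else 0)) := by
  set W := kn.map Prod.fst with hW
  set g := guess L SB outB kn with hg
  have p1 := pair_card L SA SB hA hB kn (fun _ r' _ s' => outB r' s' = g)
  have p2 := pair_card L SA SB hA hB kn (fun r r' s s' => outA r s ≠ some (outB r' s'))
  have hk : (0 : ℝ) < kc L W := by exact_mod_cast kc_pos L _
  -- the pairs
  set U1 := ((supp L SA kn ×ˢ supp L SB kn).filter fun z =>
        ¬ Tch L (kn.map Prod.fst) (SA.q z.1.1 z.1.2) (SB.q z.2.1 z.2.2) ∧
          outB z.2.1 (SB.s z.2.1 z.2.2) = g).card with hU1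
  set U2 := ((supp L SA kn ×ˢ supp L SB kn).filter fun z =>
        ¬ Tch L (kn.map Prod.fst) (SA.q z.1.1 z.1.2) (SB.q z.2.1 z.2.2) ∧
          outA z.1.1 (SA.s z.1.1 z.1.2) ≠ some (outB z.2.1 (SB.s z.2.1 z.2.2))).card with hU2
  have c1 : U1 = ∑ p ∈ supp L SA kn, ((supp L SB kn).filter fun p' =>
      ¬ Tch L W (SA.q p.1 p.2) (SB.q p'.1 p'.2) ∧ outB p'.1 (SB.s p'.1 p'.2) = g).card := by
    rw [hU1, Finset.card_filter, Finset.sum_product]
    refine Finset.sum_congr rfl fun p _ => ?_
    rw [Finset.card_filter]
  have c2 : U2 = ∑ p ∈ supp L SA kn, ((supp L SB kn).filter fun p' =>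
      ¬ Tch L W (SA.q p.1 p.2) (SB.q p'.1 p'.2) ∧
        outA p.1 (SA.s p.1 p.2) ≠ some (outB p'.1 (SB.s p'.1 p'.2))).card := by
    rw [hU2, Finset.card_filter, Finset.sum_product]
    refine Finset.sum_congr rfl fun p _ => ?_
    rw [Finset.card_filter]
  have c3 : (supp L SA kn).card * (supp L SB kn).card ≤ U1 + U2 + 2 * tp L SA SB kn := by
    rw [c1, c2, tp_eq, Finset.mul_sum, ← Finset.sum_add_distrib, ← Finset.sum_add_distrib,
      ← smul_eq_mul]
    apply Finset.card_nsmul_le_sum
    intro p _
    set b := (supp L SB kn).card with hb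
    set t := (tset L SB kn (SA.q p.1 p.2)).card with ht
    set a1 := ((supp L SB kn).filter fun p' =>
      ¬ Tch L W (SA.q p.1 p.2) (SB.q p'.1 p'.2) ∧ outB p'.1 (SB.s p'.1 p'.2) = g).card with ha1
    set a2 := ((supp L SB kn).filter fun p' =>
      ¬ Tch L W (SA.q p.1 p.2) (SB.q p'.1 p'.2) ∧
        outA p.1 (SA.s p.1 p.2) ≠ some (outB p'.1 (SB.s p'.1 p'.2))).card with ha2
    set cg := ((supp L SB kn).filter fun p' => outB p'.1 (SB.s p'.1 p'.2) = g).card with hcg
    set cv := ((supp L SB kn).filter fun p' =>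
      outA p.1 (SA.s p.1 p.2) = some (outB p'.1 (SB.s p'.1 p'.2))).card with hcv
    have e1 : cg ≤ a1 + t := by
      rw [hcg, ha1, ht, tset]
      refine le_trans (Finset.card_le_card ?_) (Finset.card_union_le _ _)
      intro x hx
      rw [Finset.mem_filter] at hx
      rw [Finset.mem_union, Finset.mem_filter, Finset.mem_filter]
      by_cases hT : Tch L W (SA.q p.1 p.2) (SB.q x.1 x.2)
      · exact Or.inr ⟨hx.1, hT⟩
      · exact Or.inl ⟨hx.1, hT, hx.2⟩
    have e2 : b ≤ a2 + t + cv := by
      rw [hb, ha2, ht, hcv, tset]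
      refine le_trans (Finset.card_le_card ?_) ((Finset.card_union_le _ _).trans
        (Nat.add_le_add_right (Finset.card_union_le _ _) _))
      intro x hx
      simp only [Finset.mem_union, Finset.mem_filter]
      by_cases hT : Tch L W (SA.q p.1 p.2) (SB.q x.1 x.2)
      · exact Or.inl (Or.inr ⟨hx, hT⟩)
      · by_cases hv : outA p.1 (SA.s p.1 p.2) = some (outB x.1 (SB.s x.1 x.2))
        · exact Or.inr ⟨hx, hv⟩
        · exact Or.inl (Or.inl ⟨hx, hT, hv⟩)
    have e3 : cv ≤ cg := by
      rcases hv : outA p.1 (SA.s p.1 p.2) with _ | v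
      · rw [hcv, hv]; simp
      · rw [hcv, hv, hcg, hg]
        refine le_trans ?_ (guess_max L SB outB kn v)
        apply Finset.card_le_card
        intro x hx
        rw [Finset.mem_filter] at hx ⊢
        exact ⟨hx.1, (Option.some.inj hx.2).symm⟩
    show b ≤ _
    omega
  have c3' : ((supp L SA kn).card : ℝ) * (supp L SB kn).card ≤
      U1 + U2 + 2 * tp L SA SB kn := by exact_mod_cast c3
  -- the real executions
  set V1 := (Finset.univ.filter fun w : RA × RB × L => (SA.P w.1 w.2.2 ∧ SB.P w.2.1 w.2.2 ∧
          Cons kn (w.2.2 : Q → K)) ∧ outB w.2.1 (SB.s w.2.1 w.2.2) = g).card with hV1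
  set V2 := (Finset.univ.filter fun w : RA × RB × L => (SA.P w.1 w.2.2 ∧ SB.P w.2.1 w.2.2 ∧
          Cons kn (w.2.2 : Q → K)) ∧
            outA w.1 (SA.s w.1 w.2.2) ≠ some (outB w.2.1 (SB.s w.2.1 w.2.2))).card with hV2
  have s1 : ∑ w ∈ cs L orc (real L SA SB) kn,
      (if g = outB w.2.1 (SB.s w.2.1 w.2.2) then (1 : ℝ) else 0) = V1 := by
    rw [Finset.sum_ite, Finset.sum_const_zero, add_zero, Finset.sum_const, nsmul_eq_mul, mul_one,
      hV1]
    congr 2
    ext w
    simp only [Finset.mem_filter, mem_cs, real, orc, Finset.mem_univ, true_and]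
    constructor
    · rintro ⟨⟨⟨h1, h2⟩, h3⟩, h4⟩; exact ⟨⟨h1, h2, h3⟩, h4.symm⟩
    · rintro ⟨⟨h1, h2, h3⟩, h4⟩; exact ⟨⟨⟨h1, h2⟩, h3⟩, h4.symm⟩
  have s2 : ∑ w ∈ cs L orc (real L SA SB) kn,
      (if outA w.1 (SA.s w.1 w.2.2) = some (outB w.2.1 (SB.s w.2.1 w.2.2)) then (1 : ℝ) else 0) +
        V2 = (cs L orc (real L SA SB) kn).card := by
    rw [Finset.sum_ite, Finset.sum_const_zero, add_zero, Finset.sum_const, nsmul_eq_mul, mul_one,
      hV2]
    have := Finset.card_filter_add_card_filter_not (s := cs L orc (real L SA SB) kn)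
      (fun w => outA w.1 (SA.s w.1 w.2.2) = some (outB w.2.1 (SB.s w.2.1 w.2.2)))
    rw [← this]
    push_cast
    congr 3
    ext w
    simp only [Finset.mem_filter, mem_cs, real, orc, Finset.mem_univ, true_and]
    tauto
  rw [Finset.sum_sub_distrib, s1]
  have q1 : (U1 : ℝ) ≤ V1 * kc L W := by exact_mod_cast p1
  have q2 : (U2 : ℝ) ≤ V2 * kc L W := by exact_mod_cast p2
  have q3 : (((supp L SA kn).card : ℝ) * (supp L SB kn).card - 2 * tp L SA SB kn) /
      (kc L W : ℝ) ≤ V1 + V2 := by
    rw [div_le_iff₀ hk]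
    linarith
  linarith

/-- The eavesdropper for queries in a window of `r` rounds which is followed by `u` rounds without
queries.  `c` is the number of iterations of each closing loop. -/
noncomputable def eveW [Nonempty σ] (A : Party Q K M X) (B : Party Q K M Y)
    (outB : RB → B.St → σ) (n h r u : ℕ) :
    List (M × M) → Side Q K A.St RA → Side Q K B.St RB → List (Q × K) → M → Comp Q K σ
  | [], _, SB, kn, _ => .ret (guess L SB outB kn)
  | (a, b) :: l, SA, SB, kn, m =>
    if l.length < u ∨ r + u < l.length then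
      eveW A B outB n h r u l (SA.next A m a) (SB.next B a b) kn b
    else if l.length = r + u then
      (close L (SB.next B a b) h (n * (n * h ^ 2) ^ (2 * r)) (n * h ^ 2) kn).bind fun kn2 =>
        eveW A B outB n h r u l (SA.next A m a) (SB.next B a b) kn2 b
    else
      (close L (SA.next A m a) h (n * (n * h ^ 2) ^ (2 * (l.length - u) + 1)) (n * h ^ 2)
        kn).bind fun kn1 => (close L (SB.next B a b) h (n * (n * h ^ 2) ^ (2 * (l.length - u)))
          (n * h ^ 2) kn1).bind fun kn2 =>
            eveW A B outB n h r u l (SA.next A m a) (SB.next B a b) kn2 b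

theorem eveW_asked1 [Nonempty σ] (A : Party Q K M X) (B : Party Q K M Y)
    (outB : RB → B.St → σ) (n h r u : ℕ) (hn : 0 < n) (hh : 0 < h) (O : Q → K) :
    ∀ (l : List (M × M)) (SA : Side Q K A.St RA) (SB : Side Q K B.St RB) (kn : List (Q × K))
      (m : M), l.length ≤ r + u → ((eveW L A B outB n h r u l SA SB kn m).asked O).length ≤
        2 * (l.length - u) * (n * (n * h ^ 2) ^ (2 * (l.length - u))) := by
  intro l
  induction l with
  | nil => intro SA SB kn m _; simp [eveW]
  | cons p l ih =>
    intro SA SB kn m hl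
    obtain ⟨a, b⟩ := p
    have hc : 1 ≤ n * h ^ 2 := Nat.mul_pos hn (pow_pos hh 2)
    simp only [List.length_cons] at hl
    by_cases h1 : l.length < u
    · have hcond : l.length < u ∨ r + u < l.length := Or.inl h1
      simp only [eveW, if_pos hcond]
      have h3 := ih (SA.next A m a) (SB.next B a b) kn b (by omega)
      have e0 : l.length - u = 0 := by omega
      have e1 : (((a, b) :: l).length) - u = 0 := by simp only [List.length_cons]; omega
      rw [e0] at h3
      rw [e1]
      simpa using h3
    · have hcond : ¬ (l.length < u ∨ r + u < l.length) := by omega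
      have hcond2 : ¬ (l.length = r + u) := by omega
      simp only [eveW, if_neg hcond, if_neg hcond2, Comp.asked_bind, List.length_append]
      set c := n * h ^ 2 with hcdef
      set j := l.length - u with hj
      have hj1 : (((a, b) :: l).length) - u = j + 1 := by simp only [List.length_cons]; omega
      have h1 := close_asked L (SA.next A m a) h (n * c ^ (2 * j + 1)) O c kn
      set kn1 := (close L (SA.next A m a) h (n * c ^ (2 * j + 1)) c kn).run O with hkn1
      have h2 := close_asked L (SB.next B a b) h (n * c ^ (2 * j)) O c kn1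
      set kn2 := (close L (SB.next B a b) h (n * c ^ (2 * j)) c kn1).run O with hkn2
      have h3 := ih (SA.next A m a) (SB.next B a b) kn2 b (by omega)
      have e1 : c * (n * c ^ (2 * j + 1)) = n * c ^ (2 * (j + 1)) := by ring
      have e2 : c * (n * c ^ (2 * j)) ≤ n * c ^ (2 * (j + 1)) := by
        have : c * (n * c ^ (2 * j)) = n * c ^ (2 * j + 1) := by ring
        rw [this]
        exact Nat.mul_le_mul_left _ (Nat.pow_le_pow_right hc (by omega))
      have e3 : 2 * j * (n * c ^ (2 * j)) ≤ 2 * j * (n * c ^ (2 * (j + 1))) := by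
        apply Nat.mul_le_mul_left
        exact Nat.mul_le_mul_left _ (Nat.pow_le_pow_right hc (by omega))
      have e4 : 2 * (j + 1) * (n * c ^ (2 * (j + 1))) =
          n * c ^ (2 * (j + 1)) + (n * c ^ (2 * (j + 1)) +
            2 * j * (n * c ^ (2 * (j + 1)))) := by ring
      rw [hj1, e4]
      rw [e1] at h1
      omega

theorem eveW_asked [Nonempty σ] (A : Party Q K M X) (B : Party Q K M Y)
    (outB : RB → B.St → σ) (n h r u : ℕ) (hn : 0 < n) (hh : 0 < h) (O : Q → K) :
    ∀ (l : List (M × M)) (SA : Side Q K A.St RA) (SB : Side Q K B.St RB) (kn : List (Q × K))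
      (m : M), ((eveW L A B outB n h r u l SA SB kn m).asked O).length ≤
        (2 * r + 1) * (n * (n * h ^ 2) ^ (2 * r + 1)) := by
  have hc : 1 ≤ n * h ^ 2 := Nat.mul_pos hn (pow_pos hh 2)
  have small : ∀ (l : List (M × M)) (SA : Side Q K A.St RA) (SB : Side Q K B.St RB)
      (kn : List (Q × K)) (m : M), l.length ≤ r + u →
      ((eveW L A B outB n h r u l SA SB kn m).asked O).length ≤
        2 * r * (n * (n * h ^ 2) ^ (2 * r + 1)) := by
    intro l SA SB kn m hl
    refine (eveW_asked1 L A B outB n h r u hn hh O l SA SB kn m hl).trans ?_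
    have h1 : l.length - u ≤ r := by omega
    gcongr
    omega
  intro l
  induction l with
  | nil => intro SA SB kn m; simp [eveW]
  | cons p l ih =>
    intro SA SB kn m
    obtain ⟨a, b⟩ := p
    by_cases hl : l.length + 1 ≤ r + u
    · refine (small ((a, b) :: l) SA SB kn m (by simpa using hl)).trans ?_
      apply Nat.mul_le_mul_right
      omega
    · by_cases hcond : l.length < u ∨ r + u < l.length
      · simp only [eveW, if_pos hcond]
        exact ih _ _ _ _
      · have hcond2 : l.length = r + u := by omega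
        simp only [eveW, if_neg hcond, if_pos hcond2, Comp.asked_bind, List.length_append]
        have h1 := close_asked L (SB.next B a b) h (n * (n * h ^ 2) ^ (2 * r)) O (n * h ^ 2) kn
        have h2 := small l (SA.next A m a) (SB.next B a b)
          ((close L (SB.next B a b) h (n * (n * h ^ 2) ^ (2 * r)) (n * h ^ 2) kn).run O) b
          (by omega)
        have e1 : n * h ^ 2 * (n * (n * h ^ 2) ^ (2 * r)) = n * (n * h ^ 2) ^ (2 * r + 1) := by
          ring
        have e2 : (2 * r + 1) * (n * (n * h ^ 2) ^ (2 * r + 1)) =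
          n * (n * h ^ 2) ^ (2 * r + 1) + 2 * r * (n * (n * h ^ 2) ^ (2 * r + 1)) := by ring
        rw [e2]
        rw [e1] at h1
        omega

/-- The payoff of an execution with `j` rounds to go. -/
noncomputable def payW [Nonempty σ] (A : Party Q K M X) (B : Party Q K M Y)
    (outA : RA → A.St → Option σ) (outB : RB → B.St → σ) (n h r u j : ℕ)
    (SA : Side Q K A.St RA) (SB : Side Q K B.St RB) (m : M) (kn : List (Q × K))
    (w : RA × RB × L) : ℝ :=
  (if (eveW L A B outB n h r u (exec A B w.2.2 j (SA.s w.1 w.2.2) (SB.s w.2.1 w.2.2) m).1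
      SA SB kn m).run (w.2.2 : Q → K) =
      outB w.2.1 (exec A B w.2.2 j (SA.s w.1 w.2.2) (SB.s w.2.1 w.2.2) m).2.2 then (1 : ℝ)
    else 0) -
  (if outA w.1 (exec A B w.2.2 j (SA.s w.1 w.2.2) (SB.s w.2.1 w.2.2) m).2.1 =
      some (outB w.2.1 (exec A B w.2.2 j (SA.s w.1 w.2.2) (SB.s w.2.1 w.2.2) m).2.2)
    then (1 : ℝ) else 0)

/-- The possible replies of a side. -/
noncomputable def reps {St R Z : Type} [Fintype R] (step : St → M → Comp Q K (Z × M))
    (s : R → (Q → K) → St) (m : M) : Finset M :=
  Finset.univ.image fun p : R × L => ((step (s p.1 p.2) m).run (p.2 : Q → K)).2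

/-- Splitting the real executions over the two messages of a round. -/
theorem real_split (A : Party Q K M X) (B : Party Q K M Y) (SA : Side Q K A.St RA)
    (SB : Side Q K B.St RB) (m : M) (kn : List (Q × K)) (F : RA × RB × L → ℝ) :
    ∑ a ∈ reps L A.step SA.s m, ∑ b ∈ reps L B.step SB.s a,
      ∑ w ∈ cs L orc (real L (SA.next A m a) (SB.next B a b)) kn, F w =
      ∑ w ∈ cs L orc (real L SA SB) kn, F w := by
  rw [← sum_split L orc (real L SA SB)
    (fun w : RA × RB × L => ((A.step (SA.s w.1 w.2.2) m).run (w.2.2 : Q → K)).2) kn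
    (reps L A.step SA.s m)
    (fun w => Finset.mem_image.mpr ⟨(w.1, w.2.2), Finset.mem_univ _, rfl⟩) F]
  refine Finset.sum_congr rfl fun a _ => ?_
  have h1 : cs L orc (fun w : RA × RB × L => real L SA SB w ∧
      ((A.step (SA.s w.1 w.2.2) m).run (w.2.2 : Q → K)).2 = a) kn =
      cs L orc (real L (SA.next A m a) SB) kn := by
    ext w
    rw [mem_cs, mem_cs]
    simp only [real, Side.next]
    tauto
  rw [h1, ← sum_split L orc (real L (SA.next A m a) SB)
    (fun w : RA × RB × L => ((B.step (SB.s w.2.1 w.2.2) a).run (w.2.2 : Q → K)).2) kn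
    (reps L B.step SB.s a)
    (fun w => Finset.mem_image.mpr ⟨(w.2.1, w.2.2), Finset.mem_univ _, rfl⟩) F]
  refine Finset.sum_congr rfl fun b _ => ?_
  refine Finset.sum_congr ?_ fun _ _ => rfl
  ext w
  rw [mem_cs, mem_cs]
  simp only [real, Side.next]
  tauto

/-- Splitting the pairs over the two messages of a round. -/
theorem pair_split (A : Party Q K M X) (B : Party Q K M Y) (SA : Side Q K A.St RA)
    (SB : Side Q K B.St RB) (m : M) (kn : List (Q × K)) (F : RA × L → RB × L → ℝ) :
    ∑ a ∈ reps L A.step SA.s m, ∑ b ∈ reps L B.step SB.s a,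
      ∑ x ∈ supp L (SA.next A m a) kn, ∑ y ∈ supp L (SB.next B a b) kn, F x y =
      ∑ x ∈ supp L SA kn, ∑ y ∈ supp L SB kn, F x y := by
  have h1 : ∀ a, ∑ b ∈ reps L B.step SB.s a,
      ∑ x ∈ supp L (SA.next A m a) kn, ∑ y ∈ supp L (SB.next B a b) kn, F x y =
      ∑ x ∈ supp L (SA.next A m a) kn, ∑ y ∈ supp L SB kn, F x y := by
    intro a
    rw [Finset.sum_comm]
    refine Finset.sum_congr rfl fun x _ => ?_
    exact sum_split L (fun p : RB × L => p.2) (fun p => SB.P p.1 p.2)
      (fun p : RB × L => ((B.step (SB.s p.1 p.2) a).run (p.2 : Q → K)).2) kn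
      (reps L B.step SB.s a) (fun p => Finset.mem_image_of_mem _ (Finset.mem_univ p)) (F x)
  rw [Finset.sum_congr rfl fun a _ => h1 a]
  exact sum_split L (fun p : RA × L => p.2) (fun p => SA.P p.1 p.2)
      (fun p : RA × L => ((A.step (SA.s p.1 p.2) m).run (p.2 : Q → K)).2) kn
      (reps L A.step SA.s m) (fun p => Finset.mem_image_of_mem _ (Finset.mem_univ p))
      (fun x => ∑ y ∈ supp L SB kn, F x y)

/-- **A round** in which the eavesdropper only closes at the end of the round (or not at all). -/
theorem round_lift [Nonempty σ] (A : Party Q K M X) (B : Party Q K M Y)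
    (outA : RA → A.St → Option σ) (outB : RB → B.St → σ) (n h r u j : ℕ)
    (SA : Side Q K A.St RA) (SB : Side Q K B.St RB) (m : M) (kn : List (Q × K))
    (clos : M → M → (Q → K) → List (Q × K))
    (hcl : ∀ a b l (O : Q → K), l.length = j →
      (eveW L A B outB n h r u ((a, b) :: l) SA SB kn m).run O =
        (eveW L A B outB n h r u l (SA.next A m a) (SB.next B a b) (clos a b O) b).run O)
    (v : M → M → ℝ) (V : ℝ)
    (hV : V ≤ ∑ a ∈ reps L A.step SA.s m, ∑ b ∈ reps L B.step SB.s a, v a b)
    (hstep : ∀ a b, v a b - (cs L orc (real L (SA.next A m a) (SB.next B a b)) kn).card ≤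
      ∑ w ∈ cs L orc (real L (SA.next A m a) (SB.next B a b)) kn,
        payW L A B outA outB n h r u j (SA.next A m a) (SB.next B a b) b
          (clos a b (w.2.2 : Q → K)) w) :
    V - (cs L orc (real L SA SB) kn).card ≤
      ∑ w ∈ cs L orc (real L SA SB) kn, payW L A B outA outB n h r u (j + 1) SA SB m kn w := by
  have hcard := real_split L A B SA SB m kn (fun _ => 1)
  simp only [Finset.sum_const, nsmul_eq_mul, mul_one] at hcard
  rw [← hcard, ← real_split L A B SA SB m kn
    (fun w => payW L A B outA outB n h r u (j + 1) SA SB m kn w)]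
  refine (sub_le_sub_right hV _).trans ?_
  rw [← Finset.sum_sub_distrib]
  refine Finset.sum_le_sum fun a _ => ?_
  rw [← Finset.sum_sub_distrib]
  refine Finset.sum_le_sum fun b _ => ?_
  refine (hstep a b).trans (le_of_eq ?_)
  refine Finset.sum_congr rfl fun w hw => ?_
  have hw1 := ((mem_cs L).mp hw).1
  have hrepA : ((A.step (SA.s w.1 w.2.2) m).run (w.2.2 : Q → K)).2 = a := hw1.1.2
  have hrepB : ((B.step (SB.s w.2.1 w.2.2) a).run (w.2.2 : Q → K)).2 = b := hw1.2.2
  unfold payW
  have hlen : ∀ sA sB m', (exec A B (w.2.2 : Q → K) j sA sB m').1.length = j :=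
    fun sA sB m' => (exec_spec A B w.2.2 j sA sB m').1
  simp only [exec, hrepA, hrepB]
  rw [hcl _ _ _ _ (hlen _ _ _)]
  rfl

/-- The party asks no query in the rounds `i` with `P i`, counted from the given states. -/
def Quiet {R : Type} (A : Party Q K M X) (s : R → (Q → K) → A.St) (P : ℕ → Prop) : Prop :=
  ∀ (r : R) (O : L) (l : List (M × M)) (m : M), P l.length →
    (A.step (A.after (O : Q → K) (s r O) l) m).asked (O : Q → K) = []

omit [Fintype L] [Fintype RA] in
theorem quiet_next (A : Party Q K M X) (SA : Side Q K A.St RA) (P : ℕ → Prop)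
    (h : Quiet L A SA.s P) (m a : M) : Quiet L A (SA.next A m a).s (fun i => P (i + 1)) := by
  intro r O l m' hl
  have := h r O ((m, a) :: l) m' (by simpa using hl)
  simpa [Party.after, Side.next] using this

omit [Fintype L] [Fintype RA] in
theorem quiet_now (A : Party Q K M X) (SA : Side Q K A.St RA) (P : ℕ → Prop)
    (h : Quiet L A SA.s P) (h0 : P 0) (m a : M) (r : RA) (O : L) :
    (SA.next A m a).q r O = SA.q r O := by
  have := h r O [] m (by simpa using h0)
  simp only [Party.after] at this
  simp only [Side.next, this, List.append_nil]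

theorem val_eq {StA StB : Type} (SA : Side Q K StA RA) (SB : Side Q K StB RB)
    (kn : List (Q × K)) :
    ((supp L SA kn).card : ℝ) * (supp L SB kn).card - 2 * tp L SA SB kn =
      ∑ x ∈ supp L SA kn, ∑ y ∈ supp L SB kn,
        (1 - 2 * (if Tch L (kn.map Prod.fst) (SA.q x.1 x.2) (SB.q y.1 y.2) then (1 : ℝ)
          else 0)) := by
  simp only [Finset.sum_sub_distrib, Finset.sum_const, nsmul_eq_mul, mul_one]
  congr 1
  rw [tp_eq]
  push_cast
  rw [Finset.mul_sum]
  refine Finset.sum_congr rfl fun x _ => ?_
  rw [← Finset.mul_sum, Finset.sum_boole]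
  rfl

/-- **The rounds after the last query.** -/
theorem attack_tail [Nonempty σ] (A : Party Q K M X) (B : Party Q K M Y)
    (outA : RA → A.St → Option σ) (outB : RB → B.St → σ) (n h r u : ℕ) :
    ∀ (j : ℕ), j ≤ u → ∀ (SA : Side Q K A.St RA) (SB : Side Q K B.St RB) (kn : List (Q × K))
      (m : M), SA.Loc → SB.Loc → Quiet L A SA.s (fun i => i < j) →
      Quiet L B SB.s (fun i => i < j) →
      (((supp L SA kn).card : ℝ) * (supp L SB kn).card - 2 * tp L SA SB kn) /
        (kc L (kn.map Prod.fst) : ℝ) - (cs L orc (real L SA SB) kn).card ≤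
      ∑ w ∈ cs L orc (real L SA SB) kn, payW L A B outA outB n h r u j SA SB m kn w := by
  intro j
  induction j with
  | zero =>
    intro _ SA SB kn m hA hB _ _
    have h1 := leaf2 L SA SB hA hB outA outB kn
    simp only [payW, exec, eveW, Comp.run_ret]
    exact h1
  | succ j ih =>
    intro hj SA SB kn m hA hB qA qB
    refine round_lift L A B outA outB n h r u j SA SB m kn (fun _ _ _ => kn) ?_
      (fun a b => (((supp L (SA.next A m a) kn).card : ℝ) * (supp L (SB.next B a b) kn).card -
        2 * tp L (SA.next A m a) (SB.next B a b) kn) / (kc L (kn.map Prod.fst) : ℝ)) _ ?_ ?_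
    · intro a b l O hl
      have hcond : l.length < u ∨ r + u < l.length := Or.inl (by omega)
      simp only [eveW, if_pos hcond]
    · apply le_of_eq
      simp only [← Finset.sum_div]
      congr 1
      rw [val_eq, ← pair_split L A B SA SB m kn]
      refine Finset.sum_congr rfl fun a _ => ?_
      refine Finset.sum_congr rfl fun b _ => ?_
      rw [val_eq]
      refine Finset.sum_congr rfl fun x _ => ?_
      refine Finset.sum_congr rfl fun y _ => ?_
      rw [quiet_now L A SA _ qA (Nat.succ_pos j), quiet_now L B SB _ qB (Nat.succ_pos j)]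
    · intro a b
      refine ih (by omega) (SA.next A m a) (SB.next B a b) kn b (next_loc A SA hA m a)
        (next_loc B SB hB a b) ?_ ?_
      · intro ra O l m' hl
        exact quiet_next L A SA _ qA m a ra O l m' (Nat.succ_lt_succ hl)
      · intro rb O l m' hl
        exact quiet_next L B SB _ qB a b rb O l m' (Nat.succ_lt_succ hl)

/-- **The window.** -/
theorem attack_win [Nonempty σ] (A : Party Q K M X) (B : Party Q K M Y)
    (outA : RA → A.St → Option σ) (outB : RB → B.St → σ) (n h r u : ℕ) (hn : 0 < n)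
    (hh : 2 ≤ h) :
    ∀ (j : ℕ), j ≤ r → ∀ (SA : Side Q K A.St RA) (SB : Side Q K B.St RB) (kn : List (Q × K))
      (m : M), SA.Loc → SB.Loc →
      (∀ (ra : RA) (O : L) (l : List (M × M)), l.length ≤ j + u →
        (SA.q ra O ++ A.asked O (SA.s ra O) l).length ≤ n) →
      (∀ (rb : RB) (O : L) (l : List (M × M)), l.length ≤ j + u →
        (SB.q rb O ++ B.asked O (SB.s rb O) l).length ≤ n) →
      Quiet L A SA.s (fun i => j ≤ i ∧ i < j + u) →
      Quiet L B SB.s (fun i => j ≤ i ∧ i < j + u) →
      Closed L SB h (n * (n * h ^ 2) ^ (2 * j)) kn →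
      (1 - 2 / (h : ℝ)) * (1 - 1 / (h : ℝ)) ^ (4 * j) *
        ((supp L SA kn).card * (supp L SB kn).card / (kc L (kn.map Prod.fst) : ℝ)) -
        (cs L orc (real L SA SB) kn).card ≤
      ∑ w ∈ cs L orc (real L SA SB) kn, payW L A B outA outB n h r u (j + u) SA SB m kn w := by
  have hh' : (0 : ℝ) < h := by exact_mod_cast (by omega : 0 < h)
  have hh2 : (2 : ℝ) ≤ h := by exact_mod_cast hh
  have hfac : (0 : ℝ) ≤ 1 - 1 / (h : ℝ) := by
    rw [sub_nonneg, div_le_one hh']; linarith
  have hfac2 : (0 : ℝ) ≤ 1 - 2 / (h : ℝ) := by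
    rw [sub_nonneg, div_le_one hh']; exact hh2
  intro j
  induction j with
  | zero =>
    intro _ SA SB kn m hA hB hqA hqB qA qB hc
    have h1 := attack_tail L A B outA outB n h r u u le_rfl SA SB kn m hA hB
      (fun ra O l m' hl => qA ra O l m' ⟨Nat.zero_le _, by omega⟩)
      (fun rb O l m' hl => qB rb O l m' ⟨Nat.zero_le _, by omega⟩)
    rw [Nat.zero_add]
    refine le_trans (sub_le_sub_right ?_ _) h1
    have h2 := tp_closed L SA SB kn n h (fun ra O => by
      have := hqA ra O [] (Nat.zero_le _)
      simpa [Party.asked] using this) (by simpa using hc)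
    have h2' : (h : ℝ) * tp L SA SB kn ≤ (supp L SA kn).card * (supp L SB kn).card := by
      exact_mod_cast h2
    have hk : (0 : ℝ) < kc L (kn.map Prod.fst) := by exact_mod_cast kc_pos L _
    have e : (1 - 2 / (h : ℝ)) * (1 - 1 / (h : ℝ)) ^ (4 * 0) *
        ((supp L SA kn).card * (supp L SB kn).card / (kc L (kn.map Prod.fst) : ℝ)) =
        (((supp L SA kn).card : ℝ) * (supp L SB kn).card -
          2 * ((supp L SA kn).card * (supp L SB kn).card / h)) /
            (kc L (kn.map Prod.fst) : ℝ) := by
      rw [Nat.mul_zero, pow_zero]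
      ring
    rw [e]
    apply div_le_div_of_nonneg_right _ hk.le
    have h3 : (tp L SA SB kn : ℝ) ≤ (supp L SA kn).card * (supp L SB kn).card / h := by
      rw [le_div_iff₀ hh']
      linarith
    linarith
  | succ j ih =>
    intro hjr SA SB kn m hA hB hqA hqB qA qB hc
    set c := n * h ^ 2 with hcdef
    have eju : j + 1 + u = (j + u) + 1 := by omega
    rw [eju]
    -- split over the reply of `A`
    set gA : RA × L → M := fun p => ((A.step (SA.s p.1 p.2) m).run (p.2 : Q → K)).2 with hgA
    set TA : Finset M := Finset.univ.image gA with hTA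
    have memTA : ∀ p, gA p ∈ TA := fun p => Finset.mem_image_of_mem _ (Finset.mem_univ p)
    have hreal : ∀ a, cs L orc (fun w : RA × RB × L => real L SA SB w ∧ gA (w.1, w.2.2) = a) kn =
        cs L orc (real L (SA.next A m a) SB) kn := by
      intro a
      ext w
      rw [mem_cs, mem_cs]
      simp only [real, Side.next, hgA]
      tauto
    have hsum := sum_split L orc (real L SA SB) (fun w : RA × RB × L => gA (w.1, w.2.2)) kn TA
      (fun w => memTA _) (payW L A B outA outB n h r u (j + u + 1) SA SB m kn)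
    have hcard := card_split L orc (real L SA SB) (fun w : RA × RB × L => gA (w.1, w.2.2)) kn TA
      (fun w => memTA _)
    have hcA := card_split L (fun p : RA × L => p.2) (fun p => SA.P p.1 p.2) gA kn TA memTA
    have hcA' : ∑ a ∈ TA, ((supp L (SA.next A m a) kn).card : ℝ) = (supp L SA kn).card := hcA
    simp only [hreal] at hsum hcard
    rw [← hsum, ← hcard, ← hcA', Finset.sum_mul, Finset.sum_div, Finset.mul_sum,
      ← Finset.sum_sub_distrib]
    refine Finset.sum_le_sum fun a _ => ?_
    -- the first closing phase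
    have hA1 := next_loc A SA hA m a
    have hph := phase L orc (real L (SA.next A m a) SB) (SA.next A m a) SB hB n h
      (n * c ^ (2 * j + 1)) (n * c ^ (2 * (j + 1))) hn (by omega) (fun ra O => by
        have := hqA ra O [(m, a)] (by simp only [List.length_singleton]; omega)
        simpa [Party.asked, Side.next] using this)
      (fun kn1 w =>
        (if ((close L (SB.next B a ((B.step (SB.s w.2.1 w.2.2) a).run (w.2.2 : Q → K)).2) h
            (n * c ^ (2 * j)) c kn1).bind fun kn2 => eveW L A B outB n h r u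
              (exec A B w.2.2 (j + u) ((SA.next A m a).s w.1 w.2.2)
                ((B.step (SB.s w.2.1 w.2.2) a).run (w.2.2 : Q → K)).1
                ((B.step (SB.s w.2.1 w.2.2) a).run (w.2.2 : Q → K)).2).1
              (SA.next A m a) (SB.next B a ((B.step (SB.s w.2.1 w.2.2) a).run (w.2.2 : Q → K)).2)
              kn2 ((B.step (SB.s w.2.1 w.2.2) a).run (w.2.2 : Q → K)).2).run (w.2.2 : Q → K) =
            outB w.2.1 (exec A B w.2.2 (j + u) ((SA.next A m a).s w.1 w.2.2)
                ((B.step (SB.s w.2.1 w.2.2) a).run (w.2.2 : Q → K)).1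
                ((B.step (SB.s w.2.1 w.2.2) a).run (w.2.2 : Q → K)).2).2.2 then (1 : ℝ) else 0) -
        (if outA w.1 (exec A B w.2.2 (j + u) ((SA.next A m a).s w.1 w.2.2)
                ((B.step (SB.s w.2.1 w.2.2) a).run (w.2.2 : Q → K)).1
                ((B.step (SB.s w.2.1 w.2.2) a).run (w.2.2 : Q → K)).2).2.1 =
            some (outB w.2.1 (exec A B w.2.2 (j + u) ((SA.next A m a).s w.1 w.2.2)
                ((B.step (SB.s w.2.1 w.2.2) a).run (w.2.2 : Q → K)).1
                ((B.step (SB.s w.2.1 w.2.2) a).run (w.2.2 : Q → K)).2).2.2)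
          then (1 : ℝ) else 0)) (fun _ _ => neg_one_le_ite _ _)
      ((1 - 2 / (h : ℝ)) * (1 - 1 / (h : ℝ)) ^ (4 * j) * (1 - 1 / (h : ℝ)) ^ 2)
      (by positivity) kn hc (by rw [← hcdef]; apply le_of_eq; ring) ?_
    · rw [← hcdef] at hph
      have e1 : (1 - 2 / (h : ℝ)) * (1 - 1 / (h : ℝ)) ^ (4 * (j + 1)) *
          (((supp L (SA.next A m a) kn).card : ℝ) * (supp L SB kn).card /
            (kc L (kn.map Prod.fst) : ℝ)) =
          (1 - 2 / (h : ℝ)) * (1 - 1 / (h : ℝ)) ^ (4 * j) * (1 - 1 / (h : ℝ)) ^ 2 *
            (1 - 1 / (h : ℝ)) ^ 2 * (((supp L (SA.next A m a) kn).card : ℝ) *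
              (supp L SB kn).card / (kc L (kn.map Prod.fst) : ℝ)) := by ring
      rw [e1]
      refine hph.trans (le_of_eq ?_)
      refine Finset.sum_congr rfl fun w hw => ?_
      have hw1 := ((mem_cs L).mp hw).1.1
      have hrep : ((A.step (SA.s w.1 w.2.2) m).run (w.2.2 : Q → K)).2 = a := hw1.2
      unfold payW
      have hlen : ∀ sA sB m', (exec A B (w.2.2 : Q → K) (j + u) sA sB m').1.length = j + u :=
        fun sA sB m' => (exec_spec A B w.2.2 (j + u) sA sB m').1
      have hc1 : ¬ (j + u < u ∨ r + u < j + u) := by omega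
      have hc2 : ¬ (j + u = r + u) := by omega
      have hc3 : j + u - u = j := by omega
      simp only [exec, hrep, eveW, hlen, if_neg hc1, if_neg hc2, hc3, Comp.run_bind, orc,
        ← hcdef]
      rfl
    · intro ext hext hcl
      set kn1 := kn ++ ext with hkn1
      -- split over the reply of `B`
      set gB : RB × L → M := fun p => ((B.step (SB.s p.1 p.2) a).run (p.2 : Q → K)).2 with hgB
      set TB : Finset M := Finset.univ.image gB with hTB
      have memTB : ∀ p, gB p ∈ TB := fun p => Finset.mem_image_of_mem _ (Finset.mem_univ p)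
      have hreal2 : ∀ b, cs L orc (fun w : RA × RB × L => real L (SA.next A m a) SB w ∧
            gB (w.2.1, w.2.2) = b) kn1 =
          cs L orc (real L (SA.next A m a) (SB.next B a b)) kn1 := by
        intro b
        ext w
        rw [mem_cs, mem_cs]
        simp only [real, Side.next, hgB]
        tauto
      have hsum2 := sum_split L orc (real L (SA.next A m a) SB)
        (fun w : RA × RB × L => gB (w.2.1, w.2.2)) kn1 TB (fun w => memTB _) (fun w =>
        (if ((close L (SB.next B a ((B.step (SB.s w.2.1 w.2.2) a).run (w.2.2 : Q → K)).2) h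
            (n * c ^ (2 * j)) c kn1).bind fun kn2 => eveW L A B outB n h r u
              (exec A B w.2.2 (j + u) ((SA.next A m a).s w.1 w.2.2)
                ((B.step (SB.s w.2.1 w.2.2) a).run (w.2.2 : Q → K)).1
                ((B.step (SB.s w.2.1 w.2.2) a).run (w.2.2 : Q → K)).2).1
              (SA.next A m a) (SB.next B a ((B.step (SB.s w.2.1 w.2.2) a).run (w.2.2 : Q → K)).2)
              kn2 ((B.step (SB.s w.2.1 w.2.2) a).run (w.2.2 : Q → K)).2).run (w.2.2 : Q → K) =
            outB w.2.1 (exec A B w.2.2 (j + u) ((SA.next A m a).s w.1 w.2.2)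
                ((B.step (SB.s w.2.1 w.2.2) a).run (w.2.2 : Q → K)).1
                ((B.step (SB.s w.2.1 w.2.2) a).run (w.2.2 : Q → K)).2).2.2 then (1 : ℝ) else 0) -
        (if outA w.1 (exec A B w.2.2 (j + u) ((SA.next A m a).s w.1 w.2.2)
                ((B.step (SB.s w.2.1 w.2.2) a).run (w.2.2 : Q → K)).1
                ((B.step (SB.s w.2.1 w.2.2) a).run (w.2.2 : Q → K)).2).2.1 =
            some (outB w.2.1 (exec A B w.2.2 (j + u) ((SA.next A m a).s w.1 w.2.2)
                ((B.step (SB.s w.2.1 w.2.2) a).run (w.2.2 : Q → K)).1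
                ((B.step (SB.s w.2.1 w.2.2) a).run (w.2.2 : Q → K)).2).2.2)
          then (1 : ℝ) else 0))
      have hcard2 := card_split L orc (real L (SA.next A m a) SB)
        (fun w : RA × RB × L => gB (w.2.1, w.2.2)) kn1 TB (fun w => memTB _)
      have hcB := card_split L (fun p : RB × L => p.2) (fun p => SB.P p.1 p.2) gB kn1 TB memTB
      have hcB' : ∑ b ∈ TB, ((supp L (SB.next B a b) kn1).card : ℝ) = (supp L SB kn1).card := hcB
      simp only [hreal2] at hsum2 hcard2
      rw [← hsum2, ← hcard2, ← hcB', Finset.mul_sum, Finset.sum_div, Finset.mul_sum,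
        ← Finset.sum_sub_distrib]
      refine Finset.sum_le_sum fun b _ => ?_
      have hB1 := next_loc B SB hB a b
      have hph := phase L orc (real L (SA.next A m a) (SB.next B a b)) (SB.next B a b)
        (SA.next A m a) hA1 n h (n * c ^ (2 * j)) (n * c ^ (2 * j + 1)) hn (by omega)
        (fun rb O => by
          have := hqB rb O [(a, b)] (by simp only [List.length_singleton]; omega)
          simpa [Party.asked, Side.next] using this)
        (payW L A B outA outB n h r u (j + u) (SA.next A m a) (SB.next B a b) b)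
        (fun _ _ => neg_one_le_ite _ _)
        ((1 - 2 / (h : ℝ)) * (1 - 1 / (h : ℝ)) ^ (4 * j))
        (by positivity) kn1 hcl (by rw [← hcdef]; apply le_of_eq; ring) ?_
      · rw [← hcdef] at hph
        rw [mul_comm ((supp L (SA.next A m a) kn1).card : ℝ)]
        refine hph.trans (le_of_eq ?_)
        refine Finset.sum_congr rfl fun w hw => ?_
        have hw1 := ((mem_cs L).mp hw).1.2
        have hrep : ((B.step (SB.s w.2.1 w.2.2) a).run (w.2.2 : Q → K)).2 = b := hw1.2
        unfold payW
        simp only [hrep, Comp.run_bind, orc]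
        rfl
      · intro ext2 hext2 hcl2
        rw [mul_comm ((supp L (SB.next B a b) (kn1 ++ ext2)).card : ℝ)]
        refine ih (by omega) (SA.next A m a) (SB.next B a b) (kn1 ++ ext2) b hA1 hB1 ?_ ?_ ?_ ?_
          hcl2
        · intro ra O l hl
          have := hqA ra O ((m, a) :: l) (by simp only [List.length_cons]; omega)
          simpa [Party.asked, Side.next, add_assoc] using this
        · intro rb O l hl
          have := hqB rb O ((a, b) :: l) (by simp only [List.length_cons]; omega)
          simpa [Party.asked, Side.next, add_assoc] using this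
        · intro ra O l m' hl
          exact quiet_next L A SA _ qA m a ra O l m' ⟨by omega, by omega⟩
        · intro rb O l m' hl
          exact quiet_next L B SB _ qB a b rb O l m' ⟨by omega, by omega⟩

theorem closed_empty {St : Type} (S : Side Q K St RA) (hS : ∀ (r : RA) (O : L), S.q r O = [])
    (h D : ℕ) (kn : List (Q × K)) : Closed L S h D kn := by
  intro T _
  have : tset L S kn T = ∅ := by
    unfold tset
    apply Finset.filter_false_of_mem
    intro p _
    rw [hS]
    exact not_tch_nil L _ _
  rw [this]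
  simp

theorem close_closed {St : Type} (S : Side Q K St RA) (h D : ℕ) (kn : List (Q × K))
    (hc : Closed L S h D kn) (j : ℕ) (O : Q → K) : (close L S h D j kn).run O = kn := by
  cases j with
  | zero => rfl
  | succ j =>
    unfold close
    rw [dif_neg]
    · rfl
    · rintro ⟨T, h1, h2⟩
      exact absurd (hc T h1) (not_le.mpr h2)

/-- **The rounds before the window.** -/
theorem attack_pre [Nonempty σ] (A : Party Q K M X) (B : Party Q K M Y)
    (outA : RA → A.St → Option σ) (outB : RB → B.St → σ) (n h r u : ℕ) (hn : 0 < n)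
    (hh : 2 ≤ h) :
    ∀ (i : ℕ) (SA : Side Q K A.St RA) (SB : Side Q K B.St RB) (kn : List (Q × K))
      (m : M), SA.Loc → SB.Loc →
      (∀ (ra : RA) (O : L) (l : List (M × M)), l.length ≤ i + (r + u) →
        (SA.q ra O ++ A.asked O (SA.s ra O) l).length ≤ n) →
      (∀ (rb : RB) (O : L) (l : List (M × M)), l.length ≤ i + (r + u) →
        (SB.q rb O ++ B.asked O (SB.s rb O) l).length ≤ n) →
      Quiet L A SA.s (fun t => i + r ≤ t ∧ t < i + (r + u)) →
      Quiet L B SB.s (fun t => i + r ≤ t ∧ t < i + (r + u)) →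
      (((∀ (ra : RA) (O : L), SA.q ra O = []) ∧ Quiet L A SA.s (fun t => t < i)) ∨
        ((∀ (rb : RB) (O : L), SB.q rb O = []) ∧ Quiet L B SB.s (fun t => t < i))) →
      (i = 0 → Closed L SB h (n * (n * h ^ 2) ^ (2 * r)) kn) →
      (1 - 2 / (h : ℝ)) * (1 - 1 / (h : ℝ)) ^ (4 * r + 2) *
        ((supp L SA kn).card * (supp L SB kn).card / (kc L (kn.map Prod.fst) : ℝ)) -
        (cs L orc (real L SA SB) kn).card ≤
      ∑ w ∈ cs L orc (real L SA SB) kn,
        payW L A B outA outB n h r u (i + (r + u)) SA SB m kn w := by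
  have hh' : (0 : ℝ) < h := by exact_mod_cast (by omega : 0 < h)
  have hh2 : (2 : ℝ) ≤ h := by exact_mod_cast hh
  have hfac : (0 : ℝ) ≤ 1 - 1 / (h : ℝ) := by
    rw [sub_nonneg, div_le_one hh']; linarith
  have hfac1 : 1 - 1 / (h : ℝ) ≤ 1 := by
    have : 0 ≤ 1 / (h : ℝ) := by positivity
    linarith
  have hfac2 : (0 : ℝ) ≤ 1 - 2 / (h : ℝ) := by
    rw [sub_nonneg, div_le_one hh']; exact hh2
  have hlam : (1 - 2 / (h : ℝ)) * (1 - 1 / (h : ℝ)) ^ (4 * r + 2) ≤
      (1 - 2 / (h : ℝ)) * (1 - 1 / (h : ℝ)) ^ (4 * r) := by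
    apply mul_le_mul_of_nonneg_left _ hfac2
    exact pow_le_pow_of_le_one hfac hfac1 (by omega)
  intro i
  induction i with
  | zero =>
    intro SA SB kn m hA hB hqA hqB qA qB _ hc
    rw [Nat.zero_add]
    have h1 := attack_win L A B outA outB n h r u hn hh r le_rfl SA SB kn m hA hB
      (fun ra O l hl => hqA ra O l (by omega)) (fun rb O l hl => hqB rb O l (by omega))
      (fun ra O l m' hl => qA ra O l m' ⟨by omega, by omega⟩)
      (fun rb O l m' hl => qB rb O l m' ⟨by omega, by omega⟩) (hc rfl)
    refine le_trans (sub_le_sub_right ?_ _) h1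
    apply mul_le_mul_of_nonneg_right hlam
    positivity
  | succ i ih =>
    intro SA SB kn m hA hB hqA hqB qA qB hside _
    set c := n * h ^ 2 with hcdef
    have ei : i + 1 + (r + u) = (i + (r + u)) + 1 := by omega
    rw [ei]
    have hA1 : ∀ a, (SA.next A m a).Loc := fun a => next_loc A SA hA m a
    have hB1 : ∀ a b, (SB.next B a b).Loc := fun a b => next_loc B SB hB a b
    have hqA1 : ∀ a (ra : RA) (O : L) (l : List (M × M)), l.length ≤ i + (r + u) →
        ((SA.next A m a).q ra O ++ A.asked O ((SA.next A m a).s ra O) l).length ≤ n := by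
      intro a ra O l hl
      have := hqA ra O ((m, a) :: l) (by simp only [List.length_cons]; omega)
      simpa [Party.asked, Side.next, add_assoc] using this
    have hqB1 : ∀ a b (rb : RB) (O : L) (l : List (M × M)), l.length ≤ i + (r + u) →
        ((SB.next B a b).q rb O ++ B.asked O ((SB.next B a b).s rb O) l).length ≤ n := by
      intro a b rb O l hl
      have := hqB rb O ((a, b) :: l) (by simp only [List.length_cons]; omega)
      simpa [Party.asked, Side.next, add_assoc] using this
    have qA1 : ∀ a, Quiet L A (SA.next A m a).s (fun t => i + r ≤ t ∧ t < i + (r + u)) := by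
      intro a ra O l m' hl
      exact quiet_next L A SA _ qA m a ra O l m' ⟨by omega, by omega⟩
    have qB1 : ∀ a b, Quiet L B (SB.next B a b).s (fun t => i + r ≤ t ∧ t < i + (r + u)) := by
      intro a b rb O l m' hl
      exact quiet_next L B SB _ qB a b rb O l m' ⟨by omega, by omega⟩
    have hside1 : ∀ a b, (((∀ (ra : RA) (O : L), (SA.next A m a).q ra O = []) ∧
          Quiet L A (SA.next A m a).s (fun t => t < i)) ∨
        ((∀ (rb : RB) (O : L), (SB.next B a b).q rb O = []) ∧
          Quiet L B (SB.next B a b).s (fun t => t < i))) := by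
      intro a b
      rcases hside with ⟨h1, h2⟩ | ⟨h1, h2⟩
      · left
        refine ⟨fun ra O => ?_, fun ra O l m' hl => ?_⟩
        · rw [quiet_now L A SA _ h2 (Nat.succ_pos i), h1]
        · exact quiet_next L A SA _ h2 m a ra O l m' (Nat.succ_lt_succ hl)
      · right
        refine ⟨fun rb O => ?_, fun rb O l m' hl => ?_⟩
        · rw [quiet_now L B SB _ h2 (Nat.succ_pos i), h1]
        · exact quiet_next L B SB _ h2 a b rb O l m' (Nat.succ_lt_succ hl)
    have hV : (1 - 2 / (h : ℝ)) * (1 - 1 / (h : ℝ)) ^ (4 * r + 2) *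
        (((supp L SA kn).card : ℝ) * (supp L SB kn).card / (kc L (kn.map Prod.fst) : ℝ)) ≤
        ∑ a ∈ reps L A.step SA.s m, ∑ b ∈ reps L B.step SB.s a,
          (1 - 2 / (h : ℝ)) * (1 - 1 / (h : ℝ)) ^ (4 * r + 2) *
          (((supp L (SA.next A m a) kn).card : ℝ) * (supp L (SB.next B a b) kn).card /
            (kc L (kn.map Prod.fst) : ℝ)) := by
      apply le_of_eq
      have := pair_split L A B SA SB m kn (fun _ _ => 1)
      simp only [Finset.sum_const, nsmul_eq_mul, mul_one] at this
      simp only [← Finset.mul_sum, ← Finset.sum_div]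
      rw [← this]
      simp only [← Finset.mul_sum]
    rcases Nat.eq_zero_or_pos i with hi | hi
    · -- the last round before the window
      subst hi
      refine round_lift L A B outA outB n h r u (0 + (r + u)) SA SB m kn
        (fun a b O => (close L (SB.next B a b) h (n * c ^ (2 * r)) c kn).run O) ?_
        (fun a b => (1 - 2 / (h : ℝ)) * (1 - 1 / (h : ℝ)) ^ (4 * r + 2) *
          (((supp L (SA.next A m a) kn).card : ℝ) * (supp L (SB.next B a b) kn).card /
            (kc L (kn.map Prod.fst) : ℝ))) _ hV ?_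
      · intro a b l O hl
        have hc1 : ¬ (l.length < u ∨ r + u < l.length) := by omega
        have hc2 : l.length = r + u := by omega
        simp only [eveW, if_neg hc1, if_pos hc2, Comp.run_bind, ← hcdef]
      · intro a b
        rcases hside1 a b with ⟨h1, h2⟩ | ⟨h1, h2⟩
        · -- the first party has not asked
          have hph := phase L orc (real L (SA.next A m a) (SB.next B a b)) (SB.next B a b)
            (SA.next A m a) (hA1 a) n h (n * c ^ (2 * r)) (c * (n * c ^ (2 * r))) hn (by omega)
            (fun rb O => by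
              have := hqB1 a b rb O [] (Nat.zero_le _)
              simpa [Party.asked] using this)
            (payW L A B outA outB n h r u (0 + (r + u)) (SA.next A m a) (SB.next B a b) b)
            (fun _ _ => neg_one_le_ite _ _)
            ((1 - 2 / (h : ℝ)) * (1 - 1 / (h : ℝ)) ^ (4 * r))
            (by positivity) kn (closed_empty L _ h1 _ _ _) (le_of_eq rfl) ?_
          · rw [← hcdef] at hph
            have e1 : (1 - 2 / (h : ℝ)) * (1 - 1 / (h : ℝ)) ^ (4 * r + 2) *
              (((supp L (SA.next A m a) kn).card : ℝ) * (supp L (SB.next B a b) kn).card /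
                (kc L (kn.map Prod.fst) : ℝ)) =
              (1 - 2 / (h : ℝ)) * (1 - 1 / (h : ℝ)) ^ (4 * r) * (1 - 1 / (h : ℝ)) ^ 2 *
                (((supp L (SB.next B a b) kn).card : ℝ) * (supp L (SA.next A m a) kn).card /
                  (kc L (kn.map Prod.fst) : ℝ)) := by ring
            rw [e1]
            exact hph
          · intro ext _ hcl
            rw [Nat.zero_add, mul_comm ((supp L (SB.next B a b) (kn ++ ext)).card : ℝ)]
            exact attack_win L A B outA outB n h r u hn hh r le_rfl (SA.next A m a)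
              (SB.next B a b) (kn ++ ext) b (hA1 a) (hB1 a b)
              (fun ra O l hl => hqA1 a ra O l (by omega))
              (fun rb O l hl => hqB1 a b rb O l (by omega))
              (fun ra O l m' hl => qA1 a ra O l m' ⟨by omega, by omega⟩)
              (fun rb O l m' hl => qB1 a b rb O l m' ⟨by omega, by omega⟩) hcl
        · -- the second party has not asked
          have hcl := closed_empty L (SB.next B a b) h1 h (n * c ^ (2 * r)) kn
          simp only [close_closed L (SB.next B a b) h (n * c ^ (2 * r)) kn hcl]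
          refine le_trans (sub_le_sub_right ?_ _) (ih (SA.next A m a) (SB.next B a b) kn b
            (hA1 a) (hB1 a b) (hqA1 a) (hqB1 a b) (qA1 a) (qB1 a b) (hside1 a b)
            (fun _ => hcl))
          exact le_rfl
    · -- an earlier round
      refine round_lift L A B outA outB n h r u (i + (r + u)) SA SB m kn
        (fun _ _ _ => kn) ?_
        (fun a b => (1 - 2 / (h : ℝ)) * (1 - 1 / (h : ℝ)) ^ (4 * r + 2) *
          (((supp L (SA.next A m a) kn).card : ℝ) * (supp L (SB.next B a b) kn).card /
            (kc L (kn.map Prod.fst) : ℝ))) _ hV ?_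
      · intro a b l O hl
        have hc1 : l.length < u ∨ r + u < l.length := by omega
        simp only [eveW, if_pos hc1]
      · intro a b
        exact ih (SA.next A m a) (SB.next B a b) kn b (hA1 a) (hB1 a b) (hqA1 a) (hqB1 a b)
          (qA1 a) (qB1 a b) (hside1 a b) (fun h0 => absurd h0 (by omega))

end Pool.Agent.LinOT
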