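import Pool.Agent.Lib.MP_ae38e0_lc.WindowOT
import Pool.Agent.Lib.MP_ae38e0_lc.RoundNum

set_option autoImplicit false

/-!
# The numbers in the lower bound on the length of the window
-/

namespace Pool.Agent.LinOT

theorem window_count (c k r n : ℕ) (hk : 2 ≤ k) (hn : n ≤ k ^ c)
    (hr : 16 * (c + 4) * (r + 1) * Nat.log 2 k ≤ k) :
    (2 * r + 1) * (n * (n * ((8 * (r + 1)) * k) ^ 2) ^ (2 * r + 1)) ≤ 2 ^ (k / 4) := by
  have hlog : 1 ≤ Nat.log 2 k := Nat.log_pos (by norm_num) (by omega)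
  have hrk : 16 * (r + 1) ≤ k := by
    calc 16 * (r + 1) = 16 * 1 * (r + 1) * 1 := by ring
      _ ≤ 16 * (c + 4) * (r + 1) * Nat.log 2 k := by
        gcongr
        omega
      _ ≤ k := hr
  have hk1 : 1 ≤ k := by omega
  have h1 : (8 * (r + 1)) * k ≤ k ^ 2 := by nlinarith
  have h2 : n * ((8 * (r + 1)) * k) ^ 2 ≤ k ^ (c + 4) := by
    calc n * ((8 * (r + 1)) * k) ^ 2 ≤ k ^ c * (k ^ 2) ^ 2 := by gcongr
      _ = k ^ (c + 4) := by ring
  have h3 : (2 * r + 1) * (n * (n * ((8 * (r + 1)) * k) ^ 2) ^ (2 * r + 1)) ≤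
      k ^ ((c + 4) * (2 * (r + 1))) := by
    calc (2 * r + 1) * (n * (n * ((8 * (r + 1)) * k) ^ 2) ^ (2 * r + 1))
        ≤ k * (k ^ c * (k ^ (c + 4)) ^ (2 * r + 1)) := by
          gcongr
          omega
      _ = k ^ (1 + c + (c + 4) * (2 * r + 1)) := by
        rw [← pow_mul]; ring
      _ ≤ k ^ ((c + 4) * (2 * (r + 1))) := by
        apply Nat.pow_le_pow_right hk1
        nlinarith
  have h4 : k < 2 ^ (Nat.log 2 k + 1) := Nat.lt_pow_succ_log_self (by norm_num) k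
  have h5 : k ^ ((c + 4) * (2 * (r + 1))) ≤ 2 ^ (4 * (c + 4) * (r + 1) * Nat.log 2 k) := by
    calc k ^ ((c + 4) * (2 * (r + 1)))
        ≤ (2 ^ (Nat.log 2 k + 1)) ^ ((c + 4) * (2 * (r + 1))) := by gcongr
      _ ≤ (2 ^ (2 * Nat.log 2 k)) ^ ((c + 4) * (2 * (r + 1))) := by
        gcongr
        · norm_num
        · omega
      _ = 2 ^ (4 * (c + 4) * (r + 1) * Nat.log 2 k) := by
        rw [← pow_mul]; ring_nf
  refine h3.trans (h5.trans (Nat.pow_le_pow_right (by norm_num) ?_))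
  have h6 : 16 * (c + 4) * (r + 1) * Nat.log 2 k = 16 * ((c + 4) * (r + 1) * Nat.log 2 k) := by
    ring
  have h7 : 4 * (c + 4) * (r + 1) * Nat.log 2 k = 4 * ((c + 4) * (r + 1) * Nat.log 2 k) := by ring
  rw [h6] at hr
  rw [h7]
  omega

theorem window_barrier (K M : Type) [Field K] [Fintype K] (k c N s r n : ℕ)
    (L : Submodule K ((Fin (2 ^ k) × Fin (3 * k) → K) → K))
    (R : Party (Fin (2 ^ k) × Fin (3 * k) → K) K M Bool)
    (S : Party (Fin (2 ^ k) × Fin (3 * k) → K) K M (Bool × Bool)) [Fintype R.Tape]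
    [Fintype S.Tape] [Nonempty R.Tape] [Nonempty S.Tape] (out : R.St → Option Bool) (m0 : M)
    (hsr : s + r ≤ N)
    (hk : 2 ≤ k) (hn : n ≤ k ^ c) (hr : 16 * (c + 4) * (r + 1) * Nat.log 2 k ≤ k)
    (hR : limited L R false N n) (hS : ∀ b, limited L S b N n)
    (qR : idle L R false (fun i => s + r ≤ i ∧ i < N))
    (qS : ∀ b, idle L S b (fun i => s + r ≤ i ∧ i < N))
    (hside : idle L R false (fun i => i < s) ∨ ∀ b, idle L S b (fun i => i < s))
    (δ : ℝ) (b1 : Bool)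
    (hδ : ∀ b0, err L R S out N m0 false b0 b1 ≤ δ) :
    ∃ E : List (M × M) → Comp (Fin (2 ^ k) × Fin (3 * k) → K) K Bool,
      (∀ t O, ((E t).asked O).length ≤ 2 ^ (k / 4)) ∧
      1 - 2 * δ - 1 / k ≤ advSum L R S N m0 E b1 ∧
      ∀ I : (Fin (3 * k) → K) → Comp ((Fin (2 ^ k) × Fin (3 * k) → K) ⊕ List (M × M)) (K ⊕ Bool)
          (Fin (2 ^ k)),
        (∀ y O, ((I y).asked (withAdv O E)).length ≤ 2 ^ (k / 4)) →
        prob (fun p : (Fin (2 ^ k) → Fin (3 * k) → K) × Fin (2 ^ k) =>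
          p.1 ((I (p.1 p.2)).run (withAdv (lin p.1) E)) = p.1 p.2) ≤ 3 / 2 ^ (k / 2) := by
  have hkpos : 1 ≤ k := by omega
  have hn' : max n 1 ≤ k ^ c := max_le hn (Nat.one_le_pow _ _ hkpos)
  have hh : 0 < 8 * (r + 1) * k := by positivity
  have : Finite L := inferInstance
  obtain ⟨E, hE1, hE2⟩ := ot_window L R S out m0 N s r (max n 1) (8 * (r + 1) * k) hsr
    (by omega) hh
    (fun O hO τ l hl => (hR O hO τ l hl).trans (le_max_left _ _))
    (fun b O hO τ l hl => (hS b O hO τ l hl).trans (le_max_left _ _)) qR qS hside δ b1 hδ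
  have hq := window_count c k r (max n 1) hk hn' hr
  have hb : ∀ t O, ((E t).asked O).length ≤ 2 ^ (k / 4) := fun t O => (hE1 t O).trans hq
  refine ⟨E, hb, ?_, ?_⟩
  · refine le_trans (le_of_eq ?_) hE2
    have hk0 : (k : ℝ) ≠ 0 := by exact_mod_cast (by omega : k ≠ 0)
    have hr0 : ((r : ℝ) + 1) ≠ 0 := by positivity
    push_cast
    field_simp
    ring
  · intro I hI
    have h := oneway_half (K := K) k (fun y => (I y).sim E) (by
      intro y O
      refine (Comp.asked_sim E O (2 ^ (k / 4)) (Nat.one_le_two_pow) (fun t => hb t O) (I y)).trans ?_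
      calc 2 ^ (k / 4) * ((I y).asked (withAdv O E)).length ≤ 2 ^ (k / 4) * 2 ^ (k / 4) := by
            gcongr
            exact hI y O
        _ = 2 ^ (k / 4 + k / 4) := by rw [pow_add]
        _ ≤ 2 ^ (k / 2) := Nat.pow_le_pow_right (by norm_num) (by omega))
    simp only [Comp.run_sim] at h
    exact h

end Pool.Agent.LinOT
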